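import Pool.Agent.Lib.Brown.FinPres

/-! Groups of type F_n: closure properties and Brown's criterion for flag complexes. -/

set_option autoImplicit false

namespace Pool.Agent.Lib.Brown

open Function

variable {G : Type} [Group G]

/-- `Fn G m`: finitely presented and of type `FP_(m+1)`; for `1 ≤ m` this is type `F_(m+1)` -/
def Fn (G : Type) [Group G] (m : ℕ) : Prop := FPr G ∧ FPG G m

variable {m : ℕ}

theorem Fn.of_hom {Γ Q : Type} [Group Γ] [Group Q] (φ : Γ →* Q) (Q0 : Finset Q)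
    (hQ0 : ∀ q, ∃ γ, φ γ * q ∈ Q0) (hk : Fn φ.ker m) (hQ : Fn Q m) : Fn Γ m :=
  ⟨FPr.of_hom φ Q0 hQ0 hk.1 hQ.1, FPG.of_hom φ Q0 hQ0 hk.2 hQ.2⟩

theorem Fn.equiv {H : Type} [Group H] (e : G ≃* H) (h : Fn G m) : Fn H m :=
  ⟨have := h.1; Group.IsFinitelyPresented.equiv e, h.2.equiv e⟩

theorem Fn.mono {n : ℕ} (hmn : m ≤ n) (h : Fn G n) : Fn G m := ⟨h.1, h.2.mono hmn⟩

theorem fn_of_subsingleton [Subsingleton G] (m : ℕ) : Fn G m :=
  ⟨inferInstance, fpg_of_subsingleton m⟩

theorem Fn.of_surjective {Γ Q : Type} [Group Γ] [Group Q] (φ : Γ →* Q) (hφ : Surjective φ)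
    (hk : Fn φ.ker m) (hQ : Fn Q m) : Fn Γ m :=
  Fn.of_hom φ {1} (fun q => by
    obtain ⟨γ, hγ⟩ := hφ q⁻¹
    exact ⟨γ, by simp [hγ]⟩) hk hQ

theorem Fn.of_range {Γ Q : Type} [Group Γ] [Group Q] (φ : Γ →* Q)
    (hk : Fn φ.ker m) (hQ : Fn φ.range m) : Fn Γ m :=
  Fn.of_surjective φ.rangeRestrict φ.rangeRestrict_surjective
    (by rwa [MonoidHom.ker_rangeRestrict]) hQ

theorem Fn.subgroup (K : Subgroup G) [K.FiniteIndex] (h : Fn G m) : Fn K m := by
  classical
  have : Subsingleton K.subtype.ker := by rw [K.ker_subtype]; infer_instance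
  have := Fintype.ofFinite (G ⧸ K)
  refine Fn.of_hom K.subtype (Finset.univ.image fun q : G ⧸ K => q.out⁻¹) (fun q => ?_)
    (fn_of_subsingleton m) h
  obtain ⟨k, hk⟩ := QuotientGroup.mk_out_eq_mul K q⁻¹
  exact ⟨k⁻¹, Finset.mem_image.2 ⟨_, Finset.mem_univ ((q⁻¹ : G) : G ⧸ K), by
    rw [hk]; simp⟩⟩

instance {V : Type} : RS (fun _ _ : V => True) := ⟨fun _ => trivial, fun _ _ _ => trivial⟩

theorem fn_of_finite [Finite G] (m : ℕ) : Fn G m := by
  have := Fintype.ofFinite G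
  refine ⟨inferInstance, brown_fp (V := G) (fun _ _ => True) Set.univ (fun _ _ _ => trivial)
    (fun _ _ _ _ => trivial) m (conn_cone (v := 1) (Set.mem_univ _) (fun _ _ => trivial) (m+1)).1
    Finset.univ (fun _ _ _ => ⟨1, by simp⟩) (fun l hl _ => ?_)⟩
  obtain ⟨a, ha⟩ := List.exists_mem_of_ne_nil l hl
  have : Subsingleton (MulAction.stabilizer G l) := ⟨fun x y => Subtype.ext (by
    have h1 := mem_stab_list.1 x.2 a ha
    have h2 := mem_stab_list.1 y.2 a ha
    exact mul_right_cancel (h1.trans h2.symm))⟩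
  exact fpg_of_subsingleton m

theorem Fn.of_finite_target {Γ Q : Type} [Group Γ] [Group Q] [Finite Q] (φ : Γ →* Q)
    (hk : Fn φ.ker m) : Fn Γ m :=
  Fn.of_range φ hk (fn_of_finite m)

theorem Fn.of_finiteIndex (K : Subgroup G) [K.FiniteIndex] (h : Fn K m) : Fn G m := by
  refine Fn.of_finite_target (QuotientGroup.mk' K.normalCore) ?_
  rw [QuotientGroup.ker_mk']
  exact (h.subgroup (K.normalCore.subgroupOf K)).equiv
    (Subgroup.subgroupOfEquivOfLe K.normalCore_le)

theorem FPG.of_finiteIndex (K : Subgroup G) [K.FiniteIndex] (h : FPG K m) : FPG G m := by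
  classical
  have h1 : FPG (K.normalCore.subgroupOf K) m := by
    set N := K.normalCore.subgroupOf K
    have : Subsingleton N.subtype.ker := by rw [N.ker_subtype]; infer_instance
    have := Fintype.ofFinite (K ⧸ N)
    refine FPG.of_hom N.subtype (Finset.univ.image fun q : K ⧸ N => q.out⁻¹) (fun q => ?_)
      (fpg_of_subsingleton m) h
    obtain ⟨k, hk⟩ := QuotientGroup.mk_out_eq_mul N q⁻¹
    exact ⟨k⁻¹, Finset.mem_image.2 ⟨_, Finset.mem_univ ((q⁻¹ : K) : K ⧸ N), by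
      rw [hk]; simp⟩⟩
  refine FPG.of_hom (QuotientGroup.mk' K.normalCore) {1} (fun q => ?_) ?_ (fn_of_finite m).2
  · obtain ⟨γ, hγ⟩ := QuotientGroup.mk'_surjective K.normalCore q⁻¹
    exact ⟨γ, by simp only [hγ]; simp⟩
  · rw [QuotientGroup.ker_mk']
    exact h1.equiv (Subgroup.subgroupOfEquivOfLe K.normalCore_le)

theorem Fn.prod {H : Type} [Group H] (h1 : Fn G m) (h2 : Fn H m) : Fn (G × H) m := by
  refine Fn.of_surjective (MonoidHom.snd G H) Prod.snd_surjective (h1.equiv ?_) h2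
  exact (MonoidHom.ofInjective (f := MonoidHom.inl G H) (fun a b h => congrArg Prod.fst h)).trans
    (MulEquiv.subgroupCongr (by ext ⟨a, b⟩; simp [eq_comm, Subgroup.mem_prod]))

theorem Fn.pi_fin (h : Fn G m) : ∀ k : ℕ, Fn (Fin k → G) m
  | 0 => fn_of_subsingleton m
  | k+1 => (h.prod (Fn.pi_fin h k)).equiv
      { (Fin.consEquiv fun _ : Fin (k+1) => G) with
        map_mul' := fun x y => by
          ext i; refine Fin.cases ?_ (fun j => ?_) i <;> simp [Fin.consEquiv] }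

theorem Fn.pi (ι : Type) [Finite ι] (h : Fn G m) : Fn (ι → G) m := by
  obtain ⟨k, ⟨e⟩⟩ := Finite.exists_equiv_fin ι
  exact (h.pi_fin k).equiv (MulEquiv.arrowCongr e.symm (MulEquiv.refl G))

/-- Brown's criterion for flag complexes -/
theorem brown {V : Type} [MulAction G V] (R : V → V → Prop) [RS R] (S : Set V)
    (hS : ∀ (g : G), ∀ x ∈ S, g • x ∈ S) (hR : ∀ (g : G) x y, R x y → R (g • x) (g • y))
    (hm : 1 ≤ m) (hc : Conn R S (m+1)) (V0 : Finset V)
    (hV0 : ∀ l, Sx R S l → l.length ≤ m + 2 → ∃ g : G, ∀ a ∈ l, g • a ∈ V0)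
    (hst : ∀ l, l ≠ [] → Sx R S l → Fn (MulAction.stabilizer G l) m) : Fn G m := by
  refine ⟨brown_fpr R S hS hR (hc.1 0 (by omega)).nonempty
    (fun α F hF x hx y hy => (hc.1 1 (by omega)).const F hF hx hy) (hc.2 (by omega)) V0 ?_ ?_ ?_,
    brown_fp R S hS hR m hc.1 V0 hV0 fun l hl h => (hst l hl h).2⟩
  · intro x hx y hy z hz hxy hyz hxz
    obtain ⟨g, hg⟩ := hV0 [x, y, z] (by
      have := RS.symm _ _ hxy; have := RS.symm _ _ hyz; have := RS.symm _ _ hxz
      simp [Sx, RS.refl, *]) (by simp; omega)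
    exact ⟨g, hg x (by simp), hg y (by simp), hg z (by simp)⟩
  · intro x hx
    have := (hst [x] (by simp) (by simp [Sx, RS.refl, hx])).1
    rwa [show MulAction.stabilizer G [x] = MulAction.stabilizer G x by
      ext g; rw [mem_stab_list]; simp] at this
  · intro x hx y hy hxy
    have := (hst [x, y] (by simp) (by
      have := RS.symm _ _ hxy
      simp [Sx, RS.refl, *])).1.fg
    rw [show MulAction.stabilizer G [x, y] = MulAction.stabilizer G x ⊓ MulAction.stabilizer G y by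
      ext g; rw [mem_stab_list]; simp] at this
    exact (Group.fg_iff_subgroup_fg _).1 this

end Pool.Agent.Lib.Brown
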