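import Pool.Agent.Lib.Brown.Fn

/-! Finiteness properties of finite germ extensions, in an abstract cocycle form. -/

set_option autoImplicit false

namespace Pool.Agent.Lib.Brown

open Function

/-- a cocycle with values in permutations of a pointed set, almost everywhere fixing the point -/
structure Coc (G X Y : Type) [Group G] [MulAction G X] where
  y0 : Y
  c : G → X → Equiv.Perm Y
  c_one : ∀ q, c 1 q = 1
  c_mul : ∀ g h q, c (g * h) q = c g (h • q) * c h q
  fin : ∀ g, {q | c g q y0 ≠ y0}.Finite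

namespace Coc

variable {G X Y : Type} [Group G] [MulAction G X] (C : Coc G X Y)

/-- vertices of the germ complex -/
def V : Type := {a : X → Option Y // {q | a q ≠ some C.y0}.Finite}

instance : MulAction G C.V where
  smul g a := ⟨fun q => (a.1 (g⁻¹ • q)).map (C.c g (g⁻¹ • q)), by
    refine ((a.2.union (C.fin g)).image (g • ·)).subset fun q hq => ⟨g⁻¹ • q, ?_, by simp⟩
    by_contra h
    simp only [Set.mem_union, Set.mem_ofPred_eq, not_or, not_not] at h
    exact hq (by simp [h.1, h.2])⟩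
  one_smul a := Subtype.ext (funext fun q => by
    show (a.1 (1⁻¹ • q)).map (C.c 1 (1⁻¹ • q)) = a.1 q
    simp [C.c_one])
  mul_smul g h a := Subtype.ext (funext fun q => by
    show (a.1 ((g * h)⁻¹ • q)).map (C.c (g * h) ((g * h)⁻¹ • q)) =
      ((a.1 (h⁻¹ • g⁻¹ • q)).map (C.c h (h⁻¹ • g⁻¹ • q))).map (C.c g (g⁻¹ • q))
    simp [C.c_mul, mul_smul])

variable {C}

theorem smul_val (g : G) (a : C.V) (q : X) :
    (g • a).1 q = (a.1 (g⁻¹ • q)).map (C.c g (g⁻¹ • q)) := rfl

theorem smul_val' (g : G) (a : C.V) (q : X) : (g • a).1 (g • q) = (a.1 q).map (C.c g q) := by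
  rw [smul_val, inv_smul_smul]

def Le (a b : C.V) : Prop := ∀ q, b.1 q = a.1 q ∨ b.1 q = none

def Rl (a b : C.V) : Prop := Le a b ∨ Le b a

instance : RS (Rl (C := C)) := ⟨fun _ => Or.inl fun _ => Or.inl rfl, fun _ _ h => h.symm⟩

theorem hid_fin (a : C.V) : {q | a.1 q = none}.Finite :=
  a.2.subset fun q (hq : a.1 q = none) => by simp [hq]

/-- hidden points -/
noncomputable def hid (a : C.V) : Finset X := (hid_fin a).toFinset

theorem mem_hid {a : C.V} {q : X} : q ∈ hid a ↔ a.1 q = none := by simp [hid]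

theorem Le.hid {a b : C.V} (h : Le a b) : hid a ⊆ hid b := fun q hq => by
  rw [mem_hid] at hq ⊢
  exact (h q).elim (fun e => e.trans hq) id

theorem Le.eq {a b : C.V} (h : Le a b) (hc : (Coc.hid b).card ≤ (Coc.hid a).card) : a = b := by
  have := Finset.eq_of_subset_of_card_le h.hid hc
  refine Subtype.ext (funext fun q => (h q).elim Eq.symm fun e => ?_)
  rw [e, ← mem_hid, this, mem_hid, e]

theorem Rl.le {a b : C.V} (h : Rl a b) (hc : (hid a).card ≤ (hid b).card) : Le a b :=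
  h.elim id fun h => by rw [h.eq hc]; exact fun _ => Or.inl rfl

theorem Le.smul (g : G) {a b : C.V} (h : Le a b) : Le (g • a) (g • b) := fun q => by
  rcases h (g⁻¹ • q) with h | h <;> simp [smul_val, h]

theorem card_smul (g : G) (a : C.V) : (hid (g • a)).card = (hid a).card := by
  classical
  rw [← Finset.card_image_of_injective (hid a) (MulAction.injective g)]
  congr 1
  ext q
  simp only [mem_hid, smul_val, Option.map_eq_none_iff, Finset.mem_image]
  exact ⟨fun h => ⟨_, h, by simp⟩, by rintro ⟨q, h, rfl⟩; simpa using h⟩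

open Classical in
/-- the vertex hiding exactly `M` -/
noncomputable def vtx (C : Coc G X Y) (M : Finset X) : C.V :=
  ⟨fun q => if q ∈ M then none else some C.y0,
    M.finite_toSet.subset fun q hq => by by_contra h; exact hq (if_neg h)⟩

theorem conn_sub (C : Coc G X Y) (N : ℕ) :
    Conn Rl (Sub (Set.univ : Set C.V) (fun a => (hid a).card) N) N := by
  classical
  refine Conn.down _ N (fun x _ y _ h he _ => (h.le he.le).eq he.ge) ?_ ?_
  swap
  · refine conn_directed (fun M : Finset X => {a : C.V | ∀ q ∉ M, a.1 q = some C.y0})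
      (fun M M' => ⟨M ∪ M', fun a ha q hq => ha q fun h => hq (Finset.mem_union_left _ h),
        fun a ha q hq => ha q fun h => hq (Finset.mem_union_right _ h)⟩)
      (fun a _ => ⟨a.2.toFinset, fun q hq => by simpa using hq⟩) (fun _ => Set.subset_univ _)
      (fun M => conn_cone (S := {a : C.V | ∀ q ∉ M, a.1 q = some C.y0}) (v := C.vtx M)
        (fun q hq => if_neg hq) (fun a ha => Or.inr fun q => ?_) N)
    by_cases h : q ∈ M
    · exact Or.inr (if_pos h)
    · exact Or.inl ((if_neg h).trans (ha q h).symm)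
  intro a _ hpos
  have hinj : Injective fun q : X => (q, C.y0) := fun i j h => congrArg Prod.fst h
  have hc := grounded (fun a b : X × Y => a.1 ≠ b.1) (fun a b h => h.symm) 1 N
    {w | a.1 w.1 = none} ((hid a).image fun q => (q, C.y0))
    ⟨by rw [Finset.image_nonempty, ← Finset.card_pos]; omega, by simp [mem_hid], by
      simp only [Finset.mem_image]
      rintro _ ⟨i, -, rfl⟩ _ ⟨j, -, rfl⟩ h1 h2
      exact h1 (by simp only at h2; rw [h2])⟩
    (by rw [Finset.card_image_of_injective _ hinj]; omega) (fun w _ => by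
      refine (Finset.card_le_card (t := {(w.1, C.y0)}) fun s hs => ?_).trans (by simp)
      simp only [Finset.mem_filter, Finset.mem_image] at hs
      obtain ⟨⟨i, -, rfl⟩, -, h⟩ := hs
      simp only [ne_eq, not_not] at h
      simp [h])
  have hlk : ∀ b ∈ DLk Rl Set.univ (fun a => (hid a).card) a, Le b a ∧ b ≠ a := by
    rintro b ⟨-, hlt, hxy⟩
    refine ⟨(RS.symm _ _ hxy).le hlt.le, fun h => ?_⟩
    rw [h] at hlt; exact lt_irrefl _ hlt
  let f : C.V → Finset (X × Y) := fun b =>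
    (hid a).biUnion fun q => (b.1 q).toFinset.image fun y => (q, y)
  have hf : ∀ b q y, (q, y) ∈ f b ↔ a.1 q = none ∧ b.1 q = some y := by
    intro b q y
    simp only [f, Finset.mem_biUnion, mem_hid, Finset.mem_image, Option.mem_toFinset,
      Option.mem_def, Prod.mk.injEq]
    exact ⟨by rintro ⟨q, h1, y, h2, rfl, rfl⟩; exact ⟨h1, h2⟩, fun h => ⟨q, h.1, y, h.2, rfl, rfl⟩⟩
  let g : Finset (X × Y) → C.V := fun J =>
    ⟨fun q => if h : ∃ y, (q, y) ∈ J then some h.choose else a.1 q,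
      (a.2.union (J.finite_toSet.image Prod.fst)).subset fun q hq => by
        by_cases h : ∃ y, (q, y) ∈ J
        · exact Or.inr ⟨_, h.choose_spec, rfl⟩
        · exact Or.inl (by simpa [h] using hq)⟩
  have hg : ∀ J ∈ Clq (fun a b : X × Y => a.1 ≠ b.1) {w | a.1 w.1 = none}, ∀ q y,
      (q, y) ∈ J → (g J).1 q = some y := by
    intro J hJ q y hc
    have h : ∃ y, (q, y) ∈ J := ⟨y, hc⟩
    have : (g J).1 q = some h.choose := dif_pos h
    rw [this]
    congr 1
    by_contra hne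
    exact hJ.2.2 _ h.choose_spec _ hc (fun h => hne (congrArg Prod.snd h)) rfl
  have hg' : ∀ J q, (¬ ∃ y, (q, y) ∈ J) → (g J).1 q = a.1 q := fun J q h => dif_neg h
  have hgle : ∀ J ∈ Clq (fun a b : X × Y => a.1 ≠ b.1) {w | a.1 w.1 = none},
      ∀ J' ∈ Clq (fun a b : X × Y => a.1 ≠ b.1) {w | a.1 w.1 = none},
      J ⊆ J' → Le (g J') (g J) := by
    intro J hJ J' hJ' h q
    by_cases h1 : ∃ y, (q, y) ∈ J
    · obtain ⟨c, hc⟩ := h1
      rw [hg J hJ q c hc, hg J' hJ' q c (h hc)]; exact Or.inl rfl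
    · rw [hg' J q h1]
      by_cases h2 : ∃ y, (q, y) ∈ J'
      · obtain ⟨c, hc⟩ := h2
        exact Or.inr (hJ'.2.1 _ hc)
      · rw [hg' J' q h2]; exact Or.inl rfl
  have hfle : ∀ b b', Le b b' → f b' ⊆ f b := by
    rintro b b' h ⟨q, y⟩ hq
    rw [hf] at hq ⊢
    refine ⟨hq.1, ?_⟩
    rcases h q with h | h
    · rw [← h, hq.2]
    · rw [h] at hq; simp at hq
  have hfc : ∀ b ∈ DLk Rl Set.univ (fun a => (hid a).card) a,
      f b ∈ Clq (fun a b : X × Y => a.1 ≠ b.1) {w | a.1 w.1 = none} := by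
    intro b hb
    obtain ⟨h1, h2⟩ := hlk b hb
    obtain ⟨q, hq⟩ := Function.ne_iff.1 (fun h => h2 (Subtype.ext h))
    have h3 := (h1 q).resolve_left (Ne.symm hq)
    obtain ⟨y, hy⟩ := Option.ne_none_iff_exists'.1 (h3 ▸ hq)
    refine ⟨⟨(q, y), (hf _ _ _).2 ⟨h3, hy⟩⟩, fun w hw => ((hf _ _ _).1 hw).1, ?_⟩
    rintro ⟨q, y⟩ h4 ⟨q', y'⟩ h5 hne (rfl : q = q')
    rw [hf] at h4 h5
    exact hne (by rw [Option.some.inj (h4.2.symm.trans h5.2)])
  refine hc.retract f g hfc ?_ ?_ ?_ ?_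
  · intro J hJ
    have hle : Le (g J) a := fun q => by
      by_cases h2 : ∃ y, (q, y) ∈ J
      · obtain ⟨c, hc⟩ := h2
        exact Or.inr (hJ.2.1 _ hc)
      · rw [hg' J q h2]; exact Or.inl rfl
    refine ⟨trivial, ?_, Or.inr hle⟩
    by_contra hlt
    obtain ⟨⟨q, y⟩, hc⟩ := hJ.1
    have h4 := hg J hJ q y hc
    rw [hle.eq (not_lt.1 hlt), show a.1 q = none from hJ.2.1 _ hc] at h4
    simp at h4
  · intro b _ b' _ h
    exact (h.imp (hfle b b') (hfle b' b)).symm
  · intro J hJ J' hJ' h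
    exact (h.imp (hgle J hJ J' hJ') (hgle J' hJ' J hJ)).symm
  · intro b hb
    refine Subtype.ext (funext fun q => ?_)
    by_cases h : ∃ y, (q, y) ∈ f b
    · obtain ⟨y, hy⟩ := h
      rw [hg _ (hfc b hb) q y hy, ((hf _ _ _).1 hy).2]
    · rw [hg' _ q h]
      refine ((hlk b hb).1 q).elim id fun h1 => ?_
      rw [h1]
      cases h2 : b.1 q with
      | none => rfl
      | some y => exact absurd ⟨y, (hf _ _ _).2 ⟨h1, h2⟩⟩ h

theorem normalize (h2 : ∀ q y, ∃ g : G, g • q = q ∧ C.c g q y = C.y0 ∧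
      ∀ q' ≠ q, C.c g q' C.y0 = C.y0) (a : C.V) :
    ∃ g : G, ∀ q, (g • a).1 q = some C.y0 ∨ (g • a).1 q = none := by
  have hfin : ∀ a : C.V, {q | a.1 q ≠ some C.y0 ∧ a.1 q ≠ none}.Finite :=
    fun a => a.2.subset fun q hq => hq.1
  induction hn : {q | a.1 q ≠ some C.y0 ∧ a.1 q ≠ none}.ncard using Nat.strong_induction_on
    generalizing a with
  | _ n ih =>
    by_cases hex : ∃ q, a.1 q ≠ some C.y0 ∧ a.1 q ≠ none
    swap
    · refine ⟨1, fun q => ?_⟩
      rw [one_smul]
      by_contra h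
      exact hex ⟨q, not_or.1 h⟩
    obtain ⟨q, hq1, hq2⟩ := hex
    obtain ⟨y, hy⟩ := Option.ne_none_iff_exists'.1 hq2
    obtain ⟨g, hg1, hg2, hg3⟩ := h2 q y
    suffices hlt : {q | (g • a).1 q ≠ some C.y0 ∧ (g • a).1 q ≠ none}.ncard < n by
      obtain ⟨g', hg'⟩ := ih _ hlt (g • a) rfl
      exact ⟨g' * g, by simpa [mul_smul] using hg'⟩
    rw [← hn]
    refine lt_of_le_of_lt (Set.ncard_le_ncard_of_injOn (g⁻¹ • ·) (t := {q | a.1 q ≠ some C.y0 ∧
      a.1 q ≠ none} \ {q}) ?_ (MulAction.injective g⁻¹).injOn ((hfin a).subset Set.sdiff_subset))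
      (Set.ncard_sdiff_singleton_lt_of_mem ⟨hq1, hq2⟩ (hfin a))
    intro q' ⟨h3, h4⟩
    rw [smul_val] at h3 h4
    have h5 : g⁻¹ • q' ≠ q := fun e => h3 (by rw [e, hy]; simp [hg2])
    exact ⟨⟨fun e => h3 (by rw [e]; simp [hg3 _ h5]), fun e => h4 (by rw [e]; rfl)⟩, h5⟩

theorem fn_of_coc {m : ℕ} (hm : 1 ≤ m)
    (h2 : ∀ q y, ∃ g : G, g • q = q ∧ C.c g q y = C.y0 ∧ ∀ q' ≠ q, C.c g q' C.y0 = C.y0)
    (h3 : ∀ j, ∃ X0 : Finset X, ∀ M : Finset X, M.card ≤ j →
      ∃ b : G, (∀ q, C.c b q C.y0 = C.y0) ∧ ∀ q ∈ M, b • q ∈ X0)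
    (h4 : ∀ M0 M : Finset X, M0 ⊆ M → ∀ K : Subgroup G,
      (∀ g, g ∈ K ↔ (∀ q ∈ M, g • q = q) ∧ ∀ q ∉ M0, C.c g q C.y0 = C.y0) → Fn K m) :
    Fn G m := by
  classical
  obtain ⟨X0, hX0⟩ := h3 (m+1)
  set S := Sub (Set.univ : Set C.V) (fun a => (hid a).card) (m+1) with hSdef
  have hS : ∀ (g : G), ∀ a ∈ S, g • a ∈ S := fun g a ha =>
    ⟨trivial, by simpa only [card_smul] using ha.2⟩
  have hR : ∀ (g : G) (a b : C.V), Rl a b → Rl (g • a) (g • b) := fun g a b h =>
    h.imp (Le.smul g) (Le.smul g)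
  have hext : ∀ l : List C.V, l ≠ [] → Sx Rl S l →
      (∃ a ∈ l, ∀ b ∈ l, Le a b) ∧ ∃ a ∈ l, ∀ b ∈ l, Le b a := by
    intro l hl hs
    have hne : l.toFinset.Nonempty := by simpa [List.toFinset_nonempty_iff] using hl
    obtain ⟨x, hx, hmin⟩ := l.toFinset.exists_min_image (fun a => (hid a).card) hne
    obtain ⟨y, hy, hmax⟩ := l.toFinset.exists_max_image (fun a => (hid a).card) hne
    rw [List.mem_toFinset] at hx hy
    exact ⟨⟨x, hx, fun b hb => ((hs x hx).2 b hb).le (hmin b (List.mem_toFinset.2 hb))⟩,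
      ⟨y, hy, fun b hb => ((hs b hb).2 y hy).le (hmax b (List.mem_toFinset.2 hb))⟩⟩
  have hnorm : ∀ l : List C.V, l ≠ [] → Sx Rl S l →
      ∃ g : G, ∀ a ∈ l, ∀ q, (g • a).1 q = some C.y0 ∨ (g • a).1 q = none := by
    intro l hl hs
    obtain ⟨a, -, ha⟩ := (hext l hl hs).1
    obtain ⟨g, hg⟩ := normalize h2 a
    refine ⟨g, fun b hb q => ?_⟩
    rcases (ha b hb).smul g q with h | h
    · rw [h]; exact hg q
    · exact Or.inr h
  refine brown Rl S hS hR hm (C.conn_sub _) (X0.powerset.image C.vtx) ?_ ?_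
  · intro l hl _
    by_cases hne : l = []
    · exact ⟨1, by simp [hne]⟩
    obtain ⟨g, hg⟩ := hnorm l hne hl
    obtain ⟨a, hal, ha⟩ := (hext l hne hl).2
    obtain ⟨b, hb1, hb2⟩ := hX0 (hid (g • a)) (hS g a (hl a hal).1).2
    refine ⟨b * g, fun x hx => Finset.mem_image.2 ⟨hid ((b * g) • x), ?_, ?_⟩⟩
    · refine Finset.mem_powerset.2 fun q hq => ?_
      rw [mem_hid, mul_smul, smul_val, Option.map_eq_none_iff, ← mem_hid] at hq
      simpa using hb2 _ (((ha x hx).smul g).hid hq)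
    · refine Subtype.ext (funext fun q => ?_)
      by_cases hq : q ∈ hid ((b * g) • x)
      · exact (if_pos hq).trans (mem_hid.1 hq).symm
      · refine (if_neg hq).trans ?_
        rw [mem_hid, mul_smul, smul_val] at hq
        rw [mul_smul, smul_val]
        rcases hg x hx (b⁻¹ • q) with h | h
        · rw [h]; simp [hb1]
        · rw [h] at hq; simp at hq
  · intro l0 hne0 hl0
    obtain ⟨g0, hg0⟩ := hnorm l0 hne0 hl0
    refine Fn.equiv (MulAction.stabilizerEquivStabilizer (g := g0) (b := g0 • l0) rfl).symm ?_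
    have hl := sx_smul hS hR g0 hl0
    have hne : g0 • l0 ≠ [] := by simpa [smul_list] using hne0
    have hg : ∀ a ∈ g0 • l0, ∀ q, a.1 q = some C.y0 ∨ a.1 q = none := by
      intro a ha
      obtain ⟨a, ha', rfl⟩ := List.mem_map.1 ha
      exact hg0 a ha'
    generalize g0 • l0 = l at hl hne hg
    obtain ⟨⟨a0, ha0l, ha0⟩, ⟨a1, ha1l, ha1⟩⟩ := hext l hne hl
    let _ : MulAction (MulAction.stabilizer G l) (hid a1) :=
      { smul := fun g q => ⟨g.1 • q.1, by
          have h1 := mem_stab_list.1 g.2 a1 ha1l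
          have := smul_val' g.1 a1 q.1
          rw [h1, mem_hid.1 q.2] at this
          exact mem_hid.2 this⟩
        one_smul := fun q => Subtype.ext (one_smul G q.1)
        mul_smul := fun g h q => Subtype.ext (mul_smul g.1 h.1 q.1) }
    let φ := MulAction.toPermHom (MulAction.stabilizer G l) (hid a1)
    refine Fn.of_finite_target φ (Fn.equiv (Subgroup.equivMapOfInjective φ.ker
      (MulAction.stabilizer G l).subtype Subtype.val_injective).symm
      (h4 (hid a0) (hid a1) (ha0 a1 ha1l).hid _ fun g => ?_))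
    constructor
    · rintro ⟨g, hgk, rfl⟩
      refine ⟨fun q hq => congrArg Subtype.val (Equiv.congr_fun (MonoidHom.mem_ker.1 hgk) ⟨q, hq⟩),
        fun q hq => ?_⟩
      have h1 := smul_val' g.1 a0 q
      rw [mem_stab_list.1 g.2 a0 ha0l, (hg a0 ha0l q).resolve_right (mt mem_hid.2 hq)] at h1
      rcases hg a0 ha0l (g.1 • q) with h | h <;> rw [h] at h1
      · exact (Option.some.inj h1).symm
      · simp at h1
    · rintro ⟨h5, h6⟩
      refine ⟨⟨g, mem_stab_list.2 fun a ha => Subtype.ext (funext fun q => ?_)⟩,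
        Equiv.ext fun q => Subtype.ext (h5 q.1 q.2), rfl⟩
      obtain ⟨q, rfl⟩ := MulAction.surjective g q
      show (g • a).1 (g • q) = a.1 (g • q)
      rw [smul_val']
      by_cases hq : q ∈ hid a1
      · rw [h5 q hq]
        rcases hg a ha q with h | h
        · rw [h, Option.map_some, h6 q fun h' => by
            have := mem_hid.1 ((ha0 a ha).hid h'); rw [h] at this; simp at this]
        · rw [h]; rfl
      · have hq' : g • q ∉ hid a1 := fun h => hq (by
          have h7 : g • q = q := MulAction.injective g (h5 _ h)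
          rwa [← h7])
        rw [(hg a ha q).resolve_right fun h => hq ((ha1 a ha).hid (mem_hid.2 h)),
          (hg a ha _).resolve_right fun h => hq' ((ha1 a ha).hid (mem_hid.2 h)), Option.map_some,
          h6 q fun h => hq ((ha0 a1 ha1l).hid h)]

end Coc

end Pool.Agent.Lib.Brown
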