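import Pool.Agent.Lib.Brown.Fn

/-! Ascending HNN extensions: finiteness properties of the group and of the kernel of the
diagonal character on a direct power (positive part). -/

set_option autoImplicit false

namespace Pool.Agent.Lib.Brown

open Function

/-- an ascending HNN structure on a group -/
structure Asc (Γ : Type) [Group Γ] where
  χ : Γ → ℤ
  t : Γ
  A : Subgroup Γ
  χ_mul : ∀ a b, χ (a * b) = χ a + χ b
  χ_t : χ t = 1
  χ_A : ∀ a ∈ A, χ a = 0
  conj : ∀ a ∈ A, t * a * t⁻¹ ∈ A
  exh : ∀ g, χ g = 0 → ∃ i : ℕ, t ^ i * g * (t ^ i)⁻¹ ∈ A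

namespace Asc

variable {Γ : Type} [Group Γ] (D : Asc Γ)

@[simp] theorem χ_one : D.χ 1 = 0 := D.χ_A 1 (one_mem _)

@[simp] theorem χ_inv (a : Γ) : D.χ a⁻¹ = - D.χ a := by
  have := D.χ_mul a a⁻¹
  simp at this; omega

@[simp] theorem χ_zpow (n : ℤ) : D.χ (D.t ^ n) = n := by
  induction n using Int.induction_on with
  | zero => simp
  | succ i ih => rw [zpow_add_one, D.χ_mul, ih, D.χ_t]
  | pred i ih => rw [zpow_sub_one, D.χ_mul, ih, D.χ_inv, D.χ_t]; ring

theorem conj_pow {a : Γ} (ha : a ∈ D.A) (i : ℕ) : D.t ^ i * a * (D.t ^ i)⁻¹ ∈ D.A := by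
  induction i with
  | zero => simpa using ha
  | succ i ih => convert D.conj _ ih using 1; rw [pow_succ']; group

theorem exh' {g : Γ} (hg : D.χ g = 0) :
    ∃ i : ℤ, ∀ j, i ≤ j → D.t ^ j * g * (D.t ^ j)⁻¹ ∈ D.A := by
  obtain ⟨i, hi⟩ := D.exh g hg
  refine ⟨i, fun j hj => ?_⟩
  obtain ⟨e, rfl⟩ := Int.le.dest hj
  convert D.conj_pow hi e using 1
  rw [add_comm, zpow_add, zpow_natCast, zpow_natCast]; group

/-- vertices of the Bass-Serre tree -/
abbrev T := Γ ⧸ D.A

/-- the parent map -/
def par : D.T → D.T := Quotient.map' (fun g => g * D.t⁻¹) (fun a b h => by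
  rw [QuotientGroup.leftRel_apply] at h ⊢
  convert D.conj _ h using 1; group)

/-- the depth -/
def dep : D.T → ℤ := Quotient.lift D.χ (fun a b h => by
  have := D.χ_A _ (QuotientGroup.leftRel_apply.1 h)
  rw [D.χ_mul, D.χ_inv] at this; omega)

theorem par_mk (g : Γ) : D.par (g : D.T) = ((g * D.t⁻¹ : Γ) : D.T) := rfl
theorem dep_mk (g : Γ) : D.dep (g : D.T) = D.χ g := rfl

theorem par_smul (g : Γ) (x : D.T) : D.par (g • x) = g • D.par x := by
  induction x using QuotientGroup.induction_on with
  | H a => simp [par_mk, mul_assoc]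

theorem dep_smul (g : Γ) (x : D.T) : D.dep (g • x) = D.χ g + D.dep x := by
  induction x using QuotientGroup.induction_on with
  | H a => simp [dep_mk, D.χ_mul]

theorem dep_par (x : D.T) : D.dep (D.par x) = D.dep x - 1 := by
  induction x using QuotientGroup.induction_on with
  | H a => simp [dep_mk, par_mk, D.χ_mul, D.χ_t, sub_eq_add_neg]

theorem par_surj : Surjective D.par := fun x => by
  induction x using QuotientGroup.induction_on with
  | H a => exact ⟨(a * D.t : Γ), by simp [par_mk]⟩

theorem par_iter (g : Γ) (e : ℕ) : D.par^[e] (g : D.T) = ((g * (D.t ^ e)⁻¹ : Γ) : D.T) := by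
  induction e with
  | zero => simp
  | succ e ih => rw [iterate_succ_apply', ih, par_mk, pow_succ']; congr 1; group

theorem dep_iter (x : D.T) (e : ℕ) : D.dep (D.par^[e] x) = D.dep x - e := by
  induction e with
  | zero => simp
  | succ e ih => rw [iterate_succ_apply', dep_par, ih]; push_cast; ring

theorem exists_anc (x : D.T) : ∃ j e : ℕ, D.par^[e] x = D.par^[j] ((1 : Γ) : D.T) := by
  induction x using QuotientGroup.induction_on with
  | H g =>
    obtain ⟨i, hi⟩ := D.exh' (g := g * D.t ^ (-D.χ g)) (by simp [D.χ_mul])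
    let j : ℕ := i.natAbs + (D.χ g).natAbs
    refine ⟨j, (j + D.χ g).toNat, ?_⟩
    rw [par_iter, par_iter, eq_comm, QuotientGroup.eq]
    convert hi j (by omega) using 1
    rw [← zpow_natCast D.t (Int.toNat _), Int.toNat_of_nonneg (by omega), zpow_add, zpow_natCast]
    group

variable {ι : Type} [Fintype ι]

def Up (x y : ι → D.T) : Prop := ∀ i, y i = x i ∨ y i = D.par (x i)

def Rl (x y : ι → D.T) : Prop := D.Up x y ∨ D.Up y x

instance : RS (D.Rl (ι := ι)) := ⟨fun _ => Or.inl fun _ => Or.inl rfl, fun _ _ h => h.symm⟩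

def β (x : ι → D.T) : ℤ := ∑ i, D.dep (x i)

variable {D}

theorem Up.le {x y : ι → D.T} (h : D.Up x y) : D.β y ≤ D.β x :=
  Finset.sum_le_sum fun i _ => by rcases h i with h | h <;> simp [h, dep_par]

theorem Up.ge {x y : ι → D.T} (h : D.Up x y) : D.β x - Fintype.card ι ≤ D.β y := by
  have : ∑ i, (D.dep (x i) - 1) ≤ D.β y :=
    Finset.sum_le_sum fun i _ => by rcases h i with h | h <;> simp [h, dep_par]
  simpa [Finset.sum_sub_distrib, β] using this

theorem Up.eq {x y : ι → D.T} (h : D.Up x y) (he : D.β x ≤ D.β y) : x = y := by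
  by_contra hne
  obtain ⟨i, hi⟩ := Function.ne_iff.1 hne
  have : D.β y < D.β x := Finset.sum_lt_sum (fun i _ => by
    rcases h i with h | h <;> simp [h, dep_par]) ⟨i, Finset.mem_univ _, by
      rw [(h i).resolve_left (Ne.symm hi), dep_par]; omega⟩
  omega

theorem Rl.eq {x y : ι → D.T} (h : D.Rl x y) (he : D.β x = D.β y) : x = y :=
  h.elim (fun h => h.eq he.le) (fun h => (h.eq he.ge).symm)

theorem Rl.up {x y : ι → D.T} (h : D.Rl x y) (he : D.β y ≤ D.β x) : D.Up x y :=
  h.elim id (fun h => by rw [h.eq he]; exact fun _ => Or.inl rfl)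

variable (D)

theorem conn_univ (N : ℕ) : Conn D.Rl (Set.univ : Set (ι → D.T)) N := by
  classical
  let b : ℕ → D.T := fun j => D.par^[j] ((1 : Γ) : D.T)
  let S : ℕ → Set (ι → D.T) := fun j => {x | ∀ i, ∃ e, D.par^[e] (x i) = b j}
  have hmono : ∀ j j', j ≤ j' → S j ⊆ S j' := by
    intro j j' h x hx i
    obtain ⟨d, rfl⟩ := Nat.exists_eq_add_of_le h
    obtain ⟨e, he⟩ := hx i
    exact ⟨d + e, by simp only [b]; rw [iterate_add_apply, he, add_comm j d, iterate_add_apply]⟩
  refine conn_directed S (fun i j => ⟨max i j, hmono _ _ (le_max_left _ _),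
    hmono _ _ (le_max_right _ _)⟩) (fun x _ => ?_) (fun _ => Set.subset_univ _) (fun j => ?_)
  · choose j e hje using fun i => D.exists_anc (x i)
    refine ⟨∑ i, j i, fun i => ?_⟩
    obtain ⟨d, hd⟩ := Nat.exists_eq_add_of_le
      (Finset.single_le_sum (fun i _ => Nat.zero_le (j i)) (Finset.mem_univ i))
    exact ⟨d + e i, by simp only [b]; rw [iterate_add_apply, hje, hd, add_comm (j i) d,
      iterate_add_apply]⟩
  have hb : (fun _ => b j) ∈ S j := fun _ => ⟨0, rfl⟩
  have hdep : ∀ (y : D.T) e, D.par^[e] y = b j → D.dep (b j) ≤ D.dep y ∧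
      (D.dep y ≤ D.dep (b j) → y = b j) := by
    intro y e he
    have := D.dep_iter y e
    rw [he] at this
    refine ⟨by omega, fun h => ?_⟩
    obtain rfl : e = 0 := by omega
    exact he
  have hβ : ∀ x ∈ S j, D.β (fun _ : ι => b j) ≤ D.β x := fun x hx =>
    Finset.sum_le_sum fun i _ => by obtain ⟨e, he⟩ := hx i; exact (hdep _ e he).1
  have hβ' : ∀ x ∈ S j, D.β x ≤ D.β (fun _ : ι => b j) → x = fun _ => b j := by
    intro x hx hle
    ext1 i
    obtain ⟨e, he⟩ := hx i
    refine (hdep _ e he).2 ?_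
    by_contra hlt
    have : D.β (fun _ : ι => b j) < D.β x := Finset.sum_lt_sum
      (fun i _ => by obtain ⟨e, he⟩ := hx i; exact (hdep _ e he).1) ⟨i, Finset.mem_univ _, not_le.1 hlt⟩
    omega
  refine Conn.up (fun x => (D.β x - D.β (fun _ : ι => b j)).toNat) 0 ?_ ?_ ?_
  · intro x hx y hy hxy he _
    have := hβ x hx; have := hβ y hy
    exact hxy.eq (by omega)
  · intro x hx hpos r _
    let E : ι → D.T := fun i => if x i = b j then x i else D.par (x i)
    have hxE : D.Up x E := fun i => by by_cases h : x i = b j <;> simp [E, h]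
    have hES : E ∈ S j := fun i => by
      by_cases h : x i = b j
      · exact ⟨0, by simp [E, h]⟩
      · obtain ⟨e, he⟩ := hx i
        cases e with
        | zero => exact absurd he h
        | succ e => exact ⟨e, by simpa [E, h] using he⟩
    have hne : x ≠ E := by
      intro h
      have : x = fun _ => b j := by
        ext1 i
        by_contra hi
        have := congrArg D.dep (congrFun h i)
        simp only [E, hi, if_false, dep_par] at this
        omega
      rw [this] at hpos; simp at hpos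
    refine (conn_cone (S := DLk D.Rl (S j) _ x) (v := E) ⟨hES, ?_, Or.inl hxE⟩ ?_ r).1 r le_rfl
    · have h1 := hxE.le
      have h2 : ¬ D.β x ≤ D.β E := fun h => hne (hxE.eq h)
      have := hβ E hES
      omega
    · rintro y ⟨hy, hlt, hxy⟩
      have hup : D.Up x y := hxy.up (by simp only at hlt; omega)
      refine Or.inr fun i => ?_
      by_cases h : x i = b j
      · left
        rcases hup i with h1 | h1
        · simp [E, h, h1]
        · obtain ⟨e, he⟩ := hy i
          have := (hdep _ e he).1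
          rw [h1, dep_par, h] at this; omega
      · rcases hup i with h1 | h1 <;> simp [E, h, h1]
  · refine conn_cone (S := Sub (S j) _ 0) (v := fun _ => b j) ⟨hb, by simp⟩ ?_ N
    rintro y ⟨hy, h0⟩
    rw [hβ' y hy (by simp only at h0; omega)]
    exact RS.refl _

theorem β_smul (g : ι → Γ) (x : ι → D.T) : D.β (g • x) = ∑ i, D.χ (g i) + D.β x := by
  simp [β, dep_smul, Finset.sum_add_distrib]

theorem fn_core [Nonempty ι] {m : ℕ} (hm : 1 ≤ m) (hA : Fn D.A m) (K : Subgroup (ι → Γ))
    (hK : ∀ g, ∑ i, D.χ (g i) = 0 → g ∈ K) (S : Set (ι → D.T))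
    (hS : ∀ g : K, ∀ x ∈ S, g • x ∈ S) (hc : Conn D.Rl S (m+1)) (J : Finset ℤ)
    (hJ : ∀ x ∈ S, ∃ g : K, D.β (g • x) ∈ J) : Fn K m := by
  classical
  obtain ⟨i0⟩ := ‹Nonempty ι›
  have hup : ∀ (g : ι → Γ) x y, D.Up x y → D.Up (g • x) (g • y) := fun g x y h i => by
    show g i • y i = g i • x i ∨ g i • y i = D.par (g i • x i)
    rcases h i with h | h <;> simp [h, par_smul]
  have hdeep : ∀ l : List (ι → D.T), l ≠ [] → Sx D.Rl S l → ∃ x ∈ l, ∀ y ∈ l, D.Up x y := by
    intro l hl hs
    obtain ⟨x, hx, hmax⟩ := l.toFinset.exists_max_image D.β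
      (by simpa [List.toFinset_nonempty_iff] using hl)
    rw [List.mem_toFinset] at hx
    exact ⟨x, hx, fun y hy => ((hs x hx).2 y hy).up (hmax y (List.mem_toFinset.2 hy))⟩
  let x0 : ℤ → ι → D.T := fun j i => if i = i0 then ((D.t ^ j : Γ) : D.T) else ((1 : Γ) : D.T)
  refine brown D.Rl S hS (fun g x y h => h.imp (hup g x y) (hup g y x)) hm hc
    ((J ×ˢ (Finset.univ : Finset (Finset ι))).image
      fun p i => if i ∈ p.2 then D.par (x0 p.1 i) else x0 p.1 i) ?_ ?_
  · intro l hl _
    by_cases hne : l = []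
    · exact ⟨1, by simp [hne]⟩
    obtain ⟨x, hx, hxy⟩ := hdeep l hne hl
    obtain ⟨g, hg⟩ := hJ x (hl x hx).1
    let g' : ι → Γ := fun i => (if i = i0 then D.t ^ D.β (g • x) else 1) * ((g • x) i).out⁻¹
    have hg' : g' • g • x = x0 (D.β (g • x)) := by
      ext1 i
      have : g' i • (g • x) i = x0 (D.β (g • x)) i := by
        have h0 : ∀ (c : Γ) (z : D.T), (c * z.out⁻¹) • z = (c : D.T) := fun c z => by
          conv_lhs => congr; rfl; rw [← QuotientGroup.out_eq' z]
          rw [MulAction.Quotient.smul_mk]; simp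
        by_cases h : i = i0 <;> simp only [g', x0, h, h0, if_true, if_false]
      exact this
    have hβ0 : ∀ j, D.β (x0 j) = j := fun j => by
      simp [β, x0, apply_ite D.dep, dep_mk]
    have hK' : g' ∈ K := hK _ (by
      have := D.β_smul g' (g • x)
      rw [hg', hβ0] at this; omega)
    refine ⟨⟨g', hK'⟩ * g, fun y hy => Finset.mem_image.2
      ⟨(D.β (g • x), Finset.univ.filter fun i => y i ≠ x i), by simpa using hg, ?_⟩⟩
    have h1 : ∀ z : ι → D.T, ((⟨g', hK'⟩ * g : K) • z) = (g' * g.1) • z := fun z => rfl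
    have h2 : (g' * g.1) • x = x0 (D.β (g • x)) := by rw [mul_smul]; exact hg'
    rw [h1, ← h2]
    ext1 i
    by_cases h : y i = x i
    · simp [h]
    · have h3 : i ∈ Finset.univ.filter fun i => y i ≠ x i := by simpa using h
      rw [if_pos h3, Pi.smul_apply', Pi.smul_apply', par_smul, (hxy y hy i).resolve_left h]
  · intro l hne hl
    obtain ⟨x, hx, hxy⟩ := hdeep l hne hl
    have hmem : ∀ g : K, g ∈ MulAction.stabilizer K l ↔
        ∀ i, (x i).out⁻¹ * g.1 i * (x i).out ∈ D.A := by
      intro g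
      have h1 : ∀ i, (x i).out⁻¹ * g.1 i * (x i).out ∈ D.A ↔ g.1 i • x i = x i := by
        intro i
        conv_rhs => rw [← QuotientGroup.out_eq' (x i)]
        rw [MulAction.Quotient.smul_mk, eq_comm, QuotientGroup.eq, smul_eq_mul, mul_assoc]
      simp only [h1, mem_stab_list]
      constructor
      · intro h i; exact congrFun (h x hx) i
      · intro h y hy
        ext1 i
        show g.1 i • y i = y i
        rcases hxy y hy i with h2 | h2 <;> rw [h2]
        · exact h i
        · rw [← par_smul, h i]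
    let φ : MulAction.stabilizer K l →* (ι → D.A) := MonoidHom.mk'
      (fun g i => ⟨_, (hmem g.1).1 g.2 i⟩) (fun a b => by ext i; simp [mul_assoc])
    refine (hA.pi ι).equiv (MulEquiv.ofBijective φ ⟨fun a b h => ?_, fun a => ?_⟩).symm
    · ext i
      have := congrArg Subtype.val (congrFun h i)
      simpa [φ] using this
    · refine ⟨⟨⟨fun i => (x i).out * a i * (x i).out⁻¹, hK _ ?_⟩, (hmem _).2 fun i => ?_⟩, ?_⟩
      · simp [D.χ_mul, D.χ_A _ (a _).2]
      · simp [mul_assoc]
      · ext i; simp [φ, mul_assoc]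

/-- an ascending HNN extension inherits finiteness properties from its base -/
theorem fn_self {m : ℕ} (hm : 1 ≤ m) (hA : Fn D.A m) : Fn Γ m := by
  have := D.fn_core (ι := Unit) hm hA ⊤ (fun _ _ => trivial) Set.univ (fun _ _ _ => trivial)
    (D.conn_univ _) {0} (fun x _ => ⟨⟨fun _ => D.t ^ (-D.β x), trivial⟩, by
      have := D.β_smul (fun _ => D.t ^ (-D.β x)) x
      simp only [Finset.mem_singleton]
      exact this.trans (by simp)⟩)
  exact (this.equiv Subgroup.topEquiv).equiv (MulEquiv.funUnique Unit Γ)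

/-- the kernel of the diagonal character on a direct power -/
def Hk (ι : Type) [Fintype ι] : Subgroup (ι → Γ) where
  carrier := {g | ∑ i, D.χ (g i) = 0}
  one_mem' := by simp
  mul_mem' {a b} ha hb := by
    simp only [Set.mem_ofPred_eq, Pi.mul_apply, D.χ_mul, Finset.sum_add_distrib] at *
    omega
  inv_mem' {a} ha := by
    simp only [Set.mem_ofPred_eq, Pi.inv_apply, D.χ_inv, Finset.sum_neg_distrib] at *
    omega

theorem fn_Hk {m : ℕ} (hm : 1 ≤ m) (hA : Fn D.A m) (hι : Fintype.card ι = m + 2) :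
    Fn (D.Hk ι) m := by
  classical
  have : Nonempty ι := Fintype.card_pos_iff.1 (by omega)
  have h1 : Conn D.Rl (Sub (Set.univ : Set (ι → D.T)) (fun x => (-D.β x).toNat) 0) (m+1) := by
    refine Conn.down _ 0 (fun x _ y _ hxy he hpos => hxy.eq (by omega)) ?_ (D.conn_univ _)
    intro x _ hpos
    choose ch hch using fun i => D.par_surj (x i)
    have hinj : Injective fun i => (i, ch i) := fun i j h => congrArg Prod.fst h
    have hc := grounded (fun a b : ι × D.T => a.1 ≠ b.1) (fun a b h => h.symm) 1 (m+1)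
      {a | D.par a.2 = x a.1} (Finset.univ.image fun i => (i, ch i))
      ⟨by simp, by simpa using hch, by
        simp only [Finset.mem_image, Finset.mem_univ, true_and]
        rintro _ ⟨i, rfl⟩ _ ⟨j, rfl⟩ h1 h2
        exact h1 (by simp only at h2; rw [h2])⟩
      (by rw [Finset.card_image_of_injective _ hinj]; simp [hι]) (fun w _ => by
        refine (Finset.card_le_card (t := {(w.1, ch w.1)}) fun s hs => ?_).trans (by simp)
        simp only [Finset.mem_filter, Finset.mem_image, Finset.mem_univ, true_and] at hs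
        obtain ⟨⟨i, rfl⟩, -, h⟩ := hs
        simp only [ne_eq, not_not] at h
        simp [h])
    have hlk : ∀ y ∈ DLk D.Rl Set.univ (fun x => (-D.β x).toNat) x, D.Up y x ∧ y ≠ x := by
      rintro y ⟨-, hlt, hxy⟩
      refine ⟨(RS.symm _ _ hxy).up (by simp only at hlt; omega), fun h => ?_⟩
      rw [h] at hlt; exact lt_irrefl _ hlt
    let g : Finset (ι × D.T) → ι → D.T := fun J i =>
      if h : ∃ c, (i, c) ∈ J then h.choose else x i
    have hg : ∀ J ∈ Clq (fun a b : ι × D.T => a.1 ≠ b.1) {a | D.par a.2 = x a.1}, ∀ i c,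
        (i, c) ∈ J → g J i = c := by
      intro J hJ i c hc
      have h : ∃ c, (i, c) ∈ J := ⟨c, hc⟩
      simp only [g, h, dif_pos]
      by_contra hne
      exact hJ.2.2 _ h.choose_spec _ hc (fun h => hne (congrArg Prod.snd h)) rfl
    have hg' : ∀ J i, (¬ ∃ c, (i, c) ∈ J) → g J i = x i := fun J i h => by simp only [g, h, dif_neg,
      not_false_eq_true]
    have hgup : ∀ J ∈ Clq (fun a b : ι × D.T => a.1 ≠ b.1) {a | D.par a.2 = x a.1},
        ∀ J' ∈ Clq (fun a b : ι × D.T => a.1 ≠ b.1) {a | D.par a.2 = x a.1},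
        J ⊆ J' → D.Up (g J') (g J) := by
      intro J hJ J' hJ' h i
      by_cases h1 : ∃ c, (i, c) ∈ J
      · obtain ⟨c, hc⟩ := h1
        rw [hg J hJ i c hc, hg J' hJ' i c (h hc)]; exact Or.inl rfl
      · rw [hg' J i h1]
        by_cases h2 : ∃ c, (i, c) ∈ J'
        · obtain ⟨c, hc⟩ := h2
          rw [hg J' hJ' i c hc]; exact Or.inr (hJ'.2.1 _ hc).symm
        · rw [hg' J' i h2]; exact Or.inl rfl
    have hfup : ∀ y y', D.Up y x → D.Up y' x → D.Up y y' →
        (Finset.univ.filter fun i => y' i ≠ x i).image (fun i => (i, y' i)) ⊆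
        (Finset.univ.filter fun i => y i ≠ x i).image (fun i => (i, y i)) := by
      intro y y' hy hy' hyy s hs
      simp only [Finset.mem_image, Finset.mem_filter, Finset.mem_univ, true_and] at hs ⊢
      obtain ⟨i, hi, rfl⟩ := hs
      have h3 := (hy' i).resolve_left (Ne.symm hi)
      rcases hyy i with h4 | h4
      · exact ⟨i, h4 ▸ hi, by rw [h4]⟩
      · rcases hy i with h5 | h5
        · have := congrArg D.dep h3
          rw [h4, ← h5, dep_par, dep_par] at this; omega
        · exact absurd (h4.trans h5.symm) hi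
    refine hc.retract (fun y => (Finset.univ.filter fun i => y i ≠ x i).image fun i => (i, y i))
      g ?_ ?_ ?_ ?_ ?_
    · intro y hy
      obtain ⟨h1, h2⟩ := hlk y hy
      obtain ⟨i, hi⟩ := Function.ne_iff.1 h2
      refine ⟨⟨(i, y i), by simp [hi]⟩, ?_, ?_⟩
      · simp only [Finset.mem_image, Finset.mem_filter, Finset.mem_univ, true_and]
        rintro _ ⟨i, hi, rfl⟩
        exact ((h1 i).resolve_left (Ne.symm hi)).symm
      · simp only [Finset.mem_image, Finset.mem_filter, Finset.mem_univ, true_and]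
        rintro _ ⟨i, -, rfl⟩ _ ⟨j, -, rfl⟩ h1 h2
        exact h1 (by simp only at h2; rw [h2])
    · intro J hJ
      have hup : D.Up (g J) x := fun i => by
        by_cases h2 : ∃ c, (i, c) ∈ J
        · obtain ⟨c, hc⟩ := h2
          rw [hg J hJ i c hc]; exact Or.inr (hJ.2.1 _ hc).symm
        · rw [hg' J i h2]; exact Or.inl rfl
      refine ⟨trivial, ?_, Or.inr hup⟩
      have h3 : ¬ D.β (g J) ≤ D.β x := fun h => by
        obtain ⟨⟨i, c⟩, hc⟩ := hJ.1
        have h4 := hg J hJ i c hc
        have h5 : D.par c = x i := hJ.2.1 _ hc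
        rw [hup.eq h, ← h5] at h4
        have := congrArg D.dep h4
        rw [dep_par] at this; omega
      simp only; omega
    · intro y hy y' hy' hyy
      exact (hyy.imp (hfup y y' (hlk y hy).1 (hlk y' hy').1)
        (hfup y' y (hlk y' hy').1 (hlk y hy).1)).symm
    · intro J hJ J' hJ' h
      exact (h.imp (hgup J hJ J' hJ') (hgup J' hJ' J hJ)).symm
    · intro y hy
      ext1 i
      by_cases h : y i = x i
      · rw [hg' _ i (by simp [h]), h]
      · have h' : ∃ c, (i, c) ∈ (Finset.univ.filter fun i => y i ≠ x i).image fun i => (i, y i) :=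
          ⟨y i, by simp [h]⟩
        have h3 : g _ i = h'.choose := dif_pos h'
        obtain ⟨j, -, h2⟩ := Finset.mem_image.1 h'.choose_spec
        obtain ⟨rfl, h2⟩ := Prod.mk.inj h2
        exact h3.trans h2.symm
  have h2 := Conn.down (fun x => (D.β x).toNat) (Fintype.card ι)
    (fun x _ y _ hxy he hpos => hxy.eq (by omega)) (fun x hx hpos => by
      have hup : D.Up x (fun i => D.par (x i)) := fun _ => Or.inr rfl
      have hβ : D.β (fun i => D.par (x i)) = D.β x - Fintype.card ι := by
        simp [β, dep_par, Finset.sum_sub_distrib]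
      refine conn_cone (S := DLk D.Rl (Sub Set.univ (fun x => (-D.β x).toNat) 0)
        (fun x => (D.β x).toNat) x) (v := fun i => D.par (x i))
        ⟨⟨trivial, by simp only; omega⟩, by simp only; omega, Or.inl hup⟩ ?_ _
      rintro y ⟨-, hlt, hxy⟩
      have := hxy.up (by simp only at hlt; omega)
      exact Or.inr fun i => by rcases this i with h | h <;> simp [h]) h1
  refine D.fn_core hm hA (D.Hk ι) (fun g hg => hg) _ ?_ h2 (Finset.Icc 0 (Fintype.card ι)) ?_
  · rintro g x ⟨⟨-, h3⟩, h4⟩
    have : D.β (g • x) = D.β x := by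
      have := D.β_smul g.1 x
      rw [show ∑ i, D.χ (g.1 i) = 0 from g.2, zero_add] at this
      exact this
    exact ⟨⟨trivial, by simpa only [this] using h3⟩, by simpa only [this] using h4⟩
  · rintro x ⟨⟨-, h3⟩, h4⟩
    refine ⟨1, ?_⟩
    simp only [one_smul, Finset.mem_Icc] at h3 h4 ⊢
    omega

end Asc

end Pool.Agent.Lib.Brown
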