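import Pool.Agent.Lib.Brown.HNN

/-! A group that coarsely retracts onto the kernel of the diagonal character on the `k`-th power
of a properly ascending HNN extension is not of type FP_k. -/

set_option autoImplicit false

namespace Pool.Agent.Lib.Brown

open Function

section cup
variable {X Y : Type}

/-- cup product of the coboundaries of a list of functions -/
def cupL : List (X → ℤ) → List X → ℤ
  | [], [_] => 1
  | U :: Us, a :: b :: l => (U b - U a) * cupL Us (b :: l)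
  | _, _ => 0

noncomputable def cup (Us : List (X → ℤ)) : Ch X →ₗ[ℤ] ℤ := lift (cupL Us)

theorem cup_sg (Us : List (X → ℤ)) (l : List X) : cup Us (sg l) = cupL Us l := lift_sg _ _

theorem cupL_nil (Us : List (X → ℤ)) : cupL Us [] = 0 := by cases Us <;> rfl

theorem cup_cons_cons (U : X → ℤ) (Us : List (X → ℤ)) (a b : X) (c : Ch X) :
    cup (U :: Us) (cons a (cons b c)) = (U b - U a) * cup Us (cons b c) :=
  ch_ext' (cup (U :: Us) ∘ₗ cons a ∘ₗ cons b) ((U b - U a) • (cup Us ∘ₗ cons b))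
    (fun l => by simp [cup_sg, cupL]) c

theorem cup_bd : ∀ (Us : List (X → ℤ)) (a : X) (c : Ch X), cup Us c = cup Us (cons a (bd c))
  | [], a, c => by
      refine ch_ext' (cup []) (cup [] ∘ₗ cons a ∘ₗ bd) (fun l => ?_) c
      have h0 : ∀ (a b : X) (c : Ch X), cup [] (cons a (cons b c)) = 0 := fun a b c =>
        ch_ext' (cup [] ∘ₗ cons a ∘ₗ cons b) 0 (fun l => by simp [cup_sg, cupL]) c
      match l with
      | [] => simp [cup_sg, cupL]
      | [b] => simp [bd_sg_cons, cup_sg, cupL]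
      | b :: b' :: l =>
        simp only [LinearMap.comp_apply]
        rw [bd_sg_cons, map_sub, map_sub, h0]
        simp [cup_sg, cupL]
  | U :: Us, a, c => by
      refine ch_ext' (cup (U :: Us)) (cup (U :: Us) ∘ₗ cons a ∘ₗ bd) (fun l => ?_) c
      match l with
      | [] => simp [cup_sg, cupL]
      | [b] => simp [bd_sg_cons, cup_sg, cupL]
      | b :: b' :: l =>
        simp only [LinearMap.comp_apply]
        rw [bd_sg_cons, map_sub, map_sub, cup_cons_cons, ← cup_bd Us b]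
        simp only [cons_sg, cup_sg, cupL]
        ring

theorem cupL_map (θ : X → Y) : ∀ (Us : List (Y → ℤ)) (l : List X),
    cupL Us (l.map θ) = cupL (Us.map (· ∘ θ)) l
  | [], [] => rfl
  | [], [_] => rfl
  | [], _ :: _ :: _ => rfl
  | _ :: _, [] => rfl
  | _ :: _, [_] => rfl
  | U :: Us, a :: b :: l => by
      have := cupL_map θ Us (b :: l)
      simp only [List.map_cons, cupL] at this ⊢
      rw [this]; rfl

theorem cup_push (θ : X → Y) (Us : List (Y → ℤ)) (c : Ch X) :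
    cup Us (push θ c) = cup (Us.map (· ∘ θ)) c :=
  ch_ext' (cup Us ∘ₗ push θ) _ (fun l => by simp [cup_sg, cupL_map]) c

theorem cupL_ne : ∀ (Us : List (X → ℤ)) (l : List X), cupL Us l ≠ 0 →
    ∀ U ∈ Us, ∃ a ∈ l, ∃ b ∈ l, U a ≠ U b
  | [], _, _ => by simp
  | _ :: _, [], h => absurd rfl h
  | _ :: _, [_], h => absurd rfl h
  | U :: Us, a :: b :: l, h => by
      simp only [cupL, ne_eq, mul_eq_zero, not_or] at h
      intro U' hU'
      rcases List.mem_cons.1 hU' with rfl | hU'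
      · exact ⟨a, by simp, b, by simp, fun e => h.1 (by simp [e])⟩
      · obtain ⟨x, hx, y, hy, hxy⟩ := cupL_ne Us (b :: l) h.2 U' hU'
        exact ⟨x, List.mem_cons_of_mem _ hx, y, List.mem_cons_of_mem _ hy, hxy⟩

theorem cupL_congr : ∀ (Us : List (X → ℤ)) (τ : X → X) (l : List X),
    (∀ U ∈ Us, ∀ z, U (τ z) = U z) → cupL Us (l.map τ) = cupL Us l := by
  intro Us τ l h
  rw [cupL_map]
  congr 1
  conv_rhs => rw [← List.map_id Us]
  exact List.map_congr_left fun U hU => funext (h U hU)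

theorem cup_prism (U : X → ℤ) (Us : List (X → ℤ)) (τ : X → X) (α β : ℤ)
    (hτ : ∀ U' ∈ Us, ∀ z, U' (τ z) = U' z) {c : Ch X}
    (hc : c ∈ Sup fun l => ∀ z ∈ l, U z = α ∧ U (τ z) = β) :
    cup (U :: Us) (prism id τ c) = (β - α) * cup Us c := by
  refine map_eq (cup (U :: Us) ∘ₗ prism id τ) ((β - α) • cup Us) (fun l hl => ?_) hc
  simp only [LinearMap.comp_apply, LinearMap.smul_apply, smul_eq_mul]
  match l with
  | [] => simp [cup_sg, cupL_nil]
  | a :: l =>
    rw [← cons_sg, prism_cons, map_sub]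
    have h1 : cup (U :: Us) (cons (id a) (prism id τ (sg l))) = 0 := by
      match l with
      | [] => simp
      | b :: l =>
        rw [← cons_sg, prism_cons, ← map_sub, cup_cons_cons]
        simp [(hl a (by simp)).1, (hl b (by simp)).1]
    rw [h1, cons_sg, push_sg, cons_sg, cup_sg, cup_sg, List.map_cons, cupL,
      ← List.map_cons, cupL_congr Us τ _ hτ]
    simp [(hl a (by simp)).1, (hl a (by simp)).2]

theorem push_prism (h τ : X → X) (hc : ∀ z, h (τ z) = τ (h z)) (c : Ch X) :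
    push h (prism id τ c) = prism id τ (push h c) := by
  refine ch_ext' (push h ∘ₗ prism id τ) (prism id τ ∘ₗ push h) (fun l => ?_) c
  simp only [LinearMap.comp_apply]
  induction l with
  | nil => simp
  | cons a l ih =>
    have e : ∀ c : Ch X, push h (push τ c) = push τ (push h c) := fun c => by
      rw [push_push, push_push, show h ∘ τ = τ ∘ h from funext hc]
    rw [← cons_sg, prism_cons, map_sub, push_cons h (id a), push_cons h (id a), ih, e,
      push_cons h a, prism_cons]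
    rfl

end cup

section cube
variable {ι : Type} [Fintype ι] [DecidableEq ι]

def tr (i : ι) (y : ι → ℤ) : ι → ℤ := y + Pi.single i 1

/-- triangulated cubes -/
noncomputable def Qc : List ι → Ch (ι → ℤ) →ₗ[ℤ] Ch (ι → ℤ)
  | [] => LinearMap.id
  | i :: Is => prism id (tr i) ∘ₗ Qc Is

omit [Fintype ι] in
theorem push_Qc (j : ι) : ∀ (Is : List ι) (c : Ch (ι → ℤ)),
    push (tr j) (Qc Is c) = Qc Is (push (tr j) c)
  | [], _ => rfl
  | i :: Is, c => by
      simp only [Qc, LinearMap.comp_apply]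
      rw [push_prism _ _ (fun z => by simp only [tr]; abel), push_Qc j Is]

def Box (y : ι → ℤ) (r : ℕ) (z : ι → ℤ) : Prop := ∀ j, y j ≤ z j ∧ z j ≤ y j + r

omit [Fintype ι] in
theorem prism_box (i : ι) {y : ι → ℤ} {r : ℕ} {l : List (ι → ℤ)} (h : ∀ z ∈ l, Box y r z) :
    prism id (tr i) (sg l) ∈ Sup fun l' => l'.length = l.length + 1 ∧
      (∀ z ∈ l', Box y (r+1) z) ∧ ∀ z ∈ l', ∀ j ≠ i, ∃ z' ∈ l, z j = z' j := by
  refine Sup_mono ?_ (prism_sg_mem id (tr i) l)
  rintro l' ⟨h1, h2⟩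
  refine ⟨h1, fun z hz j => ?_, fun z hz j hj => ?_⟩
  · obtain ⟨a, ha, e | e⟩ := h2 z hz
    · have := h a ha j
      simp only [e, id]; push_cast; omega
    · have := h a ha j
      simp only [e, tr, Pi.add_apply, Pi.single_apply]; push_cast
      split_ifs <;> omega
  · obtain ⟨a, ha, e | e⟩ := h2 z hz
    · exact ⟨a, ha, by rw [e]; rfl⟩
    · exact ⟨a, ha, by simp [e, tr, hj]⟩

omit [Fintype ι] in
theorem Qc_mem (y : ι → ℤ) : ∀ Is : List ι, Qc Is (sg [y]) ∈ Sup fun l =>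
    l.length = Is.length + 1 ∧ (∀ z ∈ l, Box y Is.length z) ∧ ∀ z ∈ l, ∀ j ∉ Is, z j = y j
  | [] => sg_mem ⟨rfl, by simp [Box], by simp⟩
  | i :: Is => by
      refine map_mem _ _ (fun l hl => Sup_mono ?_ (prism_box i hl.2.1)) (Qc_mem y Is)
      rintro l' ⟨h1, h2, h3⟩
      refine ⟨by simp [h1, hl.1], h2, fun z hz j hj => ?_⟩
      simp only [List.mem_cons, not_or] at hj
      obtain ⟨z', hz', h⟩ := h3 z hz j hj.1
      rw [h, hl.2.2 z' hz' j hj.2]

omit [Fintype ι] in
theorem bd_Qc (Bd : Set (ι → ℤ)) {ρ : Ch (ι → ℤ)} (hρ : ρ ∈ Sup fun l => l.length = 1)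
    (hB : ∀ j, push (tr j) ρ - ρ ∈ Sup fun l => ∃ y ∈ Bd, l = [y]) :
    ∀ Is : List ι, bd (Qc Is ρ) ∈ Sup fun l => l.length = Is.length ∧
      (l = [] ∨ ∃ y ∈ Bd, ∀ z ∈ l, Box y Is.length z)
  | [] => bd_mem (fun l l' h1 h2 _ => by
      obtain rfl : l' = [] := List.length_eq_zero_iff.1 (by omega)
      simp) hρ
  | i :: Is => by
      simp only [Qc, LinearMap.comp_apply]
      rw [bd_prism, push_Qc]
      have : push id (Qc Is ρ) = Qc Is ρ := ch_ext' (push id) LinearMap.id (fun l => by simp) _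
      rw [this, ← map_sub]
      refine sub_mem (map_mem _ _ ?_ (hB i)) (map_mem _ _ ?_ (bd_Qc Bd hρ hB Is))
      · rintro _ ⟨y, hy, rfl⟩
        refine Sup_mono ?_ (Qc_mem y Is)
        rintro l ⟨h1, h2, -⟩
        exact ⟨h1, Or.inr ⟨y, hy, fun z hz j => by
          have := h2 z hz j
          simp only [List.length_cons]; push_cast; omega⟩⟩
      · rintro l ⟨h1, rfl | ⟨y, hy, h2⟩⟩
        · simp
        · refine Sup_mono ?_ (prism_box i h2)
          rintro l' ⟨h3, h4, -⟩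
          exact ⟨by simp [h3, h1], Or.inr ⟨y, hy, h4⟩⟩

def u0 (n : ℤ) : ℤ := if 1 ≤ n then 1 else 0

theorem cup_Qc (y : ι → ℤ) : ∀ Is : List ι, Is.Nodup →
    cup (Is.map fun i z => u0 (z i)) (Qc Is (sg [y])) = if ∀ i ∈ Is, y i = 0 then 1 else 0
  | [], _ => by simp [Qc, cup_sg, cupL]
  | i :: Is, h => by
      rw [List.nodup_cons] at h
      simp only [Qc, LinearMap.comp_apply, List.map_cons]
      rw [cup_prism _ _ _ (u0 (y i)) (u0 (y i + 1)) ?_ (Sup_mono ?_ (Qc_mem y Is)),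
        cup_Qc y Is h.2]
      · by_cases h0 : y i = 0
        · simp [h0, u0]
        · have : u0 (y i + 1) = u0 (y i) := by simp only [u0]; split_ifs <;> omega
          simp [h0, this]
      · intro U' hU' z
        obtain ⟨j, hj, rfl⟩ := List.mem_map.1 hU'
        have : j ≠ i := fun e => h.1 (e ▸ hj)
        simp [tr, this]
      · rintro l ⟨-, -, h3⟩ z hz
        simp [tr, h3 z hz i h.1]

def nm (y : ι → ℤ) : ℤ := ∑ i, |y i|

omit [DecidableEq ι] in
theorem nm_box {y z : ι → ℤ} {r : ℕ} (h : Box y r z) :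
    |nm z - nm y| ≤ Fintype.card ι * r := by
  rw [nm, nm, ← Finset.sum_sub_distrib]
  refine (Finset.abs_sum_le_sum_abs _ _).trans ?_
  refine (Finset.sum_le_card_nsmul _ _ (r : ℤ) fun j _ => ?_).trans (by simp)
  refine (abs_abs_sub_abs_le_abs_sub _ _).trans ?_
  have := h j
  rw [abs_le]; omega

theorem exists_cycle (R : ℕ) : ∃ c : Ch (ι → ℤ),
    cup ((Finset.univ : Finset ι).toList.map fun i z => u0 (z i)) c = 1 ∧
    bd c ∈ Sup fun l => l.length = Fintype.card ι ∧
      (l = [] ∨ ∃ y, |nm y - R| ≤ Fintype.card ι ∧ ∀ z ∈ l, Box y (Fintype.card ι) z) := by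
  let Reg : Finset (ι → ℤ) := (Fintype.piFinset fun _ => Finset.Icc (-(R : ℤ)) R).filter
    fun y => nm y ≤ R
  have hReg : ∀ y, y ∈ Reg ↔ nm y ≤ R := fun y => by
    simp only [Reg, Finset.mem_filter, Fintype.mem_piFinset, Finset.mem_Icc, and_iff_right_iff_imp]
    intro h i
    exact abs_le.1 ((Finset.single_le_sum (f := fun i => |y i|) (fun i _ => abs_nonneg _)
      (Finset.mem_univ i)).trans h)
  refine ⟨Qc Finset.univ.toList (∑ y ∈ Reg, sg [y]), ?_, ?_⟩
  · simp only [map_sum, cup_Qc _ _ (Finset.nodup_toList _)]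
    rw [Finset.sum_eq_single 0]
    · simp
    · intro y _ hy
      rw [if_neg]
      intro h
      exact hy (funext fun i => h i (by simp))
    · intro h
      exact absurd ((hReg 0).2 (by simp [nm])) h
  · have := bd_Qc {y | |nm y - R| ≤ Fintype.card ι} (ρ := ∑ y ∈ Reg, sg [y])
      (Submodule.sum_mem _ fun y _ => sg_mem rfl) (fun j => ?_) Finset.univ.toList
    · simpa using this
    have hinj : Injective (tr j : (ι → ℤ) → _) := add_left_injective _
    have htr : ∀ y : ι → ℤ, |nm (tr j y) - nm y| ≤ Fintype.card ι := fun y => by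
      simpa using nm_box (y := y) (z := tr j y) (r := 1) fun i => by
        simp only [tr, Pi.add_apply, Pi.single_apply]; split_ifs <;> omega
    have h1 : push (tr j) (∑ y ∈ Reg, sg [y]) = ∑ y ∈ Reg.image (tr j), sg [y] := by
      rw [Finset.sum_image fun a _ b _ h => hinj h]; simp
    rw [h1, ← Finset.sum_sdiff_sub_sum_sdiff]
    refine sub_mem (Submodule.sum_mem _ fun y hy => sg_mem ⟨y, ?_, rfl⟩)
      (Submodule.sum_mem _ fun y hy => sg_mem ⟨y, ?_, rfl⟩)
    · obtain ⟨h2, h3⟩ := Finset.mem_sdiff.1 hy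
      obtain ⟨y', hy', rfl⟩ := Finset.mem_image.1 h2
      rw [hReg] at hy' h3
      have := abs_le.1 (htr y')
      simp only [Set.mem_ofPred_eq, abs_le]; omega
    · obtain ⟨h2, h3⟩ := Finset.mem_sdiff.1 hy
      have h4 : tr j (y - Pi.single j 1) = y := by simp [tr]
      have h5 : y - Pi.single j 1 ∉ Reg := fun h => h3 (Finset.mem_image.2 ⟨_, h, h4⟩)
      rw [hReg] at h2 h5
      have := abs_le.1 (htr (y - Pi.single j 1))
      rw [h4] at this
      simp only [Set.mem_ofPred_eq, abs_le]; omega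

end cube

namespace Asc
variable {Γ : Type} [Group Γ] (D : Asc Γ)

open Classical in
noncomputable def u (g : Γ) : ℤ := if g * D.t ^ (-D.χ g) ∈ D.A then 1 else 0

theorem u_stable (d : Γ) : ∃ m0 : ℤ, ∀ g, m0 ≤ D.χ g → D.u (g * d) = D.u g := by
  obtain ⟨i, hi⟩ := D.exh' (g := d * D.t ^ (-D.χ d)) (by simp [D.χ_mul])
  refine ⟨i, fun g hg => ?_⟩
  have : g * d * D.t ^ (-D.χ (g * d)) = g * D.t ^ (-D.χ g) *
      (D.t ^ D.χ g * (d * D.t ^ (-D.χ d)) * (D.t ^ D.χ g)⁻¹) := by
    rw [D.χ_mul]; group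
  classical
  rw [u, u, this]
  exact if_congr (D.A.mul_mem_cancel_right (hi _ hg)) rfl rfl

theorem not_fpg {G : Type} [Group G] {ι : Type} [Fintype ι] {m : ℕ}
    (hι : Fintype.card ι = m + 1) (f : Γ) (hf : D.χ f = 0) (hfA : f ∉ D.A)
    (κ : G → D.Hk ι) (hκ : ∀ s : G, (Set.range fun g => (κ g)⁻¹ * κ (g * s)).Finite)
    (σ : D.Hk ι →* G) (hσ : ∀ h, κ (σ h) = h) : ¬ FPG G m := by
  classical
  intro hG
  obtain ⟨i0⟩ : Nonempty ι := Fintype.card_pos_iff.1 (by omega)
  set k := Fintype.card ι with hk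
  let K : ℤ := 2 * (k * k + 2 * k + 1)
  let B : Set Γ := (fun p : ℤ × Γ × ℤ => D.t ^ p.1 * p.2.1 * D.t ^ p.2.2) ''
    (Set.Icc (-K) K ×ˢ ({1, f, f⁻¹} : Set Γ) ×ˢ Set.Icc (-K) K)
  have hB : B.Finite := ((Set.finite_Icc _ _).prod ((Set.toFinite _).prod
    (Set.finite_Icc _ _))).image _
  have hSH : {h : D.Hk ι | ∀ i, h.1 i ∈ B}.Finite :=
    Set.Finite.preimage Subtype.val_injective.injOn (Set.Finite.pi' fun _ => hB)
  obtain ⟨S', hS'⟩ := hG.fill (hSH.image σ).toFinset
  have hF : (⋃ s ∈ (S' : Set G), ⋃ i : ι, (fun h : D.Hk ι => h.1 i) ''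
      Set.range fun g => (κ g)⁻¹ * κ (g * s)).Finite :=
    S'.finite_toSet.biUnion fun s _ => Set.finite_iUnion fun i => (hκ s).image _
  choose m0 hm0 using D.u_stable
  obtain ⟨M, hM⟩ := (hF.image fun d => max (m0 d) |D.χ d|).bddAbove
  have hM' : ∀ a b : G, a⁻¹ * b ∈ S' → ∀ i, m0 (((κ a).1 i)⁻¹ * (κ b).1 i) ≤ M ∧
      |D.χ (((κ a).1 i)⁻¹ * (κ b).1 i)| ≤ M := by
    intro a b hab i
    have := hM ⟨((κ a).1 i)⁻¹ * (κ b).1 i, by
      simp only [Set.mem_iUnion]
      exact ⟨_, hab, i, _, ⟨a, rfl⟩, by simp⟩, rfl⟩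
    exact max_le_iff.1 this
  let R : ℕ := k * (2 * M).toNat
  obtain ⟨c, hc1, hc2⟩ := exists_cycle (ι := ι) R
  let s0 : ℤ → Γ := fun n => if 1 ≤ n then 1 else f
  let e : (ι → ℤ) → ι → ℤ := fun y i => |y i| + if i = i0 then R - nm y else 0
  let dR : ι → Γ := fun i => if i = i0 then D.t ^ (R : ℤ) else 1
  have hs0 : ∀ n, D.χ (s0 n) = 0 := fun n => by simp only [s0]; split_ifs <;> simp [hf]
  have hdR : ∑ i, D.χ (dR i) = R := by simp [dR, apply_ite D.χ, -zpow_natCast]
  let h : (ι → ℤ) → D.Hk ι := fun y => ⟨fun i => (dR i)⁻¹ * (s0 (y i) * D.t ^ e y i), by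
    show ∑ i, _ = 0
    simp only [D.χ_mul, D.χ_inv, hs0, D.χ_zpow, zero_add, Finset.sum_add_distrib,
      Finset.sum_neg_distrib, hdR, e, Finset.sum_ite_eq', Finset.mem_univ, if_true, nm]
    ring⟩
  let U : ι → G → ℤ := fun i g => D.u (dR i * (κ g).1 i)
  have hU : ∀ i y, U i (σ (h y)) = u0 (y i) := by
    intro i y
    simp only [U, hσ, h, mul_inv_cancel_left, u, D.χ_mul, hs0, D.χ_zpow, zero_add, u0, s0]
    split_ifs with h1 h2 h2
    · rfl
    · simp at h2
    · exact absurd (by simpa using h2) hfA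
    · rfl
  have hcyc : push (fun y => σ (h y)) (bd c) ∈ Sup (Sc (hSH.image σ).toFinset (m+1)) := ?_
  · obtain ⟨c', hc', hb⟩ := hS' _ hcyc (by rw [← push_bd, bd_bd, map_zero])
    have h1 : cup (Finset.univ.toList.map U) c' = 1 := by
      rw [cup_bd _ (σ (h 0)), hb, ← push_cons (fun y => σ (h y)), cup_push, ← hc1, cup_bd _ 0 c]
      congr 2
      rw [List.map_map]
      exact List.map_congr_left fun i _ => funext fun y => hU i y
    have h2 : cup (Finset.univ.toList.map U) c' = (0 : Ch G →ₗ[ℤ] ℤ) c' := by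
      refine map_eq _ _ (fun l hl => ?_) hc'
      rw [cup_sg, LinearMap.zero_apply]
      by_contra hne
      obtain ⟨g0, hg0⟩ : ∃ g0, g0 ∈ l := List.exists_mem_of_length_pos (by have := hl.1; omega)
      have h3 : ∀ i, D.χ (dR i * (κ g0).1 i) < 2 * M := by
        intro i
        obtain ⟨a, ha, b, hb, hab⟩ := cupL_ne _ _ hne (U i) (List.mem_map.2 ⟨i, by simp, rfl⟩)
        have h4 := hm0 (((κ a).1 i)⁻¹ * (κ b).1 i) (dR i * (κ a).1 i)
        rw [mul_assoc, mul_inv_cancel_left] at h4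
        have h5 : D.χ (dR i * (κ a).1 i) < M := by
          by_contra hle
          exact hab (h4 ((hM' a b (hl.2 a ha b hb) i).1.trans (not_lt.1 hle))).symm
        have h6 := abs_le.1 (hM' a g0 (hl.2 a ha g0 hg0) i).2
        simp only [D.χ_mul, D.χ_inv] at h5 h6 ⊢
        omega
      have h7 : ∑ i, D.χ (dR i * (κ g0).1 i) = R := by
        simp only [D.χ_mul, Finset.sum_add_distrib, hdR]
        rw [show ∑ i, D.χ ((κ g0).1 i) = 0 from (κ g0).2, add_zero]
      have h8 : ∑ i, D.χ (dR i * (κ g0).1 i) < ∑ _i : ι, (((2 * M).toNat : ℕ) : ℤ) :=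
        Finset.sum_lt_sum_of_nonempty ⟨i0, Finset.mem_univ _⟩ fun i _ => by have := h3 i; omega
      rw [h7] at h8
      simp [R, hk] at h8
    rw [h1] at h2
    simp at h2
  · refine push_mem _ ?_ hc2
    rintro l ⟨hl, rfl | ⟨y, hy, hbox⟩⟩
    · simp at hl; omega
    refine ⟨by rw [List.length_map, hl, ← hk, hι], fun a ha b hb => ?_⟩
    obtain ⟨z, hz, rfl⟩ := List.mem_map.1 ha
    obtain ⟨z', hz', rfl⟩ := List.mem_map.1 hb
    refine (Set.Finite.mem_toFinset _).2 ⟨(h z)⁻¹ * h z', fun i => ?_, by simp⟩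
    have e1 : ((h z)⁻¹ * h z').1 i =
        D.t ^ (-e z i) * ((s0 (z i))⁻¹ * s0 (z' i)) * D.t ^ e z' i := by
      simp only [h, Subgroup.coe_mul, Subgroup.coe_inv, Pi.mul_apply, Pi.inv_apply]; group
    rw [e1]
    have b1 := abs_le.1 (nm_box (hbox z hz))
    have b2 := abs_le.1 (nm_box (hbox z' hz'))
    have b3 := abs_le.1 hy
    have b4 := hbox z hz i
    have b5 := hbox z' hz' i
    rw [← hk] at b1 b2
    have hkk : (0 : ℤ) ≤ k * k := by positivity
    have hk0 : (0 : ℤ) ≤ k := by positivity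
    by_cases hs : (1 ≤ z i ↔ 1 ≤ z' i)
    · refine ⟨(e z' i - e z i, 1, 0), ⟨?_, by simp, by simp [K]; omega⟩, ?_⟩
      · simp only [e, K, Set.mem_Icc]
        rcases abs_cases (z i) with h | h <;> rcases abs_cases (z' i) with h' | h' <;>
          split_ifs <;> omega
      · have : s0 (z i) = s0 (z' i) := by simp only [s0, hs]
        simp only [this]; group
    · refine ⟨(-e z i, (s0 (z i))⁻¹ * s0 (z' i), e z' i), ⟨?_, ?_, ?_⟩, rfl⟩
      · simp only [e, K, Set.mem_Icc]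
        rcases abs_cases (z i) with h | h <;> split_ifs <;> omega
      · simp only [s0]; split_ifs <;> simp
      · simp only [e, K, Set.mem_Icc]
        rcases abs_cases (z' i) with h | h <;> split_ifs <;> omega

end Asc

end Pool.Agent.Lib.Brown
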