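import Mathlib

/-! Ordered chains (integer combinations of lists of vertices), boundary, cones, prisms. -/

set_option autoImplicit false

namespace Pool.Agent.Lib.Brown

open Function

/-- ordered chains: integer combinations of lists of vertices -/
abbrev Ch (V : Type) := List V →₀ ℤ

variable {V W : Type}

noncomputable def sg (l : List V) : Ch V := Finsupp.single l 1

noncomputable def cons (a : V) : Ch V →ₗ[ℤ] Ch V := Finsupp.lmapDomain ℤ ℤ (List.cons a)

noncomputable def push (f : V → W) : Ch V →ₗ[ℤ] Ch W := Finsupp.lmapDomain ℤ ℤ (List.map f)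

/-- linear extension of a function on lists -/
noncomputable def lift {A : Type} [AddCommGroup A] (f : List V → A) : Ch V →ₗ[ℤ] A :=
  Finsupp.linearCombination ℤ f

@[simp] theorem cons_sg (a : V) (l : List V) : cons a (sg l) = sg (a :: l) := by
  simp [cons, sg]

@[simp] theorem push_sg (f : V → W) (l : List V) : push f (sg l) = sg (l.map f) := by
  simp [push, sg]

@[simp] theorem lift_sg {A : Type} [AddCommGroup A] (f : List V → A) (l : List V) :
    lift f (sg l) = f l := by
  simp [lift, sg]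

theorem ch_ext {A : Type} [AddCommGroup A] {T T' : Ch V →ₗ[ℤ] A} (h : ∀ l, T (sg l) = T' (sg l)) :
    T = T' := by
  ext l; exact h l

theorem ch_ext' {A : Type} [AddCommGroup A] (T T' : Ch V →ₗ[ℤ] A) (h : ∀ l, T (sg l) = T' (sg l))
    (c : Ch V) : T c = T' c := by rw [ch_ext h]

noncomputable def bdL : List V → Ch V
  | [] => 0
  | a :: l => sg l - cons a (bdL l)

noncomputable def bd : Ch V →ₗ[ℤ] Ch V := lift bdL

theorem bd_sg (l : List V) : bd (sg l) = bdL l := lift_sg _ _

@[simp] theorem bd_nil : bd (sg ([] : List V)) = 0 := bd_sg _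

theorem bd_cons (a : V) (c : Ch V) : bd (cons a c) = c - cons a (bd c) :=
  ch_ext' (bd ∘ₗ cons a) (LinearMap.id - cons a ∘ₗ bd) (fun l => by simp [bd_sg, bdL]) c

theorem bd_sg_cons (a : V) (l : List V) : bd (sg (a :: l)) = sg l - cons a (bd (sg l)) := by
  rw [← cons_sg, bd_cons]

theorem bd_bd (c : Ch V) : bd (bd c) = 0 := by
  refine ch_ext' (bd ∘ₗ bd) 0 (fun l => ?_) c
  induction l with
  | nil => simp
  | cons a l ih =>
    simp only [LinearMap.comp_apply, LinearMap.zero_apply] at ih ⊢
    rw [bd_sg_cons, map_sub, bd_cons, ih]; simp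

theorem push_cons (f : V → W) (a : V) (c : Ch V) : push f (cons a c) = cons (f a) (push f c) :=
  ch_ext' (push f ∘ₗ cons a) (cons (f a) ∘ₗ push f) (fun l => by simp) c

theorem push_bd (f : V → W) (c : Ch V) : push f (bd c) = bd (push f c) := by
  refine ch_ext' (push f ∘ₗ bd) (bd ∘ₗ push f) (fun l => ?_) c
  induction l with
  | nil => simp
  | cons a l ih =>
    simp only [LinearMap.comp_apply] at ih ⊢
    rw [bd_sg_cons, map_sub, push_cons, ih, push_sg, push_sg, List.map_cons, bd_sg_cons]

theorem push_push {X : Type} (f : V → W) (g : W → X) (c : Ch V) :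
    push g (push f c) = push (g ∘ f) c :=
  ch_ext' (push g ∘ₗ push f) (push (g ∘ f)) (fun l => by simp) c

/-- chains supported on lists with property `P` -/
noncomputable def Sup (P : List V → Prop) : Submodule ℤ (Ch V) := Finsupp.supported ℤ ℤ {l | P l}

theorem sg_mem {P : List V → Prop} {l : List V} (h : P l) : sg l ∈ Sup P :=
  Finsupp.single_mem_supported ℤ 1 h

theorem mem_Sup {P : List V → Prop} {c : Ch V} : c ∈ Sup P ↔ ∀ l ∈ c.support, P l :=
  Finsupp.mem_supported ℤ c

theorem Sup_mono {P Q : List V → Prop} (h : ∀ l, P l → Q l) : Sup P ≤ Sup Q :=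
  Finsupp.supported_mono h

theorem map_mem {A : Type} [AddCommGroup A] {P : List V → Prop} (T : Ch V →ₗ[ℤ] A)
    (N : Submodule ℤ A) (h : ∀ l, P l → T (sg l) ∈ N) {c : Ch V} (hc : c ∈ Sup P) : T c ∈ N := by
  have : Sup P ≤ N.comap T := by
    rw [Sup, Finsupp.supported_eq_span_single, Submodule.span_le]
    rintro _ ⟨l, hl, rfl⟩
    exact h l hl
  exact this hc

theorem map_eq {A : Type} [AddCommGroup A] {P : List V → Prop} (T T' : Ch V →ₗ[ℤ] A)
    (h : ∀ l, P l → T (sg l) = T' (sg l)) {c : Ch V} (hc : c ∈ Sup P) : T c = T' c := by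
  have := map_mem (T - T') ⊥ (fun l hl => by simp [h l hl]) hc
  simpa [sub_eq_zero] using this

theorem cons_mem {P Q : List V → Prop} (a : V) (h : ∀ l, P l → Q (a :: l)) {c : Ch V}
    (hc : c ∈ Sup P) : cons a c ∈ Sup Q :=
  map_mem _ _ (fun l hl => by rw [cons_sg]; exact sg_mem (h l hl)) hc

theorem push_mem {P : List V → Prop} {Q : List W → Prop} (f : V → W)
    (h : ∀ l, P l → Q (l.map f)) {c : Ch V} (hc : c ∈ Sup P) : push f c ∈ Sup Q :=
  map_mem _ _ (fun l hl => by rw [push_sg]; exact sg_mem (h l hl)) hc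

theorem bd_sg_mem (l : List V) :
    bd (sg l) ∈ Sup (fun l' => l'.length + 1 = l.length ∧ ∀ a ∈ l', a ∈ l) := by
  induction l with
  | nil => simp
  | cons a l ih =>
    rw [bd_sg_cons]
    refine sub_mem (sg_mem ⟨rfl, fun b hb => List.mem_cons_of_mem _ hb⟩) (cons_mem a ?_ ih)
    rintro l' ⟨h1, h2⟩
    refine ⟨by simp [h1], fun b hb => ?_⟩
    rcases List.mem_cons.1 hb with rfl | hb
    · exact List.mem_cons_self
    · exact List.mem_cons_of_mem _ (h2 b hb)

theorem bd_mem {P Q : List V → Prop}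
    (h : ∀ l l', P l → l'.length + 1 = l.length → (∀ a ∈ l', a ∈ l) → Q l') {c : Ch V}
    (hc : c ∈ Sup P) : bd c ∈ Sup Q :=
  map_mem _ _ (fun l hl => Sup_mono (fun l' hl' => h l l' hl hl'.1 hl'.2) (bd_sg_mem l)) hc

/-- the prism operator between two vertex maps -/
noncomputable def prismL (f g : V → W) : List V → Ch W
  | [] => 0
  | a :: l => sg (f a :: g a :: l.map g) - cons (f a) (prismL f g l)

noncomputable def prism (f g : V → W) : Ch V →ₗ[ℤ] Ch W := lift (prismL f g)

@[simp] theorem prism_nil (f g : V → W) : prism f g (sg []) = 0 := lift_sg _ _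

theorem prism_cons (f g : V → W) (a : V) (c : Ch V) :
    prism f g (cons a c) = cons (f a) (push g (cons a c)) - cons (f a) (prism f g c) :=
  ch_ext' (prism f g ∘ₗ cons a) (cons (f a) ∘ₗ push g ∘ₗ cons a - cons (f a) ∘ₗ prism f g)
    (fun l => by simp [prism, prismL]) c

theorem bd_prism (f g : V → W) (c : Ch V) :
    bd (prism f g c) = push g c - push f c - prism f g (bd c) := by
  refine ch_ext' (bd ∘ₗ prism f g) (push g - push f - prism f g ∘ₗ bd) (fun l => ?_) c
  induction l with
  | nil => simp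
  | cons a l ih =>
    simp only [LinearMap.comp_apply, LinearMap.sub_apply] at ih ⊢
    rw [← cons_sg, prism_cons, map_sub, bd_cons, bd_cons, ih, ← push_bd, bd_cons]
    simp only [map_sub, prism_cons, push_cons f]
    abel

theorem prism_sg_mem (f g : V → W) (l : List V) :
    prism f g (sg l) ∈ Sup (fun l' => l'.length = l.length + 1 ∧
      ∀ b ∈ l', ∃ a ∈ l, b = f a ∨ b = g a) := by
  induction l with
  | nil => simp
  | cons a l ih =>
    rw [← cons_sg, prism_cons]
    refine sub_mem ?_ (cons_mem (f a) ?_ ih)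
    · rw [cons_sg, push_sg, cons_sg]
      refine sg_mem ⟨by simp, fun b hb => ?_⟩
      rcases List.mem_cons.1 hb with rfl | hb
      · exact ⟨a, List.mem_cons_self, Or.inl rfl⟩
      · obtain ⟨c, hc, rfl⟩ := List.mem_map.1 hb
        exact ⟨c, hc, Or.inr rfl⟩
    · rintro l' ⟨h1, h2⟩
      refine ⟨by simp [h1], fun b hb => ?_⟩
      rcases List.mem_cons.1 hb with rfl | hb
      · exact ⟨a, List.mem_cons_self, Or.inl rfl⟩
      · obtain ⟨c, hc, h⟩ := h2 b hb
        exact ⟨c, List.mem_cons_of_mem _ hc, h⟩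

/-- the finite set of vertices of a chain -/
theorem exists_verts (c : Ch V) : ∃ T : Finset V, (∀ l ∈ c.support, ∀ a ∈ l, a ∈ T) ∧
    ∀ a ∈ T, ∃ l ∈ c.support, a ∈ l := by
  classical
  refine ⟨c.support.biUnion List.toFinset, fun l hl a ha => ?_, fun a ha => ?_⟩
  · exact Finset.mem_biUnion.2 ⟨l, hl, List.mem_toFinset.2 ha⟩
  · obtain ⟨l, hl, h⟩ := Finset.mem_biUnion.1 ha
    exact ⟨l, hl, List.mem_toFinset.1 h⟩

end Pool.Agent.Lib.Brown
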