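import Pool.Agent.Lib.Brown.Chain

/-! Flag complexes of a reflexive symmetric relation: acyclicity, simple connectivity,
cones, retracts, directed unions and the two discrete Morse lemmas. -/

set_option autoImplicit false

namespace Pool.Agent.Lib.Brown

open Function

variable {V W : Type}

/-- reflexive and symmetric relation -/
class RS (R : V → V → Prop) : Prop where
  refl : ∀ a, R a a
  symm : ∀ a b, R a b → R b a

/-- the list is a simplex of the flag complex of `R` on `S` -/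
def Sx (R : V → V → Prop) (S : Set V) (l : List V) : Prop := ∀ a ∈ l, a ∈ S ∧ ∀ b ∈ l, R a b

/-- chains on simplices with `j` vertices -/
noncomputable def Ck (R : V → V → Prop) (S : Set V) (j : ℕ) : Submodule ℤ (Ch V) :=
  Sup (fun l => l.length = j ∧ Sx R S l)

def Acyc (R : V → V → Prop) (S : Set V) (j : ℕ) : Prop :=
  ∀ z ∈ Ck R S j, bd z = 0 → ∃ c ∈ Ck R S (j+1), bd c = z

def Flat (R : V → V → Prop) (S : Set V) {Γ : Type} [Group Γ] (w : V → V → Γ) : Prop :=
  ∀ x ∈ S, ∀ y ∈ S, ∀ z ∈ S, R x y → R y z → R x z → w x y * w y z = w x z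

def Pot (R : V → V → Prop) (S : Set V) {Γ : Type} [Group Γ] (w : V → V → Γ) (φ : V → Γ) : Prop :=
  ∀ x ∈ S, ∀ y ∈ S, R x y → φ x * w x y = φ y

/-- every flat connection has a potential -/
def SC (R : V → V → Prop) (S : Set V) : Prop :=
  ∀ (Γ : Type) [Group Γ] (w : V → V → Γ), Flat R S w → ∃ φ : V → Γ, Pot R S w φ

/-- `Conn R S N`: homologically `(N-1)`-connected, and simply connected when `2 ≤ N` -/
def Conn (R : V → V → Prop) (S : Set V) (N : ℕ) : Prop :=
  (∀ j ≤ N, Acyc R S j) ∧ (2 ≤ N → SC R S)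

variable {R : V → V → Prop}

theorem Sx.mono {S T : Set V} (h : S ⊆ T) {l : List V} (hl : Sx R S l) : Sx R T l :=
  fun a ha => ⟨h (hl a ha).1, (hl a ha).2⟩

theorem Sx.sub {S : Set V} {l l' : List V} (hl : Sx R S l) (h : ∀ a ∈ l', a ∈ l) : Sx R S l' :=
  fun a ha => ⟨(hl a (h a ha)).1, fun b hb => (hl a (h a ha)).2 b (h b hb)⟩

theorem Sx.cons [RS R] {S : Set V} {l : List V} (hl : Sx R S l) {v : V} (hv : v ∈ S)
    (h : ∀ a ∈ l, R v a) : Sx R S (v :: l) := by
  intro a ha
  rcases List.mem_cons.1 ha with e | ha'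
  · refine ⟨e ▸ hv, fun b hb => ?_⟩
    rcases List.mem_cons.1 hb with e' | hb'
    · rw [e, e']; exact RS.refl _
    · rw [e]; exact h b hb'
  · refine ⟨(hl a ha').1, fun b hb => ?_⟩
    rcases List.mem_cons.1 hb with e' | hb'
    · rw [e']; exact RS.symm _ _ (h a ha')
    · exact (hl a ha').2 b hb'

theorem Ck_mono {S T : Set V} (h : S ⊆ T) (j : ℕ) : Ck R S j ≤ Ck R T j :=
  Sup_mono fun _ hl => ⟨hl.1, hl.2.mono h⟩

theorem bd_Ck {S : Set V} {j : ℕ} {c : Ch V} (hc : c ∈ Ck R S (j+1)) : bd c ∈ Ck R S j :=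
  bd_mem (fun _ _ hl h1 h2 => ⟨by have := hl.1; omega, hl.2.sub h2⟩) hc

theorem cons_Ck [RS R] {S T : Set V} {j : ℕ} {v : V} (hv : v ∈ T) (hST : S ⊆ T)
    (h : ∀ a ∈ S, R v a) {c : Ch V} (hc : c ∈ Ck R S j) : cons v c ∈ Ck R T (j+1) :=
  cons_mem v (fun l hl => ⟨by simp [hl.1], (hl.2.mono hST).cons hv fun a ha => h a (hl.2 a ha).1⟩) hc

theorem Conn.mono {S : Set V} {M N : ℕ} (h : Conn R S N) (hMN : M ≤ N) : Conn R S M :=
  ⟨fun j hj => h.1 j (hj.trans hMN), fun h2 => h.2 (h2.trans hMN)⟩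

theorem Flat.one [RS R] {S : Set V} {Γ : Type} [Group Γ] {w : V → V → Γ} (hw : Flat R S w)
    {x : V} (hx : x ∈ S) : w x x = 1 := by
  have := hw x hx x hx x hx (RS.refl _) (RS.refl _) (RS.refl _)
  simpa using this

/-- cones -/
theorem conn_cone [RS R] {S : Set V} {v : V} (hv : v ∈ S) (h : ∀ a ∈ S, R v a) (N : ℕ) :
    Conn R S N := by
  refine ⟨fun j _ z hz hz0 => ⟨cons v z, cons_Ck hv subset_rfl h hz, by simp [bd_cons, hz0]⟩, ?_⟩
  intro _ Γ _ w hw
  exact ⟨w v, fun x hx y hy hxy => hw v hv x hx y hy (h x hx) hxy (h y hy)⟩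

theorem acyc_zero [RS R] {S : Set V} (h : S.Nonempty) : Acyc R S 0 := by
  obtain ⟨v, hv⟩ := h
  intro z hz hz0
  refine ⟨cons v z, cons_mem v (fun l hl => ?_) hz, by simp [bd_cons, hz0]⟩
  obtain ⟨h1, h2⟩ := hl
  obtain rfl : l = [] := List.length_eq_zero_iff.1 h1
  exact ⟨rfl, h2.cons hv (by simp)⟩

theorem conn_zero [RS R] {S : Set V} (h : S.Nonempty) : Conn R S 0 :=
  ⟨fun j hj => by obtain rfl : j = 0 := by omega
                  exact acyc_zero h, fun h => by omega⟩

theorem Acyc.nonempty {S : Set V} (h : Acyc R S 0) : S.Nonempty := by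
  obtain ⟨c, hc, hc0⟩ := h (sg []) (sg_mem ⟨rfl, by simp [Sx]⟩) bd_nil
  by_contra hS
  have : bd c = (0 : Ch V →ₗ[ℤ] Ch V) c := by
    refine map_eq _ _ (fun l hl => ?_) hc
    obtain ⟨h1, h2⟩ := hl
    match l, h1 with
    | [a], _ => exact absurd ⟨a, (h2 a (by simp)).1⟩ hS
  rw [hc0] at this
  simp [sg] at this

/-- locally constant functions on a connected complex are constant -/
theorem Acyc.const [RS R] {S : Set V} (h : Acyc R S 1) {α : Type} (F : V → α)
    (hF : ∀ x ∈ S, ∀ y ∈ S, R x y → F x = F y) {x y : V} (hx : x ∈ S) (hy : y ∈ S) :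
    F x = F y := by
  classical
  have h1 : ∀ a ∈ S, sg [a] ∈ Ck R S 1 := fun a ha =>
    sg_mem ⟨rfl, by simpa [Sx] using ⟨ha, RS.refl a⟩⟩
  obtain ⟨c, hc, hc0⟩ := h (sg [x] - sg [y]) (sub_mem (h1 x hx) (h1 y hy))
    (by simp [bd_sg_cons])
  let χ : Ch V →ₗ[ℤ] ℤ := lift (fun l => match l with
    | [a] => if F a = F x then 1 else 0
    | _ => 0)
  have : (χ ∘ₗ bd) c = (0 : Ch V →ₗ[ℤ] ℤ) c := by
    refine map_eq _ _ (fun l hl => ?_) hc
    obtain ⟨h1, h2⟩ := hl
    match l, h1 with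
    | [a, b], _ =>
      have hab := hF a (h2 a (by simp)).1 b (h2 b (by simp)).1 ((h2 a (by simp)).2 b (by simp))
      simp [bd_sg_cons, χ, hab]
  simp only [LinearMap.comp_apply, hc0, map_sub, χ, lift_sg, LinearMap.zero_apply] at this
  by_contra hne
  simp [Ne.symm hne] at this

/-- retracts -/
theorem Conn.retract {R' : W → W → Prop} {S : Set V} {T : Set W} {N : ℕ} (h : Conn R' T N)
    (f : V → W) (g : W → V) (hf : ∀ x ∈ S, f x ∈ T) (hg : ∀ x ∈ T, g x ∈ S)
    (hfR : ∀ x ∈ S, ∀ y ∈ S, R x y → R' (f x) (f y))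
    (hgR : ∀ x ∈ T, ∀ y ∈ T, R' x y → R (g x) (g y)) (hgf : ∀ x ∈ S, g (f x) = x) :
    Conn R S N := by
  refine ⟨fun j hj z hz hz0 => ?_, fun h2 Γ _ w hw => ?_⟩
  · have hf' : ∀ l, Sx R S l → Sx R' T (l.map f) := by
      intro l hl a ha
      obtain ⟨a, ha', rfl⟩ := List.mem_map.1 ha
      refine ⟨hf a (hl a ha').1, fun b hb => ?_⟩
      obtain ⟨b, hb', rfl⟩ := List.mem_map.1 hb
      exact hfR a (hl a ha').1 b (hl b hb').1 ((hl a ha').2 b hb')
    have hg' : ∀ l, Sx R' T l → Sx R S (l.map g) := by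
      intro l hl a ha
      obtain ⟨a, ha', rfl⟩ := List.mem_map.1 ha
      refine ⟨hg a (hl a ha').1, fun b hb => ?_⟩
      obtain ⟨b, hb', rfl⟩ := List.mem_map.1 hb
      exact hgR a (hl a ha').1 b (hl b hb').1 ((hl a ha').2 b hb')
    obtain ⟨c, hc, hc0⟩ := h.1 j hj (push f z)
      (push_mem f (fun l hl => ⟨by simp [hl.1], hf' l hl.2⟩) hz) (by rw [← push_bd, hz0, map_zero])
    refine ⟨push g c, push_mem g (fun l hl => ⟨by simp [hl.1], hg' l hl.2⟩) hc, ?_⟩
    rw [← push_bd, hc0, push_push]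
    refine map_eq _ LinearMap.id (fun l hl => ?_) hz
    rw [push_sg, LinearMap.id_apply]
    congr 1
    conv_rhs => rw [← List.map_id l]
    exact List.map_congr_left fun a ha => hgf a (hl.2 a ha).1
  · obtain ⟨ψ, hψ⟩ := h.2 h2 Γ (fun x y => w (g x) (g y)) (fun x hx y hy z hz h1 h2 h3 =>
      hw _ (hg x hx) _ (hg y hy) _ (hg z hz) (hgR _ hx _ hy h1) (hgR _ hy _ hz h2)
        (hgR _ hx _ hz h3))
    refine ⟨fun x => ψ (f x), fun x hx y hy hxy => ?_⟩
    have := hψ _ (hf x hx) _ (hf y hy) (hfR x hx y hy hxy)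
    simpa [hgf x hx, hgf y hy] using this

theorem exists_of_directed {ι : Type} [Nonempty ι] (𝒮 : ι → Set V)
    (hd : ∀ i j, ∃ k, 𝒮 i ⊆ 𝒮 k ∧ 𝒮 j ⊆ 𝒮 k) (T : Finset V) (hT : ∀ a ∈ T, ∃ i, a ∈ 𝒮 i) :
    ∃ i, ∀ a ∈ T, a ∈ 𝒮 i := by
  classical
  induction T using Finset.induction_on with
  | empty => exact ⟨Classical.arbitrary ι, by simp⟩
  | insert a T _ ih =>
    obtain ⟨i, hi⟩ := ih fun b hb => hT b (Finset.mem_insert_of_mem hb)
    obtain ⟨j, hj⟩ := hT a (Finset.mem_insert_self _ _)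
    obtain ⟨k, h1, h2⟩ := hd i j
    refine ⟨k, fun b hb => ?_⟩
    rcases Finset.mem_insert.1 hb with rfl | hb
    · exact h2 hj
    · exact h1 (hi b hb)

theorem Ck_directed {ι : Type} [Nonempty ι] (𝒮 : ι → Set V)
    (hd : ∀ i j, ∃ k, 𝒮 i ⊆ 𝒮 k ∧ 𝒮 j ⊆ 𝒮 k) {S : Set V} (hS : ∀ a ∈ S, ∃ i, a ∈ 𝒮 i)
    {j : ℕ} {z : Ch V} (hz : z ∈ Ck R S j) : ∃ i, z ∈ Ck R (𝒮 i) j := by
  obtain ⟨T, hT1, hT2⟩ := exists_verts z
  have hz' := mem_Sup.1 hz
  obtain ⟨i, hi⟩ := exists_of_directed 𝒮 hd T (fun a ha => by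
    obtain ⟨l, hl, hal⟩ := hT2 a ha
    exact hS a ((hz' l hl).2 a hal).1)
  exact ⟨i, mem_Sup.2 fun l hl => ⟨(hz' l hl).1, fun a ha =>
    ⟨hi a (hT1 l hl a ha), ((hz' l hl).2 a ha).2⟩⟩⟩

/-- directed unions -/
theorem conn_directed [RS R] {ι : Type} [Nonempty ι] (𝒮 : ι → Set V)
    (hd : ∀ i j, ∃ k, 𝒮 i ⊆ 𝒮 k ∧ 𝒮 j ⊆ 𝒮 k) {S : Set V} (hS : ∀ a ∈ S, ∃ i, a ∈ 𝒮 i)
    (hS' : ∀ i, 𝒮 i ⊆ S) {N : ℕ} (h : ∀ i, Conn R (𝒮 i) N) : Conn R S N := by
  refine ⟨fun j hj z hz hz0 => ?_, fun h2 Γ _ w hw => ?_⟩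
  · obtain ⟨i, hi⟩ := Ck_directed 𝒮 hd hS hz
    obtain ⟨c, hc, hc0⟩ := (h i).1 j hj z hi hz0
    exact ⟨c, Ck_mono (hS' i) _ hc, hc0⟩
  · classical
    obtain ⟨i0⟩ := ‹Nonempty ι›
    obtain ⟨x0, hx0⟩ := ((h i0).1 0 (by omega)).nonempty
    have hp : ∀ i, ∃ φ : V → Γ, Pot R (𝒮 i) w φ ∧ φ x0 = 1 := by
      intro i
      obtain ⟨φ, hφ⟩ := (h i).2 h2 Γ w fun x hx y hy z hz =>
        hw x (hS' i hx) y (hS' i hy) z (hS' i hz)
      exact ⟨fun x => (φ x0)⁻¹ * φ x, fun x hx y hy hxy => by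
        simp only [mul_assoc, hφ x hx y hy hxy], by simp⟩
    choose φ hφ hφ0 using hp
    have hag : ∀ i k, 𝒮 i ⊆ 𝒮 k → x0 ∈ 𝒮 i → ∀ y ∈ 𝒮 i, φ i y = φ k y := by
      intro i k hik hx y hy
      have := ((h i).1 1 (by omega)).const (fun x => φ k x * (φ i x)⁻¹) (fun a ha b hb hab => by
        rw [← hφ i a ha b hb hab, ← hφ k a (hik ha) b (hik hb) hab]; group) hx hy
      simp only [hφ0, inv_one, mul_one] at this
      exact (mul_inv_eq_one.1 this.symm).symm
    have hc : ∀ y ∈ S, ∃ i, x0 ∈ 𝒮 i ∧ y ∈ 𝒮 i := by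
      intro y hy
      obtain ⟨j, hj⟩ := hS y hy
      obtain ⟨k, h1, h2⟩ := hd i0 j
      exact ⟨k, h1 hx0, h2 hj⟩
    choose! c hc1 hc2 using hc
    refine ⟨fun y => φ (c y) y, fun x hx y hy hxy => ?_⟩
    obtain ⟨k, h1, h2⟩ := hd (c x) (c y)
    simp only [hag _ k h1 (hc1 x hx) x (hc2 x hx), hag _ k h2 (hc1 y hy) y (hc2 y hy)]
    exact hφ k x (h1 (hc2 x hx)) y (h2 (hc2 y hy)) hxy

section morse
variable [RS R] {S0 S : Set V}

/-- the link of `v` in `S0` -/
def Lk (R : V → V → Prop) (S0 : Set V) (v : V) : Set V := {x | x ∈ S0 ∧ R v x}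

omit [RS R] in
theorem exists_phi (hind : ∀ v ∈ S, v ∉ S0 → ∀ u ∈ S, u ∉ S0 → R v u → v = u) (m : ℕ)
    (hlk : ∀ v ∈ S, v ∉ S0 → ∀ j < m, Acyc R (Lk R S0 v) j) :
    ∃ Φ : List V → Ch V, (∀ l, Sx R S0 l → Φ l = sg l) ∧
      (∀ l, Sx R S l → l.length ≤ m → ∀ v ∈ l, v ∉ S0 → Φ l ∈ Ck R (Lk R S0 v) l.length) ∧
      (∀ l, Sx R S l → l.length ≤ m → bd (Φ l) = lift Φ (bd (sg l))) := by
  classical
  induction m with
  | zero =>
    refine ⟨sg, fun _ _ => rfl, fun l _ hl v hv => ?_, fun l _ hl => ?_⟩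
    · obtain rfl : l = [] := List.length_eq_zero_iff.1 (by omega)
      simp at hv
    · obtain rfl : l = [] := List.length_eq_zero_iff.1 (by omega)
      simp
  | succ m ih =>
    obtain ⟨Φ, h1, h2, h3⟩ := ih fun v hv hv' j hj => hlk v hv hv' j (by omega)
    have hfill : ∀ l, Sx R S l → l.length = m + 1 → ∀ v ∈ l, v ∉ S0 →
        ∃ c ∈ Ck R (Lk R S0 v) (m+1), bd c = lift Φ (bd (sg l)) := by
      intro l hl hlen v hv hv'
      have hb := bd_sg_mem l
      refine hlk v (hl v hv).1 hv' m (by omega) _ (map_mem _ _ (fun l' hl' => ?_) hb) ?_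
      · rw [lift_sg]
        have hlen' : l'.length = m := by have := hl'.1; omega
        by_cases hv2 : v ∈ l'
        · exact hlen' ▸ h2 l' (hl.sub hl'.2) hlen'.le v hv2 hv'
        · have hS0 : ∀ a ∈ l', a ∈ S0 := by
            intro a ha
            by_contra ha'
            have := hind v (hl v hv).1 hv' a (hl a (hl'.2 a ha)).1 ha' ((hl v hv).2 a (hl'.2 a ha))
            exact hv2 (this ▸ ha)
          rw [h1 l' fun a ha => ⟨hS0 a ha, ((hl.sub hl'.2) a ha).2⟩]
          exact sg_mem ⟨hlen', fun a ha => ⟨⟨hS0 a ha, (hl v hv).2 a (hl'.2 a ha)⟩,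
            ((hl.sub hl'.2) a ha).2⟩⟩
      · have : (bd ∘ₗ lift Φ) (bd (sg l)) = (lift Φ ∘ₗ bd) (bd (sg l)) := by
          refine map_eq _ _ (fun l' hl' => ?_) hb
          simp only [LinearMap.comp_apply, lift_sg]
          exact h3 l' (hl.sub hl'.2) (by have := hl'.1; omega)
        simpa [bd_bd] using this
    let P : List V → Prop := fun l => Sx R S l ∧ l.length = m + 1 ∧ ∃ v ∈ l, v ∉ S0
    have hP : ∀ l, P l → ∃ c : Ch V, (∀ v ∈ l, v ∉ S0 → c ∈ Ck R (Lk R S0 v) (m+1)) ∧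
        bd c = lift Φ (bd (sg l)) := by
      rintro l ⟨hl, hlen, v, hv, hv'⟩
      obtain ⟨c, hc, hc0⟩ := hfill l hl hlen v hv hv'
      refine ⟨c, fun u hu hu' => ?_, hc0⟩
      rwa [← hind v (hl v hv).1 hv' u (hl u hu).1 hu' ((hl v hv).2 u hu)]
    choose! c hc1 hc2 using hP
    let Φ' : List V → Ch V := fun l => if P l then c l else Φ l
    have hag : ∀ l : List V, l.length ≤ m + 1 → lift Φ' (bd (sg l)) = lift Φ (bd (sg l)) := by
      intro l hl
      refine map_eq _ _ (fun l' hl' => ?_) (bd_sg_mem l)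
      have : ¬ P l' := fun h => by have := h.2.1; have := hl'.1; omega
      simp [Φ', this]
    refine ⟨Φ', fun l hl => ?_, fun l hl hlen v hv hv' => ?_, fun l hl hlen => ?_⟩
    · have : ¬ P l := fun ⟨_, _, v, hv, hv'⟩ => hv' (hl v hv).1
      simp [Φ', this, h1 l hl]
    · by_cases hp : P l
      · simp only [Φ', hp, if_true, hp.2.1]
        exact hc1 l hp v hv hv'
      · simp only [Φ', hp, if_false]
        refine h2 l hl ?_ v hv hv'
        by_contra hlt
        exact hp ⟨hl, by omega, v, hv, hv'⟩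
    · rw [hag l hlen]
      by_cases hp : P l
      · simp only [Φ', hp, if_true]
        exact hc2 l hp
      · simp only [Φ', hp, if_false]
        by_cases hlt : l.length ≤ m
        · exact h3 l hl hlt
        · have hS0 : Sx R S0 l := fun a ha => ⟨by
            by_contra ha'
            exact hp ⟨hl, by omega, a, ha, ha'⟩, (hl a ha).2⟩
          rw [h1 l hS0]
          refine (map_eq (lift Φ) LinearMap.id (fun l' hl' => ?_) (bd_sg_mem l)).symm
          rw [lift_sg, h1 l' (hS0.sub hl'.2)]; rfl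

omit [RS R] in
theorem phi_mem {Φ : List V → Ch V} {m : ℕ} (h1 : ∀ l, Sx R S0 l → Φ l = sg l)
    (h2 : ∀ l, Sx R S l → l.length ≤ m → ∀ v ∈ l, v ∉ S0 → Φ l ∈ Ck R (Lk R S0 v) l.length)
    {j : ℕ} (hj : j ≤ m) {c : Ch V} (hc : c ∈ Ck R S j) : lift Φ c ∈ Ck R S0 j := by
  refine map_mem _ _ (fun l hl => ?_) hc
  rw [lift_sg]
  by_cases h : ∃ v ∈ l, v ∉ S0
  · obtain ⟨v, hv, hv'⟩ := h
    exact Ck_mono (fun x hx => hx.1) _ (hl.1 ▸ h2 l hl.2 (hl.1 ▸ hj) v hv hv')
  · push Not at h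
    have : Sx R S0 l := fun a ha => ⟨h a ha, (hl.2 a ha).2⟩
    rw [h1 l this]
    exact sg_mem ⟨hl.1, this⟩

omit [RS R] in
/-- chain level Morse lemma, pushing a filling down -/
theorem morse_down (hind : ∀ v ∈ S, v ∉ S0 → ∀ u ∈ S, u ∉ S0 → R v u → v = u) (j : ℕ)
    (hlk : ∀ v ∈ S, v ∉ S0 → ∀ i ≤ j, Acyc R (Lk R S0 v) i) {c : Ch V} (hc : c ∈ Ck R S (j+1))
    (hb : bd c ∈ Ck R S0 j) : ∃ c' ∈ Ck R S0 (j+1), bd c' = bd c := by
  obtain ⟨Φ, h1, h2, h3⟩ := exists_phi hind (j+1) fun v hv hv' i hi => hlk v hv hv' i (by omega)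
  refine ⟨lift Φ c, phi_mem h1 h2 le_rfl hc, ?_⟩
  have : (bd ∘ₗ lift Φ) c = (lift Φ ∘ₗ bd) c := by
    refine map_eq _ _ (fun l hl => ?_) hc
    simp only [LinearMap.comp_apply, lift_sg]
    exact h3 l hl.2 hl.1.le
  simp only [LinearMap.comp_apply] at this
  rw [this]
  refine map_eq (lift Φ) LinearMap.id (fun l hl => ?_) hb
  rw [lift_sg, h1 l hl.2]; rfl

/-- chain level Morse lemma, pushing a cycle down -/
theorem morse_up (hsub : S0 ⊆ S) (hind : ∀ v ∈ S, v ∉ S0 → ∀ u ∈ S, u ∉ S0 → R v u → v = u)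
    (j : ℕ) (hlk : ∀ v ∈ S, v ∉ S0 → ∀ i < j, Acyc R (Lk R S0 v) i) (h0 : Acyc R S0 j) :
    Acyc R S j := by
  classical
  intro z hz hz0
  obtain ⟨Φ, h1, h2, h3⟩ := exists_phi hind j hlk
  let h : List V → Ch V := fun l =>
    if hl : ∃ v ∈ l, v ∉ S0 then cons hl.choose (sg l - Φ l) else 0
  have hh : ∀ l, Sx R S l → ∀ v ∈ l, v ∉ S0 → h l = cons v (sg l - Φ l) := by
    intro l hl v hv hv'
    have hex : ∃ v ∈ l, v ∉ S0 := ⟨v, hv, hv'⟩
    have := hind v (hl v hv).1 hv' _ (hl _ hex.choose_spec.1).1 hex.choose_spec.2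
      ((hl v hv).2 _ hex.choose_spec.1)
    simp only [h, hex, dif_pos]
    rw [← this]
  have hh0 : ∀ l, Sx R S0 l → h l = 0 := by
    intro l hl
    have : ¬ ∃ v ∈ l, v ∉ S0 := fun ⟨v, hv, hv'⟩ => hv' (hl v hv).1
    simp only [h, this, dif_neg, not_false_eq_true]
  have key : (bd ∘ₗ lift h) z =
      (LinearMap.id - lift Φ - lift h ∘ₗ bd : Ch V →ₗ[ℤ] Ch V) z := by
    refine map_eq _ _ (fun l hl => ?_) hz
    simp only [LinearMap.comp_apply, LinearMap.sub_apply, LinearMap.id_apply, lift_sg]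
    by_cases hex : ∃ v ∈ l, v ∉ S0
    · obtain ⟨v, hv, hv'⟩ := hex
      rw [hh l hl.2 v hv hv', bd_cons, map_sub, h3 l hl.2 hl.1.le]
      congr 1
      refine map_eq (cons v ∘ₗ (LinearMap.id - lift Φ)) (lift h) (fun l' hl' => ?_) (bd_sg_mem l)
      simp only [LinearMap.comp_apply, LinearMap.sub_apply, LinearMap.id_apply, lift_sg]
      by_cases hv2 : v ∈ l'
      · rw [hh l' (hl.2.sub hl'.2) v hv2 hv']
      · have hS0 : Sx R S0 l' := fun a ha => ⟨by
          by_contra ha'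
          have := hind v (hl.2 v hv).1 hv' a (hl.2 a (hl'.2 a ha)).1 ha'
            ((hl.2 v hv).2 a (hl'.2 a ha))
          exact hv2 (this ▸ ha), ((hl.2.sub hl'.2) a ha).2⟩
        rw [h1 l' hS0, hh0 l' hS0]; simp
    · push Not at hex
      have hS0 : Sx R S0 l := fun a ha => ⟨hex a ha, (hl.2 a ha).2⟩
      rw [hh0 l hS0, h1 l hS0]
      have : lift h (bd (sg l)) = (0 : Ch V →ₗ[ℤ] Ch V) (bd (sg l)) :=
        map_eq _ _ (fun l' hl' => by simp [hh0 l' (hS0.sub hl'.2)]) (bd_sg_mem l)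
      simp [this]
  simp only [LinearMap.comp_apply, LinearMap.sub_apply, LinearMap.id_apply, hz0, map_zero,
    sub_zero] at key
  have hcyc : bd (lift Φ z) = 0 := by
    have := congrArg bd key
    rw [bd_bd, map_sub, hz0] at this
    simpa using this.symm
  obtain ⟨c, hc, hc0⟩ := h0 _ (phi_mem h1 h2 le_rfl hz) hcyc
  refine ⟨lift h z + c, add_mem (map_mem _ _ (fun l hl => ?_) hz) (Ck_mono hsub _ hc), by
    rw [map_add, key, hc0]; abel⟩
  rw [lift_sg]
  by_cases hex : ∃ v ∈ l, v ∉ S0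
  · obtain ⟨v, hv, hv'⟩ := hex
    rw [hh l hl.2 v hv hv', map_sub]
    refine sub_mem ?_ (cons_Ck (hl.2 v hv).1 (fun x hx => hsub hx.1) (fun x hx => hx.2)
      (hl.1 ▸ h2 l hl.2 hl.1.le v hv hv'))
    rw [cons_sg]
    exact sg_mem ⟨by simp [hl.1], hl.2.cons (hl.2 v hv).1 (hl.2 v hv).2⟩
  · push Not at hex
    rw [hh0 l fun a ha => ⟨hex a ha, (hl.2 a ha).2⟩]
    exact zero_mem _

theorem flat_extend (hind : ∀ v ∈ S, v ∉ S0 → ∀ u ∈ S, u ∉ S0 → R v u → v = u)
    (hlk : ∀ v ∈ S, v ∉ S0 → SC R (Lk R S0 v)) {Γ : Type} [Group Γ] (w : V → V → Γ)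
    (hw : Flat R S0 w) : ∃ w' : V → V → Γ, Flat R S w' ∧ ∀ x ∈ S0, ∀ y ∈ S0, w' x y = w x y := by
  classical
  have hp : ∀ v ∈ S, v ∉ S0 → ∃ ψ : V → Γ, Pot R (Lk R S0 v) w ψ := fun v hv hv' =>
    hlk v hv hv' Γ w fun x hx y hy z hz => hw x hx.1 y hy.1 z hz.1
  choose! ψ hψ using hp
  refine ⟨fun x y => if x ∈ S0 then (if y ∈ S0 then w x y else (ψ y x)⁻¹) else
    (if y ∈ S0 then ψ x y else 1), ?_, fun x hx y hy => by simp [hx, hy]⟩
  intro x hx y hy z hz hxy hyz hxz
  have s := @RS.symm _ R _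
  by_cases h1 : x ∈ S0 <;> by_cases h2 : y ∈ S0 <;> by_cases h3 : z ∈ S0 <;>
    simp only [h1, h2, h3, if_true, if_false]
  · exact hw x h1 y h2 z h3 hxy hyz hxz
  · rw [← hψ z hz h3 x ⟨h1, s _ _ hxz⟩ y ⟨h2, s _ _ hyz⟩ hxy]; group
  · rw [← hψ y hy h2 x ⟨h1, s _ _ hxy⟩ z ⟨h3, hyz⟩ hxz]; group
  · rw [hind y hy h2 z hz h3 hyz]; simp
  · exact hψ x hx h1 y ⟨h2, hxy⟩ z ⟨h3, hxz⟩ hyz
  · rw [hind x hx h1 z hz h3 hxz]; simp
  · rw [hind x hx h1 y hy h2 hxy]; simp
  · simp

theorem sc_up (hind : ∀ v ∈ S, v ∉ S0 → ∀ u ∈ S, u ∉ S0 → R v u → v = u) (hsub : S0 ⊆ S)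
    (hlk : ∀ v ∈ S, v ∉ S0 → ∀ i < 2, Acyc R (Lk R S0 v) i) (h0 : SC R S0) : SC R S := by
  classical
  intro Γ _ w hw
  obtain ⟨φ, hφ⟩ := h0 Γ w fun x hx y hy z hz => hw x (hsub hx) y (hsub hy) z (hsub hz)
  have hp : ∀ v ∈ S, v ∉ S0 → ∃ γ : Γ, ∀ x ∈ S0, R v x → φ x * w x v = γ := by
    intro v hv hv'
    obtain ⟨x0, hx0⟩ := (hlk v hv hv' 0 (by omega)).nonempty
    refine ⟨φ x0 * w x0 v, fun x hx hvx => ?_⟩
    refine (hlk v hv hv' 1 (by omega)).const (fun x => φ x * w x v) ?_ ⟨hx, hvx⟩ hx0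
    intro a ha b hb hab
    rw [← hφ a ha.1 b hb.1 hab, mul_assoc,
      hw a (hsub ha.1) b (hsub hb.1) v hv hab (RS.symm _ _ hb.2) (RS.symm _ _ ha.2)]
  choose! γ hγ using hp
  refine ⟨fun x => if x ∈ S0 then φ x else γ x, fun x hx y hy hxy => ?_⟩
  by_cases h1 : x ∈ S0 <;> by_cases h2 : y ∈ S0 <;> simp only [h1, h2, if_true, if_false]
  · exact hφ x h1 y h2 hxy
  · exact hγ y hy h2 x h1 (RS.symm _ _ hxy)
  · rw [← hγ x hx h1 y h2 hxy, mul_assoc,
      hw y hy x hx y hy (RS.symm _ _ hxy) hxy (RS.refl _), hw.one hy, mul_one]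
  · rw [hind x hx h1 y hy h2 hxy, hw.one hy, mul_one]

end morse

section height
variable [RS R] {S : Set V} (h : V → ℕ) (m0 : ℕ)

/-- sublevel set -/
def Sub (S : Set V) (h : V → ℕ) (m : ℕ) : Set V := {x | x ∈ S ∧ h x ≤ m}

/-- descending link -/
def DLk (R : V → V → Prop) (S : Set V) (h : V → ℕ) (v : V) : Set V :=
  {x | x ∈ S ∧ h x < h v ∧ R v x}

omit [RS R] in
theorem lk_eq {m : ℕ} {v : V} (hv : v ∈ Sub S h (m+1)) (hv' : v ∉ Sub S h m) :
    Lk R (Sub S h m) v = DLk R S h v := by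
  have : h v = m + 1 := by
    have := hv.2
    by_contra hne
    exact hv' ⟨hv.1, by omega⟩
  ext x
  simp only [Lk, Sub, DLk, Set.mem_ofPred_eq, this, Nat.lt_succ_iff, and_assoc]

omit [RS R] in
theorem ind_of (hind : ∀ x ∈ S, ∀ y ∈ S, R x y → h x = h y → m0 < h x → x = y) {m : ℕ}
    (hm : m0 ≤ m) : ∀ v ∈ Sub S h (m+1), v ∉ Sub S h m → ∀ u ∈ Sub S h (m+1), u ∉ Sub S h m →
      R v u → v = u := by
  intro v hv hv' u hu hu' hvu
  have h1 : ¬ h v ≤ m := fun h => hv' ⟨hv.1, h⟩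
  have h2 : ¬ h u ≤ m := fun h => hu' ⟨hu.1, h⟩
  have := hv.2
  have := hu.2
  exact hind v hv.1 u hu.1 hvu (by omega) (by omega)

/-- Morse lemma going up -/
theorem Conn.up (hind : ∀ x ∈ S, ∀ y ∈ S, R x y → h x = h y → m0 < h x → x = y) {N : ℕ}
    (hlk : ∀ v ∈ S, m0 < h v → ∀ j < N, Acyc R (DLk R S h v) j) (h0 : Conn R (Sub S h m0) N) :
    Conn R S N := by
  have key : ∀ e, Conn R (Sub S h (m0 + e)) N := by
    intro e
    induction e with
    | zero => exact h0
    | succ e ih =>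
      have hi := ind_of h m0 hind (Nat.le_add_right m0 e)
      have hl : ∀ v ∈ Sub S h (m0 + e + 1), v ∉ Sub S h (m0 + e) → ∀ j < N,
          Acyc R (Lk R (Sub S h (m0 + e)) v) j := by
        intro v hv hv' j hj
        rw [lk_eq h hv hv']
        refine hlk v hv.1 ?_ j hj
        by_contra hle
        exact hv' ⟨hv.1, by omega⟩
      have hsub : Sub S h (m0 + e) ⊆ Sub S h (m0 + e + 1) := fun x hx =>
        ⟨hx.1, by have := hx.2; omega⟩
      exact ⟨fun j hj => morse_up hsub hi j (fun v hv hv' i hi => hl v hv hv' i (by omega))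
        (ih.1 j hj), fun h2 => sc_up hi hsub (fun v hv hv' i hi => hl v hv hv' i (by omega))
          (ih.2 h2)⟩
  refine conn_directed (fun e => Sub S h (m0 + e)) (fun i j => ⟨max i j, fun x hx => ⟨hx.1, ?_⟩,
    fun x hx => ⟨hx.1, ?_⟩⟩) (fun a ha => ⟨h a, ha, by omega⟩) (fun i x hx => hx.1) key
  · have := hx.2; omega
  · have := hx.2; omega

/-- Morse lemma going down -/
theorem Conn.down (hind : ∀ x ∈ S, ∀ y ∈ S, R x y → h x = h y → m0 < h x → x = y) {N : ℕ}
    (hlk : ∀ v ∈ S, m0 < h v → Conn R (DLk R S h v) N) (h0 : Conn R S N) :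
    Conn R (Sub S h m0) N := by
  have hl : ∀ e, ∀ v ∈ Sub S h (m0 + e + 1), v ∉ Sub S h (m0 + e) →
      Conn R (Lk R (Sub S h (m0 + e)) v) N := by
    intro e v hv hv'
    rw [lk_eq h hv hv']
    refine hlk v hv.1 ?_
    by_contra hle
    exact hv' ⟨hv.1, by omega⟩
  refine ⟨fun j hj z hz hz0 => ?_, fun h2 Γ _ w hw => ?_⟩
  · obtain ⟨c, hc, hc0⟩ := h0.1 j hj z (Ck_mono (fun x hx => hx.1) _ hz) hz0
    obtain ⟨e, he⟩ := Ck_directed (S := S) (fun e => Sub S h (m0 + e)) (fun i j => ⟨max i j,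
      fun x hx => ⟨hx.1, by have := hx.2; omega⟩, fun x hx => ⟨hx.1, by have := hx.2; omega⟩⟩)
      (fun a ha => ⟨h a, (⟨ha, by omega⟩ : a ∈ S ∧ h a ≤ m0 + h a)⟩) hc
    clear hc
    induction e generalizing c with
    | zero => exact ⟨c, he, hc0⟩
    | succ e ih =>
      have hsub : Sub S h m0 ⊆ Sub S h (m0 + e) := fun x hx => ⟨hx.1, by have := hx.2; omega⟩
      obtain ⟨c', hc', hc0'⟩ := morse_down (ind_of h m0 hind (Nat.le_add_right m0 e)) j
        (fun v hv hv' i hi => (hl e v hv hv').1 i (hi.trans hj)) he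
        (by rw [hc0]; exact Ck_mono hsub _ hz)
      exact ih c' (hc0'.trans hc0) hc'
  · have step : ∀ e (w : V → V → Γ), ∃ w' : V → V → Γ, Flat R (Sub S h (m0 + e)) w →
        (Flat R (Sub S h (m0 + e + 1)) w' ∧
          ∀ x ∈ Sub S h (m0 + e), ∀ y ∈ Sub S h (m0 + e), w' x y = w x y) := by
      intro e w
      by_cases hw : Flat R (Sub S h (m0 + e)) w
      · obtain ⟨w', h1, h3⟩ := flat_extend (ind_of h m0 hind (Nat.le_add_right m0 e))
          (fun v hv hv' => (hl e v hv hv').2 h2) w hw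
        exact ⟨w', fun _ => ⟨h1, h3⟩⟩
      · exact ⟨w, fun h => absurd h hw⟩
    choose st hst using step
    let ww : ℕ → V → V → Γ := fun e => Nat.rec w (fun e w => st e w) e
    have hflat : ∀ e, Flat R (Sub S h (m0 + e)) (ww e) := by
      intro e
      induction e with
      | zero => exact hw
      | succ e ih => exact (hst e _ ih).1
    have hag : ∀ e d, ∀ x ∈ Sub S h (m0 + e), ∀ y ∈ Sub S h (m0 + e),
        ww (e + d) x y = ww e x y := by
      intro e d x hx y hy
      induction d with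
      | zero => rfl
      | succ d ih =>
        rw [← ih]
        exact (hst (e + d) _ (hflat _)).2 x ⟨hx.1, by have := hx.2; omega⟩ y
          ⟨hy.1, by have := hy.2; omega⟩
    have hag' : ∀ e, ∀ x ∈ S, ∀ y ∈ S, h x + h y ≤ e → ww e x y = ww (h x + h y) x y := by
      intro e x hx y hy he
      obtain ⟨d, rfl⟩ := Nat.exists_eq_add_of_le he
      exact hag _ d x ⟨hx, by omega⟩ y ⟨hy, by omega⟩
    obtain ⟨φ, hφ⟩ := h0.2 h2 Γ (fun x y => ww (h x + h y) x y) (by
      intro x hx y hy z hz hxy hyz hxz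
      simp only
      rw [← hag' (h x + h y + h z) x hx y hy (by omega),
        ← hag' (h x + h y + h z) y hy z hz (by omega), ← hag' (h x + h y + h z) x hx z hz (by omega)]
      exact hflat _ x ⟨hx, by omega⟩ y ⟨hy, by omega⟩ z ⟨hz, by omega⟩ hxy hyz hxz)
    refine ⟨φ, fun x hx y hy hxy => ?_⟩
    have := hφ x hx.1 y hy.1 hxy
    simp only at this
    rwa [show h x + h y = 0 + (h x + h y) by omega, hag 0 _ x hx y hy] at this

end height

section grounded

/-- comparability of finite sets -/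
def Cmp (J K : Finset W) : Prop := J ⊆ K ∨ K ⊆ J

instance : RS (Cmp (W := W)) := ⟨fun _ => Or.inl subset_rfl, fun _ _ h => h.symm⟩

/-- nonempty cliques of `cp` inside `T` -/
def Clq (cp : W → W → Prop) (T : Set W) : Set (Finset W) :=
  {J | J.Nonempty ∧ (∀ a ∈ J, a ∈ T) ∧ ∀ a ∈ J, ∀ b ∈ J, a ≠ b → cp a b}

open Classical in
/-- grounded flag complexes are highly connected -/
theorem grounded (cp : W → W → Prop) (hcp : ∀ a b, cp a b → cp b a) (k : ℕ) :
    ∀ (N : ℕ) (T : Set W) (σ : Finset W), σ ∈ Clq cp T → N * k + 1 ≤ σ.card →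
      (∀ w ∈ T, (σ.filter (fun s => s ≠ w ∧ ¬ cp w s)).card ≤ k) → Conn Cmp (Clq cp T) N := by
  intro N
  induction N with
  | zero => intro T σ hσ _ _; exact conn_zero ⟨σ, hσ⟩
  | succ N ih =>
    intro T σ hσ hcard hbad
    have key : ∀ U : Finset W, (∀ a ∈ U, a ∈ T) → Conn Cmp (Clq cp ↑(σ ∪ U)) (N+1) := by
      intro U
      induction U using Finset.induction_on with
      | empty =>
        intro _
        refine conn_cone (S := Clq cp ↑(σ ∪ ∅)) (v := σ) ⟨hσ.1, by simp, hσ.2.2⟩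
          (fun J hJ => Or.inr fun a ha => ?_) _
        simpa using hJ.2.1 a ha
      | insert v U hvU ihU =>
        intro hU
        have ihU := ihU fun a ha => hU a (Finset.mem_insert_of_mem ha)
        by_cases hv : v ∈ σ ∪ U
        · rwa [Finset.union_insert, Finset.insert_eq_of_mem hv]
        rw [Finset.union_insert]
        set T0 := σ ∪ U with hT0
        let h : Finset W → ℕ := fun J => if v ∈ J then T0.card + 2 - J.card else 0
        have hsub : ∀ J ∈ Clq cp (↑(insert v T0) : Set W), J ⊆ insert v T0 := fun J hJ a ha => by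
          simpa using hJ.2.1 a ha
        have hcd : ∀ J ∈ Clq cp (↑(insert v T0) : Set W), J.card ≤ T0.card + 1 := fun J hJ =>
          (Finset.card_le_card (hsub J hJ)).trans (Finset.card_insert_le _ _)
        refine Conn.up h 0 ?_ ?_ ?_
        · intro J hJ K hK hJK he hpos
          have h1 : v ∈ J := by by_contra hh; simp [h, hh] at hpos
          have h2 : v ∈ K := by by_contra hh; rw [he] at hpos; simp [h, hh] at hpos
          have h3 : J.card = K.card := by
            have := hcd J hJ; have := hcd K hK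
            simp only [h, h1, h2, if_true] at he; omega
          rcases hJK with hJK | hJK
          · exact Finset.eq_of_subset_of_card_le hJK h3.ge
          · exact (Finset.eq_of_subset_of_card_le hJK h3.le).symm
        · intro J hJ hpos j hj
          have h1 : v ∈ J := by by_contra hh; simp [h, hh] at hpos
          by_cases hJv : J = {v}
          · subst hJv
            have hc : Conn Cmp (Clq cp {a | a ∈ T0 ∧ cp v a}) N := by
              refine ih _ (σ.filter (cp v)) ⟨?_, fun a ha => ?_, fun a ha b hb => ?_⟩ ?_ ?_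
              · rw [← Finset.card_pos]
                have h4 := hbad v (hU v (Finset.mem_insert_self _ _))
                have h5 := Finset.card_filter_add_card_filter_not (s := σ) (cp v)
                have h6 : σ.filter (fun s => ¬ cp v s) = σ.filter (fun s => s ≠ v ∧ ¬ cp v s) := by
                  refine Finset.filter_congr fun s hs => ?_
                  have : s ≠ v := fun h => hv (h ▸ Finset.mem_union_left _ hs)
                  simp [this]
                rw [h6] at h5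
                nlinarith
              · rw [Finset.mem_filter] at ha
                exact ⟨Finset.mem_union_left _ ha.1, ha.2⟩
              · exact hσ.2.2 a (Finset.mem_filter.1 ha).1 b (Finset.mem_filter.1 hb).1
              · have h4 := hbad v (hU v (Finset.mem_insert_self _ _))
                have h5 := Finset.card_filter_add_card_filter_not (s := σ) (cp v)
                have h6 : σ.filter (fun s => ¬ cp v s) = σ.filter (fun s => s ≠ v ∧ ¬ cp v s) := by
                  refine Finset.filter_congr fun s hs => ?_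
                  have : s ≠ v := fun h => hv (h ▸ Finset.mem_union_left _ hs)
                  simp [this]
                rw [h6] at h5
                nlinarith
              · intro w hw
                refine le_trans (Finset.card_le_card ?_) (hbad w ?_)
                · exact Finset.filter_subset_filter _ (Finset.filter_subset _ _)
                · rcases Finset.mem_union.1 hw.1 with h | h
                  · exact hσ.2.1 w h
                  · exact hU w (Finset.mem_insert_of_mem h)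
            have hmem : ∀ K ∈ DLk Cmp (Clq cp (↑(insert v T0) : Set W)) h {v}, v ∈ K ∧ K ≠ {v} := by
              intro K hK
              have hne : K ≠ {v} := fun h => by have := hK.2.1; rw [h] at this; omega
              refine ⟨?_, hne⟩
              rcases hK.2.2 with h | h
              · exact h (Finset.mem_singleton_self v)
              · exact absurd ((Finset.subset_singleton_iff.1 h).resolve_left hK.1.1.ne_empty) hne
            refine (hc.retract (fun K => K.erase v) (fun K => insert v K) ?_ ?_ ?_ ?_ ?_).1 j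
              (by omega)
            · intro K hK
              obtain ⟨h2, h3⟩ := hmem K hK
              refine ⟨?_, fun a ha => ?_, fun a ha b hb => hK.1.2.2 a (Finset.mem_of_mem_erase ha) b
                (Finset.mem_of_mem_erase hb)⟩
              · by_contra hne
                rw [Finset.not_nonempty_iff_eq_empty] at hne
                apply h3
                rw [← Finset.insert_erase h2, hne]; rfl
              · rw [Finset.mem_erase] at ha
                exact ⟨(Finset.mem_insert.1 (hsub K hK.1 ha.2)).resolve_left ha.1,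
                  hK.1.2.2 v h2 a ha.2 (Ne.symm ha.1)⟩
            · intro K hK
              have hvK : v ∉ K := fun h => hv (hK.2.1 v h).1
              have hKc : K.card ≤ T0.card := Finset.card_le_card fun a ha => (hK.2.1 a ha).1
              refine ⟨⟨Finset.insert_nonempty _ _, fun a ha => ?_, fun a ha b hb hab => ?_⟩, ?_,
                Or.inl (by simp)⟩
              · rcases Finset.mem_insert.1 ha with rfl | ha
                · simp
                · simp [(hK.2.1 a ha).1]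
              · rcases Finset.mem_insert.1 ha with rfl | ha' <;>
                  rcases Finset.mem_insert.1 hb with rfl | hb'
                · exact absurd rfl hab
                · exact (hK.2.1 b hb').2
                · exact hcp _ _ (hK.2.1 a ha').2
                · exact hK.2.2 a ha' b hb' hab
              · have := hK.1.card_pos
                simp only [h, Finset.mem_insert_self, if_true, Finset.mem_singleton,
                  Finset.card_insert_of_notMem hvK, Finset.card_singleton]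
                omega
            · intro K _ K' _ hKK
              exact hKK.imp (Finset.erase_subset_erase v) (Finset.erase_subset_erase v)
            · intro K _ K' _ hKK
              exact hKK.imp (Finset.insert_subset_insert v) (Finset.insert_subset_insert v)
            · intro K hK
              exact Finset.insert_erase (hmem K hK).1
          · refine (conn_cone (S := DLk Cmp (Clq cp (↑(insert v T0) : Set W)) h J)
              (v := J.erase v) ⟨⟨?_, fun a ha => hJ.2.1 a (Finset.mem_of_mem_erase ha),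
              fun a ha b hb => hJ.2.2 a (Finset.mem_of_mem_erase ha) b (Finset.mem_of_mem_erase hb)⟩,
              by simpa [h] using hpos, Or.inr (Finset.erase_subset _ _)⟩ ?_ j).1 j le_rfl
            · by_contra hne
              rw [Finset.not_nonempty_iff_eq_empty] at hne
              apply hJv
              rw [← Finset.insert_erase h1, hne]; rfl
            · intro K hK
              rcases hK.2.2 with h2 | h2
              · exact Or.inl ((Finset.erase_subset _ _).trans h2)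
              · by_cases hvK : v ∈ K
                · have h3 := hK.2.1
                  have := Finset.card_le_card h2
                  simp only [h, hvK, h1, if_true] at h3
                  omega
                · exact Or.inr fun a ha => Finset.mem_erase.2 ⟨fun h => hvK (h ▸ ha), h2 ha⟩
        · convert ihU using 1
          ext J
          constructor
          · rintro ⟨hJ, h0⟩
            have hvJ : v ∉ J := fun hh => by
              have := hcd J hJ
              simp only [h, hh, if_true] at h0; omega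
            refine ⟨hJ.1, fun a ha => ?_, hJ.2.2⟩
            exact (Finset.mem_insert.1 (hsub J hJ ha)).resolve_left fun h => hvJ (h ▸ ha)
          · intro hJ
            have hvJ : v ∉ J := fun hh => hv (hJ.2.1 v hh)
            exact ⟨⟨hJ.1, fun a ha => by simp [show a ∈ T0 from hJ.2.1 a ha], hJ.2.2⟩,
              by simp [h, hvJ]⟩
    have : Nonempty {U : Finset W // ∀ a ∈ U, a ∈ T} := ⟨⟨∅, by simp⟩⟩
    refine conn_directed (S := Clq cp T) (fun U : {U : Finset W // ∀ a ∈ U, a ∈ T} => Clq cp ↑(σ ∪ U.1))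
      (fun U U' => ⟨⟨U.1 ∪ U'.1, fun a ha => (Finset.mem_union.1 ha).elim (U.2 a) (U'.2 a)⟩,
        fun J hJ => ⟨hJ.1, fun a ha => ?_, hJ.2.2⟩, fun J hJ => ⟨hJ.1, fun a ha => ?_, hJ.2.2⟩⟩)
      (fun J hJ => ⟨⟨J, hJ.2.1⟩, hJ.1, fun a ha => by simp [ha], hJ.2.2⟩)
      (fun U J hJ => ⟨hJ.1, fun a ha => ?_, hJ.2.2⟩) (fun U => key U.1 U.2)
    · have := hJ.2.1 a ha
      simp only [Finset.coe_union, Set.mem_union, Finset.mem_coe] at this ⊢
      tauto
    · have := hJ.2.1 a ha
      simp only [Finset.coe_union, Set.mem_union, Finset.mem_coe] at this ⊢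
      tauto
    · rcases Finset.mem_union.1 (hJ.2.1 a ha) with h | h
      · exact hσ.2.1 a h
      · exact U.2 a h

end grounded

end Pool.Agent.Lib.Brown
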