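import Mathlib

/-! Modules of type FP_n over a (noncommutative) ring, short exact sequence lemmas,
induction along a flat ring map, change of rings, and matrix resolutions. -/

set_option autoImplicit false

namespace Pool.Agent.Lib.Brown

open Function

/-- `FP R n M`: the module `M` has a free resolution that is finitely generated up to degree `n`. -/
def FP (R : Type) [Ring R] : ℕ → (M : Type) → [AddCommGroup M] → [Module R M] → Prop
  | 0, M, _, _ => Module.Finite R M
  | n+1, M, _, _ => ∃ (r : ℕ) (f : (Fin r → R) →ₗ[R] M), Surjective f ∧ FP R n (LinearMap.ker f)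

section basic
variable {R : Type} [Ring R]

theorem FP.equiv : ∀ {n : ℕ} {M N : Type} [AddCommGroup M] [Module R M] [AddCommGroup N]
    [Module R N] (_ : M ≃ₗ[R] N), FP R n M → FP R n N
  | 0, _, _, _, _, _, _, e, h => by
      have : Module.Finite R _ := h
      exact Module.Finite.equiv e
  | n+1, _, _, _, _, _, _, e, h => by
      obtain ⟨r, f, hf, hk⟩ := h
      refine ⟨r, e.toLinearMap ∘ₗ f, e.surjective.comp hf, ?_⟩
      exact FP.equiv (LinearEquiv.ofEq _ _ (by ext x; simp)) hk

variable {M A B C : Type} [AddCommGroup M] [Module R M] [AddCommGroup A] [Module R A]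
  [AddCommGroup B] [Module R B] [AddCommGroup C] [Module R C]

theorem FP.finite {n : ℕ} (h : FP R n M) : Module.Finite R M := by
  cases n with
  | zero => exact h
  | succ n =>
    obtain ⟨r, f, hf, -⟩ := h
    exact Module.Finite.of_surjective f hf

theorem FP.pred : ∀ {n : ℕ} {M : Type} [AddCommGroup M] [Module R M], FP R (n+1) M → FP R n M
  | 0, _, _, _, h => h.finite
  | n+1, _, _, _, h => by
      obtain ⟨r, f, hf, hk⟩ := h
      exact ⟨r, f, hf, FP.pred hk⟩

theorem FP.mono {m n : ℕ} (hmn : m ≤ n) (h : FP R n M) : FP R m M := by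
  induction hmn with
  | refl => exact h
  | step _ ih => exact ih h.pred

theorem FP.of_subsingleton : ∀ (n : ℕ) (M : Type) [AddCommGroup M] [Module R M] [Subsingleton M],
    FP R n M
  | 0, _, _, _, _ => Module.Finite.of_finite
  | n+1, _, _, _, _ => ⟨0, 0, fun _ => ⟨0, Subsingleton.elim _ _⟩, FP.of_subsingleton n _⟩

theorem FP.succ_of {n : ℕ} (F : Type) [AddCommGroup F] [Module R F] [Module.Free R F]
    [Module.Finite R F] (f : F →ₗ[R] M) (hf : Surjective f) (hk : FP R n (LinearMap.ker f)) :
    FP R (n+1) M := by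
  classical
  let b := Module.Free.chooseBasis R F
  let e : F ≃ₗ[R] (Fin (Fintype.card (Module.Free.ChooseBasisIndex R F)) → R) :=
    (b.reindex (Fintype.equivFin _)).equivFun
  refine ⟨_, f ∘ₗ e.symm.toLinearMap, hf.comp e.symm.surjective, ?_⟩
  refine FP.equiv (LinearEquiv.ofSubmodules e _ _ ?_) hk
  ext x
  simp only [Submodule.mem_map, LinearMap.mem_ker, LinearMap.comp_apply, LinearEquiv.coe_coe]
  constructor
  · rintro ⟨y, hy, rfl⟩; simpa using hy
  · intro h; exact ⟨e.symm x, h, by simp⟩

theorem FP.free (n : ℕ) (F : Type) [AddCommGroup F] [Module R F] [Module.Free R F]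
    [Module.Finite R F] : FP R n F := by
  cases n with
  | zero => exact ‹Module.Finite R F›
  | succ n =>
    refine FP.succ_of F LinearMap.id surjective_id ?_
    have : Subsingleton (LinearMap.ker (LinearMap.id : F →ₗ[R] F)) :=
      ⟨fun a b => Subtype.ext ((LinearMap.mem_ker.1 a.2).trans (LinearMap.mem_ker.1 b.2).symm)⟩
    exact FP.of_subsingleton n _

/-- the source of an injection with image the kernel is isomorphic to the kernel -/
noncomputable def kerEquiv (i : A →ₗ[R] B) (p : B →ₗ[R] C) (hi : Injective i)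
    (he : Function.Exact i p) : A ≃ₗ[R] LinearMap.ker p :=
  (LinearEquiv.ofInjective i hi).trans (LinearEquiv.ofEq _ _ he.linearMap_ker_eq.symm)

end basic

section ses
variable {R : Type} [Ring R]

theorem FP.mid : ∀ {n : ℕ} {A B C : Type} [AddCommGroup A] [Module R A]
    [AddCommGroup B] [Module R B] [AddCommGroup C] [Module R C]
    (i : A →ₗ[R] B) (p : B →ₗ[R] C) (_ : Injective i) (_ : Surjective p)
    (_ : Function.Exact i p), FP R n A → FP R n C → FP R n B
  | 0, _, _, _, _, _, _, _, _, _, i, p, _, hp, he, hA, hC => by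
      have : Module.Finite R _ := hA
      have : Module.Finite R _ := hC
      exact Module.Finite.of_exact he hp
  | n+1, A, B, C, _, _, _, _, _, _, i, p, hi, hp, he, hA, hC => by
      obtain ⟨a, fA, hfA, hkA⟩ := hA
      obtain ⟨c, fC, hfC, hkC⟩ := hC
      obtain ⟨g, hg⟩ := Module.projective_lifting_property p fC hp
      have hg' : ∀ x, p (g x) = fC x := fun x => by rw [← hg]; rfl
      have hpi : ∀ x, p (i x) = 0 := fun x => (he _).2 ⟨x, rfl⟩
      let f : ((Fin a → R) × (Fin c → R)) →ₗ[R] B := LinearMap.coprod (i ∘ₗ fA) g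
      have hf : ∀ x y, f (x, y) = i (fA x) + g y := fun x y => rfl
      refine FP.succ_of _ f ?_ ?_
      · intro b
        obtain ⟨y, hy⟩ := hfC (p b)
        obtain ⟨z, hz⟩ := (he (b - g y)).1 (by simp [hg', hy])
        obtain ⟨x, rfl⟩ := hfA z
        exact ⟨(x, y), by rw [hf, hz]; abel⟩
      · let i' : LinearMap.ker fA →ₗ[R] LinearMap.ker f :=
          LinearMap.codRestrict _ (LinearMap.inl R _ _ ∘ₗ (LinearMap.ker fA).subtype) (by
            intro x
            have := x.2
            simp only [LinearMap.mem_ker] at this ⊢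
            simp [hf, this])
        let p' : LinearMap.ker f →ₗ[R] LinearMap.ker fC :=
          LinearMap.codRestrict _ (LinearMap.snd R _ _ ∘ₗ (LinearMap.ker f).subtype) (by
            rintro ⟨⟨x, y⟩, hx⟩
            simp only [LinearMap.mem_ker, hf] at hx ⊢
            have := congrArg p hx
            simpa [hpi, hg'] using this)
        refine FP.mid i' p' ?_ ?_ ?_ hkA hkC
        · intro x y hxy
          apply Subtype.ext
          have := congrArg (fun z => (z.1).1) hxy
          simpa [i'] using this
        · rintro ⟨y, hy⟩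
          obtain ⟨z, hz⟩ := (he (- g y)).1 (by simpa [hg'] using hy)
          obtain ⟨x, rfl⟩ := hfA z
          exact ⟨⟨(x, y), by simp [LinearMap.mem_ker, hf, hz]⟩, rfl⟩
        · rintro ⟨⟨x, y⟩, hx⟩
          constructor
          · intro h0
            have hy : y = 0 := congrArg Subtype.val h0
            subst hy
            have hx' : fA x = 0 := by
              apply hi
              simpa [LinearMap.mem_ker, hf] using hx
            exact ⟨⟨x, hx'⟩, rfl⟩
          · rintro ⟨z, hz⟩
            rw [← hz]; rfl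

variable {A B C : Type} [AddCommGroup A] [Module R A]
    [AddCommGroup B] [Module R B] [AddCommGroup C] [Module R C]

theorem FP.right {n : ℕ} (i : A →ₗ[R] B) (p : B →ₗ[R] C) (hi : Injective i) (hp : Surjective p)
    (he : Function.Exact i p) (hA : FP R n A) (hB : FP R (n+1) B) : FP R (n+1) C := by
  obtain ⟨r, f, hf, hk⟩ := hB
  refine ⟨r, p ∘ₗ f, hp.comp hf, ?_⟩
  let i' : LinearMap.ker f →ₗ[R] LinearMap.ker (p ∘ₗ f) :=
    Submodule.inclusion (fun x hx => by simp [LinearMap.mem_ker.1 hx])
  let p' : LinearMap.ker (p ∘ₗ f) →ₗ[R] LinearMap.ker p :=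
    LinearMap.codRestrict _ (f ∘ₗ (LinearMap.ker (p ∘ₗ f)).subtype) (fun x => x.2)
  refine FP.mid i' p' (Submodule.inclusion_injective _) ?_ ?_ hk (hA.equiv (kerEquiv i p hi he))
  · rintro ⟨y, hy⟩
    obtain ⟨x, rfl⟩ := hf y
    exact ⟨⟨x, hy⟩, rfl⟩
  · rintro ⟨x, hx⟩
    constructor
    · intro h0
      exact ⟨⟨x, congrArg Subtype.val h0⟩, rfl⟩
    · rintro ⟨z, hz⟩
      rw [← hz]
      exact Subtype.ext z.2

theorem FP.right' {n : ℕ} (i : A →ₗ[R] B) (p : B →ₗ[R] C) (hi : Injective i) (hp : Surjective p)
    (he : Function.Exact i p) (hA : FP R n A) (hB : FP R n B) : FP R n C := by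
  cases n with
  | zero =>
    have : Module.Finite R _ := hB
    exact Module.Finite.of_surjective p hp
  | succ n => exact FP.right i p hi hp he hA.pred hB

theorem FP.prod {n : ℕ} (hA : FP R n A) (hB : FP R n B) : FP R n (A × B) :=
  FP.mid (LinearMap.inl R A B) (LinearMap.snd R A B) LinearMap.inl_injective
    LinearMap.snd_surjective (by
      rintro ⟨a, b⟩; simp [eq_comm]) hA hB

theorem FP.pi {n : ℕ} (hA : FP R n A) : ∀ r : ℕ, FP R n (Fin r → A)
  | 0 => FP.of_subsingleton n _
  | r+1 => (hA.prod (FP.pi hA r)).equiv (Fin.consLinearEquiv R (fun _ : Fin (r+1) => A))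

/-- Schanuel type lemma -/
theorem FP.left {n : ℕ} (i : A →ₗ[R] B) (p : B →ₗ[R] C) (hi : Injective i) (hp : Surjective p)
    (he : Function.Exact i p) (hC : FP R (n+1) C) (hB : FP R n B) : FP R n A := by
  obtain ⟨r, f, hf, hk⟩ := hC
  obtain ⟨g, hg⟩ := Module.projective_lifting_property p f hp
  have hg' : ∀ x, p (g x) = f x := fun x => by rw [← hg]; rfl
  have hpi : ∀ x, p (i x) = 0 := fun x => (he _).2 ⟨x, rfl⟩
  -- the module `A × F` surjects on `B` with kernel `ker f`
  let q : (A × (Fin r → R)) →ₗ[R] B := LinearMap.coprod i g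
  have hq : ∀ x y, q (x, y) = i x + g y := fun x y => rfl
  let e := kerEquiv i p hi he
  have he' : ∀ z : LinearMap.ker p, i (e.symm z) = z := fun z => by
    have : ((e (e.symm z) : LinearMap.ker p) : B) = i (e.symm z) := rfl
    rw [← this]; simp
  let j0 : LinearMap.ker f →ₗ[R] LinearMap.ker p :=
    LinearMap.codRestrict _ (g ∘ₗ (LinearMap.ker f).subtype) (fun x => by
      have := x.2
      simp only [LinearMap.mem_ker] at this ⊢
      simp [hg', this])
  let j : LinearMap.ker f →ₗ[R] (A × (Fin r → R)) :=
    LinearMap.prod (-(e.symm.toLinearMap ∘ₗ j0)) (LinearMap.ker f).subtype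
  have hP : FP R n (A × (Fin r → R)) := by
    refine FP.mid j q ?_ ?_ ?_ hk hB
    · intro x y hxy
      exact Subtype.ext (congrArg Prod.snd hxy)
    · intro b
      obtain ⟨y, hy⟩ := hf (p b)
      obtain ⟨z, hz⟩ := (he (b - g y)).1 (by simp [hg', hy])
      exact ⟨(z, y), by rw [hq, hz]; abel⟩
    · rintro ⟨x, y⟩
      constructor
      · intro h0
        rw [hq] at h0
        have hy : f y = 0 := by simpa [hpi, hg'] using congrArg p h0
        refine ⟨⟨y, hy⟩, Prod.ext ?_ rfl⟩
        apply hi
        show i (-(e.symm (j0 ⟨y, hy⟩))) = i x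
        rw [map_neg, he']
        exact neg_eq_of_add_eq_zero_left h0
      · rintro ⟨z, hz⟩
        rw [← hz]
        show i (-(e.symm (j0 z))) + g z = 0
        rw [map_neg, he']
        exact neg_add_cancel _
  exact FP.right' (LinearMap.inr R A (Fin r → R)) (LinearMap.fst R A (Fin r → R))
    LinearMap.inr_injective LinearMap.fst_surjective (by rintro ⟨a, b⟩; simp [eq_comm])
    (FP.free n _) hP

end ses

section rings

/-- change of rings: if `S` is FP_n over `R`, every FP_n module over `S` is FP_n over `R` -/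
theorem FP.restrict {R S : Type} [Ring R] [Ring S] [Module R S] [IsScalarTower R S S] :
    ∀ {n : ℕ} (_ : FP R n S) {M : Type} [AddCommGroup M] [Module R M] [Module S M]
      [IsScalarTower R S M], FP S n M → FP R n M
  | 0, hS, M, _, _, _, _, h => by
      have : Module.Finite R S := hS
      have : Module.Finite S M := h
      exact Module.Finite.trans S M
  | n+1, hS, M, _, _, _, _, h => by
      obtain ⟨r, f, hf, hk⟩ := h
      have h1 : FP R n (LinearMap.ker f) := FP.restrict hS.pred hk
      exact FP.right (((LinearMap.ker f).subtype).restrictScalars R) (f.restrictScalars R)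
        Subtype.val_injective hf (fun x => by simp) h1 (hS.pi r)

variable {R S : Type} [Ring R] [Ring S] (ι : R →+* S)

/-- extension of a submodule of a free module along a ring map -/
def extSub {r : ℕ} (K : Submodule R (Fin r → R)) : Submodule S (Fin r → S) :=
  Submodule.span S ((fun v : Fin r → R => fun j => ι (v j)) '' K)

/-- equational flatness -/
def IsFlat : Prop := ∀ (s r : ℕ) (d : Fin s → Fin r → R) (w : Fin s → S),
  (∀ j, ∑ i, w i * ι (d i j) = 0) →
    w ∈ Submodule.span S ((fun v : Fin s → R => fun j => ι (v j)) ''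
      {v | ∀ j, ∑ i, v i * d i j = 0})

theorem FP.ext (hι : IsFlat ι) : ∀ {n r : ℕ} (K : Submodule R (Fin r → R)),
    FP R n K → FP S n (extSub ι K)
  | 0, r, K, h => by
      have h1 : K.FG := Module.Finite.iff_fg.1 h
      obtain ⟨T, hT⟩ := h1
      classical
      refine Module.Finite.iff_fg.2 ⟨T.image (fun v j => ι (v j)), ?_⟩
      apply le_antisymm
      · apply Submodule.span_mono
        intro x hx
        simp only [Finset.coe_image, Set.mem_image] at hx ⊢
        obtain ⟨v, hv, rfl⟩ := hx
        exact ⟨v, hT ▸ Submodule.subset_span hv, rfl⟩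
      · rw [extSub, Submodule.span_le]
        rintro _ ⟨v, hv, rfl⟩
        rw [← hT] at hv
        induction hv using Submodule.span_induction with
        | mem x hx => exact Submodule.subset_span (by simp; exact ⟨x, hx, rfl⟩)
        | zero =>
          have : (fun j => ι ((0 : Fin r → R) j)) = 0 := by ext j; simp
          simp only [this]; exact Submodule.zero_mem _
        | add x y _ _ hx hy =>
          have : (fun j => ι ((x + y) j)) = (fun j => ι (x j)) + (fun j => ι (y j)) := by
            ext j; simp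
          simp only [this]; exact Submodule.add_mem _ hx hy
        | smul a x _ hx =>
          have : (fun j => ι ((a • x) j)) = ι a • (fun j => ι (x j)) := by ext j; simp
          simp only [this]; exact Submodule.smul_mem _ (ι a) hx
  | n+1, r, K, h => by
      classical
      obtain ⟨s, f, hf, hk⟩ := h
      let d : Fin s → Fin r → R := fun i => (f (Pi.single i 1) : Fin r → R)
      have hfd : ∀ v : Fin s → R, (f v : Fin r → R) = fun j => ∑ i, v i * d i j := by
        intro v
        conv_lhs => rw [show v = ∑ i, v i • (Pi.single i 1 : Fin s → R) by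
          ext j; simp [Finset.sum_apply, Pi.single_apply]]
        ext j
        simp [d, map_sum, Finset.sum_apply]
      let f' : (Fin s → S) →ₗ[S] (Fin r → S) :=
        { toFun := fun w j => ∑ i, w i * ι (d i j)
          map_add' := fun x y => by ext j; simp [add_mul, Finset.sum_add_distrib]
          map_smul' := fun a x => by ext j; simp [Finset.mul_sum, mul_assoc] }
      have hf' : ∀ w j, f' w j = ∑ i, w i * ι (d i j) := fun _ _ => rfl
      have hmem : ∀ w, f' w ∈ extSub ι K := by
        intro w
        have : f' w = ∑ i, w i • (fun j => ι (d i j)) := by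
          ext j; simp [hf', Finset.sum_apply]
        rw [this]
        refine Submodule.sum_mem _ fun i _ => Submodule.smul_mem _ _ ?_
        exact Submodule.subset_span ⟨d i, (f (Pi.single i 1)).2, rfl⟩
      refine ⟨s, LinearMap.codRestrict _ f' hmem, ?_, ?_⟩
      · rintro ⟨x, hx⟩
        have : x ∈ LinearMap.range f' := by
          refine (Submodule.span_le.2 ?_ : extSub ι K ≤ LinearMap.range f') hx
          rintro _ ⟨v, hv, rfl⟩
          obtain ⟨u, hu⟩ := hf ⟨v, hv⟩
          refine ⟨fun i => ι (u i), ?_⟩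
          have h2 : v = fun j => ∑ i, u i * d i j := by rw [← hfd, hu]
          ext j
          rw [hf', h2]; simp
        obtain ⟨w, hw⟩ := this
        exact ⟨w, Subtype.ext hw⟩
      · refine (FP.ext hι _ hk).equiv (LinearEquiv.ofEq _ _ ?_)
        rw [LinearMap.ker_codRestrict]
        apply le_antisymm
        · rw [extSub, Submodule.span_le]
          rintro _ ⟨v, hv, rfl⟩
          have h2 : (f v : Fin r → R) = 0 := by rw [LinearMap.mem_ker.1 hv]; rfl
          rw [hfd] at h2
          show f' _ = 0
          ext j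
          have := congrArg ι (congrFun h2 j)
          simpa [hf'] using this
        · intro w hw
          refine Submodule.span_mono ?_ (hι s r d w fun j => congrFun (LinearMap.mem_ker.1 hw) j)
          rintro _ ⟨v, hv, rfl⟩
          refine ⟨v, ?_, rfl⟩
          show f v = 0
          apply Subtype.ext
          rw [hfd]; ext j; exact hv j

end rings

section matrices
variable {R : Type} [Ring R]

theorem FP.exists_matrices : ∀ (m r0 : ℕ) (K : Submodule R (Fin r0 → R)), FP R m K →
    ∃ (r : ℕ → ℕ) (d0 : Matrix (Fin (r 0)) (Fin r0) R)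
      (d : ∀ i : ℕ, Matrix (Fin (r (i + 1))) (Fin (r i)) R),
      (∀ v, v ∈ K ↔ ∃ w, Matrix.vecMul w d0 = v) ∧
      (1 ≤ m → ∀ v, Matrix.vecMul v d0 = 0 ↔ ∃ w, Matrix.vecMul w (d 0) = v) ∧
      (∀ i, i + 2 ≤ m → ∀ v, Matrix.vecMul v (d i) = 0 ↔ ∃ w, Matrix.vecMul w (d (i+1)) = v) := by
  have key : ∀ (r0 s : ℕ) (K : Submodule R (Fin r0 → R)) (f : (Fin s → R) →ₗ[R] K),
      ∃ d0 : Matrix (Fin s) (Fin r0) R, ∀ v, Matrix.vecMul v d0 = (f v : Fin r0 → R) := by
    intro r0 s K f
    classical
    refine ⟨fun i => (f (Pi.single i 1) : Fin r0 → R), fun v => ?_⟩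
    conv_rhs => rw [show v = ∑ i, v i • (Pi.single i 1 : Fin s → R) by
      ext j; simp [Finset.sum_apply, Pi.single_apply]]
    ext j
    simp [Matrix.vecMul, dotProduct, map_sum, Finset.sum_apply]
  intro m
  induction m with
  | zero =>
    intro r0 K h
    have : Module.Finite R K := h
    obtain ⟨s, f, hf⟩ := Module.Finite.exists_fin' R K
    obtain ⟨d0, hd0⟩ := key r0 s K f
    refine ⟨fun _ => s, d0, fun _ => 0, fun v => ?_, by omega, fun i hi => by omega⟩
    constructor
    · intro hv
      obtain ⟨w, hw⟩ := hf ⟨v, hv⟩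
      exact ⟨w, by rw [hd0, hw]⟩
    · rintro ⟨w, rfl⟩
      rw [hd0]; exact (f w).2
  | succ m ih =>
    intro r0 K h
    obtain ⟨s, f, hf, hk⟩ := h
    obtain ⟨d0, hd0⟩ := key r0 s K f
    obtain ⟨r, e0, e, h1, h2, h3⟩ := ih s _ hk
    refine ⟨fun i => match i with | 0 => s | i+1 => r i, d0,
      fun i => match i with | 0 => e0 | i+1 => e i, fun v => ?_, fun _ v => ?_, fun i hi v => ?_⟩
    · constructor
      · intro hv
        obtain ⟨w, hw⟩ := hf ⟨v, hv⟩
        exact ⟨w, by rw [hd0, hw]⟩
      · rintro ⟨w, rfl⟩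
        rw [hd0]; exact (f w).2
    · rw [hd0]
      refine Iff.trans ?_ (h1 v)
      simp [LinearMap.mem_ker]
    · cases i with
      | zero => exact h2 (by omega) v
      | succ i => exact h3 i (by omega) v

theorem FP.of_matrices (r : ℕ → ℕ) (d : ∀ i : ℕ, Matrix (Fin (r (i + 1))) (Fin (r i)) R) (n : ℕ)
    (h : ∀ i, i + 1 < n → ∀ v, Matrix.vecMul v (d i) = 0 ↔ ∃ w, Matrix.vecMul w (d (i+1)) = v) :
    ∀ m i, m + i + 1 = n → FP R m (LinearMap.range (Matrix.vecMulLinear (d i))) := by
  intro m
  induction m with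
  | zero =>
    intro i _
    exact (inferInstance : Module.Finite R (LinearMap.range (Matrix.vecMulLinear (d i))))
  | succ m ih =>
    intro i hi
    refine ⟨_, (Matrix.vecMulLinear (d i)).rangeRestrict, LinearMap.surjective_rangeRestrict _, ?_⟩
    refine (ih (i+1) (by omega)).equiv (LinearEquiv.ofEq _ _ ?_)
    ext v
    simp only [LinearMap.mem_range, LinearMap.ker_rangeRestrict, LinearMap.mem_ker,
      Matrix.vecMulLinear_apply]
    exact (h i (by omega) v).symm

end matrices

end Pool.Agent.Lib.Brown
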