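import Pool.Agent.Lib.Brown.Homol

/-! Brown's criterion for finite presentability. -/

set_option autoImplicit false

namespace Pool.Agent.Lib.Brown

open Function

variable {G : Type} [Group G]

abbrev FPr (G : Type) [Group G] : Prop := Group.IsFinitelyPresented G

theorem FPr.fg (h : FPr G) : Group.FG G := by
  obtain ⟨n, φ, hφ, -⟩ := h
  exact Group.fg_of_surjective hφ

theorem FPr.retract {P : Type} [Group P] (h : FPr P) (θ : P →* G) (s : G →* P)
    (hs : ∀ g, θ (s g) = g) : FPr G := by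
  obtain ⟨T, hT, hfin⟩ := Group.fg_iff.1 h.fg
  refine Group.IsFinitelyPresented.of_surjective θ (fun g => ⟨s g, hs g⟩)
    ⟨(fun x => x⁻¹ * s (θ x)) '' T, hfin.image _, le_antisymm ?_ ?_⟩
  · refine Subgroup.normalClosure_le_normal ?_
    rintro _ ⟨x, _, rfl⟩
    simp [hs]
  · intro x hx
    set N := Subgroup.normalClosure ((fun x => x⁻¹ * s (θ x)) '' T)
    have : QuotientGroup.mk' N = (QuotientGroup.mk' N).comp (s.comp θ) :=
      MonoidHom.eq_of_eqOn_dense hT fun y hy =>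
        QuotientGroup.eq.2 (Subgroup.subset_normalClosure ⟨y, hy, rfl⟩)
    have h2 := DFunLike.congr_fun this x
    simp only [MonoidHom.comp_apply, MonoidHom.mem_ker.1 hx, map_one] at h2
    exact (QuotientGroup.eq_one_iff x).1 h2

theorem exists_cover {ι : Type} (K : ι → Subgroup G) (Γ0 : Set G) (hΓ : Γ0.Finite) (s : Set ι)
    (hs : s.Finite) (hK : ∀ i ∈ s, FPr (K i)) :
    ∃ (P : Type) (_ : Group P) (θ : P →* G) (j : ι → G → P) (L : G → P), FPr P ∧
      (∀ i ∈ s, (∀ a ∈ K i, ∀ b ∈ K i, j i (a * b) = j i a * j i b) ∧ ∀ a ∈ K i, θ (j i a) = a) ∧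
      ∀ γ ∈ Γ0, θ (L γ) = γ := by
  classical
  induction s, hs using Set.Finite.induction_on with
  | empty =>
    have := hΓ.to_subtype
    exact ⟨FreeGroup Γ0, inferInstance, FreeGroup.lift Subtype.val, fun _ _ => 1,
      fun γ => if h : γ ∈ Γ0 then FreeGroup.of ⟨γ, h⟩ else 1, inferInstance, by simp,
      fun γ hγ => by simp [hγ]⟩
  | @insert i s _ _ ih =>
    obtain ⟨P, _, θ, j, L, hP, h1, h2⟩ := ih fun i hi => hK i (Set.mem_insert_of_mem _ hi)
    have := hK i (Set.mem_insert _ _)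
    refine ⟨Monoid.Coprod P (K i), inferInstance, Monoid.Coprod.lift θ (K i).subtype,
      fun i' a => if i' = i then (if h : a ∈ K i then Monoid.Coprod.inr ⟨a, h⟩ else 1)
        else Monoid.Coprod.inl (j i' a), fun γ => Monoid.Coprod.inl (L γ), inferInstance, ?_,
      fun γ hγ => by simpa using h2 γ hγ⟩
    intro i' hi'
    by_cases h : i' = i
    · subst h
      refine ⟨fun a ha b hb => ?_, fun a ha => by simp [ha]⟩
      simp only [if_true, ha, hb, mul_mem ha hb, dif_pos, ← map_mul]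
      rfl
    · obtain ⟨h3, h4⟩ := h1 i' (hi'.resolve_left h)
      exact ⟨fun a ha b hb => by simp [h, h3 a ha b hb], fun a ha => by simp [h, h4 a ha]⟩

theorem exists_quot {P : Type} [Group P] (hP : FPr P) (θ : P →* G) (T : Set P) (hT : T.Finite)
    (hθ : ∀ t ∈ T, θ t = 1) : ∃ (P' : Type) (_ : Group P') (π : P →* P') (θ' : P' →* G), FPr P' ∧
      (∀ x, θ' (π x) = θ x) ∧ ∀ t ∈ T, π t = 1 := by
  refine ⟨P ⧸ Subgroup.normalClosure T, inferInstance, QuotientGroup.mk' _,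
    QuotientGroup.lift _ θ (fun x hx => (Subgroup.normalClosure_le_normal (N := θ.ker) hθ) hx),
    Group.IsFinitelyPresented.quotient _ ⟨T, hT, rfl⟩, fun x => rfl, fun t ht =>
      (QuotientGroup.eq_one_iff t).2 (Subgroup.subset_normalClosure ht)⟩

/-- Brown's criterion for finite presentability -/
theorem brown_fpr {V : Type} [MulAction G V] (R : V → V → Prop) [RS R] (S : Set V)
    (hS : ∀ (g : G), ∀ x ∈ S, g • x ∈ S) (hR : ∀ (g : G) x y, R x y → R (g • x) (g • y))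
    (hne : S.Nonempty) (hcn : ∀ (α : Type) (F : V → α), (∀ x ∈ S, ∀ y ∈ S, R x y → F x = F y) →
      ∀ x ∈ S, ∀ y ∈ S, F x = F y) (hsc : SC R S) (V0 : Finset V)
    (hV0 : ∀ x ∈ S, ∀ y ∈ S, ∀ z ∈ S, R x y → R y z → R x z →
      ∃ g : G, g • x ∈ V0 ∧ g • y ∈ V0 ∧ g • z ∈ V0)
    (hv : ∀ x ∈ S, FPr (MulAction.stabilizer G x))
    (he : ∀ x ∈ S, ∀ y ∈ S, R x y → (MulAction.stabilizer G x ⊓ MulAction.stabilizer G y).FG) :
    FPr G := by
  classical
  have rf := @RS.refl _ R _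
  have sy := @RS.symm _ R _
  -- orbit representatives
  obtain ⟨r, g, hg, hr⟩ : ∃ (r : V → V) (g : V → G), (∀ x, g x • r x = x) ∧
      ∀ (c : G) x, r (c • x) = r x := by
    have h1 : ∀ x : V, ∃ c : G, c • (Quotient.mk (MulAction.orbitRel G V) x).out = x := fun x =>
      MulAction.orbitRel_apply.1 (Quotient.exact (Quotient.out_eq _).symm)
    choose g hg using h1
    refine ⟨_, g, hg, fun c x => congrArg Quotient.out (Quotient.sound ?_)⟩
    exact MulAction.orbitRel_apply.2 (MulAction.mem_orbit x c)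
  have hr' : ∀ x, r x = (g x)⁻¹ • x := fun x => by rw [eq_inv_smul_iff, hg]
  have hrr : ∀ x, r (r x) = r x := fun x => by conv_lhs => rw [hr' x, hr]
  obtain ⟨e, a, ha, hav, hee⟩ : ∃ (e : V → V → V) (a : V → V → G), (∀ v y, a v y • e v y = y) ∧
      (∀ v y, a v y • v = v) ∧ ∀ v (b : G) y, b • v = v → e v (b • y) = e v y := by
    have h1 : ∀ v y : V, ∃ c : MulAction.stabilizer G v,
        c • (Quotient.mk (MulAction.orbitRel (MulAction.stabilizer G v) V) y).out = y :=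
      fun v y => MulAction.orbitRel_apply.1 (Quotient.exact (Quotient.out_eq _).symm)
    choose a ha using h1
    refine ⟨_, fun v y => a v y, ha, fun v y => (a v y).2, fun v b y hb =>
      congrArg Quotient.out (Quotient.sound ?_)⟩
    exact MulAction.orbitRel_apply.2 (MulAction.mem_orbit y (⟨b, hb⟩ : MulAction.stabilizer G v))
  have he' : ∀ v y, e v y = (a v y)⁻¹ • y := fun v y => by rw [eq_inv_smul_iff, ha]
  have hre : ∀ v y, r (e v y) = r y := fun v y => by rw [he', hr]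
  let Rep : Set V := {v | v ∈ S ∧ r v = v}
  have hrRep : ∀ x ∈ S, r x ∈ Rep := fun x hx => ⟨by rw [hr']; exact hS _ _ hx, hrr x⟩
  have hnorm : ∀ v ∈ Rep, ∀ k : G, ((g (k • v))⁻¹ * k) • v = v := fun v hv k => by
    rw [mul_smul, ← hr', hr, hv.2]
  have hRepfin : Rep.Finite := by
    refine (V0.finite_toSet.image r).subset fun v hv => ?_
    obtain ⟨k, hk, -⟩ := hV0 v hv.1 v hv.1 v hv.1 (rf _) (rf _) (rf _)
    exact ⟨_, hk, by rw [hr, hv.2]⟩
  let Ed : Set (V × V) := {p | p.1 ∈ Rep ∧ ∃ y ∈ S, R p.1 y ∧ p.2 = e p.1 y}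
  have hEdfin : Ed.Finite := by
    refine ((V0.finite_toSet.prod V0.finite_toSet).image
      fun p => (r p.1, e (r p.1) ((g p.1)⁻¹ • p.2))).subset ?_
    rintro ⟨v, u⟩ ⟨hv, y, hy, hvy, hu⟩
    obtain rfl : u = e v y := hu
    obtain ⟨k, hk, hk', -⟩ := hV0 v hv.1 y hy y hy hvy (rf _) hvy
    refine ⟨(k • v, k • y), ⟨hk, hk'⟩, ?_⟩
    simp only [hr, hv.2, Prod.mk.injEq, true_and]
    rw [← mul_smul, hee v _ y (hnorm v hv k)]
  have hEdS : ∀ p ∈ Ed, p.2 ∈ S ∧ R p.1 p.2 := by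
    rintro ⟨v, u⟩ ⟨hv, y, hy, hvy, hu⟩
    obtain rfl : u = e v y := hu
    simp only [he']
    refine ⟨hS _ _ hy, ?_⟩
    have := hR (a v y)⁻¹ v y hvy
    rwa [inv_smul_eq_iff.2 (hav v y).symm] at this
  obtain ⟨P, _, θ, j, L, hP, hj, hL⟩ := exists_cover (fun v => MulAction.stabilizer G v)
    ((fun p => g p.2) '' Ed) (hEdfin.image _) Rep hRepfin (fun v hv' => hv v hv'.1)
  have hgen : ∀ p ∈ Ed, ∃ T : Set G, Subgroup.closure T =
      MulAction.stabilizer G p.1 ⊓ MulAction.stabilizer G p.2 ∧ T.Finite := fun p hp =>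
    (Subgroup.fg_iff _).1 (he p.1 hp.1.1 p.2 (hEdS p hp).1 (hEdS p hp).2)
  choose! gen hgen hgenfin using hgen
  let Wt : V → G → V → P := fun v c v' => j v (a v (c • v')) * L (g (e v (c • v'))) *
    j v' ((g (e v (c • v')))⁻¹ * (a v (c • v'))⁻¹ * c)
  have hmem : ∀ v (c : G), ∀ v' ∈ Rep,
      ((g (e v (c • v')))⁻¹ * (a v (c • v'))⁻¹ * c) • v' = v' := by
    intro v c v' hv'
    rw [mul_smul, mul_smul, ← he', ← hr', hre, hr, hv'.2]
  have hW0 : ∀ v ∈ Rep, ∀ (c : G), ∀ v' ∈ Rep, R v (c • v') → θ (Wt v c v') = c := by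
    intro v hv c v' hv' hvc
    simp only [Wt, map_mul]
    rw [(hj v hv).2 _ (hav _ _), (hj v' hv').2 _ (hmem v c v' hv'),
      hL _ ⟨(v, _), ⟨hv, _, hS c _ hv'.1, hvc, rfl⟩, rfl⟩]
    group
  let Tri : Set (V × V × V) := {t | t.1 ∈ Rep ∧ t.2.1 ∈ S ∧ t.2.2 ∈ S ∧ R t.1 t.2.1 ∧
    R t.2.1 t.2.2 ∧ R t.1 t.2.2 ∧ ∃ v0 ∈ V0, g v0 • t.2.1 ∈ V0 ∧ g v0 • t.2.2 ∈ V0}
  have hTrifin : Tri.Finite := by
    refine (hRepfin.prod (((V0.finite_toSet.prod V0.finite_toSet).image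
      fun p => (g p.1)⁻¹ • p.2).prod ((V0.finite_toSet.prod V0.finite_toSet).image
      fun p => (g p.1)⁻¹ • p.2))).subset ?_
    rintro ⟨v, y, z⟩ ⟨h1, -, -, -, -, -, v0, h2, h3, h4⟩
    exact ⟨h1, ⟨(v0, _), ⟨h2, h3⟩, by simp⟩, ⟨(v0, _), ⟨h2, h4⟩, by simp⟩⟩
  have hconj : ∀ p ∈ Ed, ∀ s : G, s • p.2 = p.2 → ((g p.2)⁻¹ * s * g p.2) • r p.2 = r p.2 := by
    intro p _ s hs
    rw [mul_smul, hg, mul_smul, hs, hr']
  obtain ⟨P', _, π, θ', hP', hθ', hπ⟩ := exists_quot hP θ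
    ((⋃ p ∈ Ed, (fun s => j p.1 s * L (g p.2) * (L (g p.2) * j (r p.2)
      ((g p.2)⁻¹ * s * g p.2))⁻¹) '' gen p) ∪
      (fun t => Wt t.1 (g t.2.1) (r t.2.1) * Wt (r t.2.1) ((g t.2.1)⁻¹ * g t.2.2) (r t.2.2) *
        (Wt t.1 (g t.2.2) (r t.2.2))⁻¹) '' Tri)
    ((hEdfin.biUnion fun p hp => (hgenfin p hp).image _).union (hTrifin.image _)) (by
      rintro _ (h | ⟨⟨v, y, z⟩, ⟨h1, h2, h3, h4, h5, h6, -⟩, rfl⟩)
      · simp only [Set.mem_iUnion] at h
        obtain ⟨p, hp, s, hs, rfl⟩ := h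
        have hs' : s ∈ MulAction.stabilizer G p.1 ⊓ MulAction.stabilizer G p.2 :=
          hgen p hp ▸ Subgroup.subset_closure hs
        simp only [map_mul, map_inv]
        rw [(hj _ hp.1).2 _ hs'.1, (hj _ (hrRep _ (hEdS p hp).1)).2 _ (hconj p hp s hs'.2),
          hL _ ⟨p, hp, rfl⟩]
        group
      · simp only [map_mul, map_inv]
        rw [hW0 _ h1 _ _ (hrRep _ h2) (by rwa [hg]), hW0 _ h1 _ _ (hrRep _ h3) (by rwa [hg]),
          hW0 _ (hrRep _ h2) _ _ (hrRep _ h3) (by rw [mul_smul, hg, hr']; exact hR _ _ _ h5)]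
        group)
  have hj1 : ∀ v ∈ Rep, j v 1 = 1 := fun v hv => by
    have := (hj v hv).1 1 (one_mem _) 1 (one_mem _)
    simpa using this
  have hedge : ∀ p ∈ Ed, ∀ s : G, s • p.1 = p.1 → s • p.2 = p.2 →
      π (j p.1 s) * π (L (g p.2)) = π (L (g p.2)) * π (j (r p.2) ((g p.2)⁻¹ * s * g p.2)) := by
    intro p hp s h1 h2
    have hs : s ∈ Subgroup.closure (gen p) := by rw [hgen p hp]; exact ⟨h1, h2⟩
    have hrp := hrRep _ (hEdS p hp).1
    clear h1 h2
    have hmul : ∀ x y, x ∈ Subgroup.closure (gen p) → y ∈ Subgroup.closure (gen p) →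
        π (j p.1 (x * y)) = π (j p.1 x) * π (j p.1 y) ∧
        π (j (r p.2) ((g p.2)⁻¹ * (x * y) * g p.2)) = π (j (r p.2) ((g p.2)⁻¹ * x * g p.2)) *
          π (j (r p.2) ((g p.2)⁻¹ * y * g p.2)) := by
      intro x y hx hy
      rw [hgen p hp] at hx hy
      rw [← map_mul, ← map_mul, ← (hj _ hp.1).1 x hx.1 y hy.1,
        ← (hj _ hrp).1 _ (hconj p hp x hx.2) _ (hconj p hp y hy.2)]
      exact ⟨rfl, by congr 2; group⟩
    induction hs using Subgroup.closure_induction with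
    | mem s hs =>
      have := hπ _ (Or.inl (Set.mem_biUnion hp ⟨s, hs, rfl⟩))
      simpa [mul_inv_eq_one, ← mul_assoc, mul_inv_eq_iff_eq_mul] using this
    | one => simp [hj1 _ hp.1, hj1 _ hrp]
    | mul x y hx hy ihx ihy =>
      rw [(hmul x y hx hy).1, (hmul x y hx hy).2, mul_assoc, ihy, ← mul_assoc, ihx, mul_assoc]
    | inv x hx ih =>
      obtain ⟨h1, h2⟩ := hmul x⁻¹ x (inv_mem hx) hx
      simp only [inv_mul_cancel, hj1 _ hp.1, map_one, mul_one, hj1 _ hrp] at h1 h2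
      rw [eq_inv_of_mul_eq_one_left h1.symm, eq_inv_of_mul_eq_one_left h2.symm,
        inv_mul_eq_iff_eq_mul, ← mul_assoc, ih]
      simp
  let W : V → G → V → P' := fun v c v' => π (Wt v c v')
  have hW1 : ∀ v (c : G), ∀ v' ∈ Rep, ∀ b : G, b • v' = v' →
      W v (c * b) v' = W v c v' * π (j v' b) := by
    intro v c v' hv' b hb
    simp only [W, Wt, mul_smul, hb, ← map_mul]
    rw [mul_assoc _ _ (j v' b), ← (hj v' hv').1 _ (hmem v c v' hv') b hb]
    congr 3; group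
  have hW2 : ∀ v ∈ Rep, ∀ (c : G), ∀ v' ∈ Rep, R v (c • v') → ∀ b : G, b • v = v →
      W v (b * c) v' = π (j v b) * W v c v' := by
    intro v hv c v' hv' hvc b hb
    have hp : (v, e v (c • v')) ∈ Ed := ⟨hv, _, hS c _ hv'.1, hvc, rfl⟩
    have h1 : ((a v (b • c • v'))⁻¹ * b * a v (c • v')) • v = v := by
      rw [mul_smul, hav, mul_smul, hb, inv_smul_eq_iff, hav]
    have h2 : ((a v (b • c • v'))⁻¹ * b * a v (c • v')) • e v (c • v') = e v (c • v') := by
      rw [mul_smul, ha, mul_smul, ← he', hee v b _ hb]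
    have h3 := hedge _ hp _ h1 h2
    simp only [hre, hr, hv'.2] at h3
    simp only [W, Wt, mul_smul, hee v b _ hb, map_mul]
    have h4 : π (j v b) * π (j v (a v (c • v'))) = π (j v (a v (b • c • v'))) *
        π (j v ((a v (b • c • v'))⁻¹ * b * a v (c • v'))) := by
      rw [← map_mul, ← map_mul, ← (hj v hv).1 _ hb _ (hav _ _), ← (hj v hv).1 _ (hav _ _) _ h1]
      congr 2; group
    have h5 := hconj _ hp _ h2
    simp only [hre, hr, hv'.2] at h5
    have h6 := congrArg π ((hj v' hv').1 _ h5 _ (hmem v c v' hv'))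
    rw [map_mul] at h6
    rw [← mul_assoc (π (j v b)), ← mul_assoc (π (j v b)), h4,
      mul_assoc (π (j v (a v (b • c • v')))) _ (π (L _)), h3,
      ← mul_assoc (π (j v (a v (b • c • v')))), mul_assoc _ _ (π (j v' _)), mul_assoc _ _ (π (j v' _)),
      ← h6, mul_assoc (π (j v _))]
    congr 4; group
  have hT : ∀ v ∈ Rep, ∀ v' ∈ Rep, ∀ v'' ∈ Rep, ∀ c c' : G, R v (c • v') → R v' (c' • v'') →
      R v ((c * c') • v'') → W v c v' * W v' c' v'' = W v (c * c') v'' := by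
    intro v hv v' hv' v'' hv'' c c' h1 h2 h3
    have h2' : R (c • v') ((c * c') • v'') := by rw [mul_smul]; exact hR c _ _ h2
    obtain ⟨k, hk1, hk2, hk3⟩ := hV0 v hv.1 _ (hS c _ hv'.1) _ (hS (c * c') _ hv''.1) h1 h2' h3
    set b := (g (k • v))⁻¹ * k with hb
    have hbv : b • v = v := hnorm v hv k
    set y := b • c • v' with hy
    set z := b • (c * c') • v'' with hz
    have hry : r y = v' := by rw [hy, hr, hr, hv'.2]
    have hrz : r z = v'' := by rw [hz, hr, hr, hv''.2]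
    have hvy : R v y := by have := hR b _ _ h1; rwa [hbv] at this
    have hvz : R v z := by have := hR b _ _ h3; rwa [hbv] at this
    have hyz : R y z := hR b _ _ h2'
    have ht : (v, y, z) ∈ Tri := ⟨hv, hS _ _ (hS _ _ hv'.1), hS _ _ (hS _ _ hv''.1), hvy, hyz, hvz,
      k • v, hk1, by simpa [hy, hb, mul_smul] using hk2, by simpa [hz, hb, mul_smul] using hk3⟩
    have h4 := hπ _ (Or.inr ⟨_, ht, rfl⟩)
    simp only [map_mul, map_inv, mul_inv_eq_one, hry, hrz] at h4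
    change W v (g y) v' * W v' ((g y)⁻¹ * g z) v'' = W v (g z) v'' at h4
    have ha1 : ((g y)⁻¹ * (b * c)) • v' = v' := by rw [mul_smul, mul_smul, ← hy, ← hr', hry]
    have ha2 : ((g z)⁻¹ * (b * (c * c'))) • v'' = v'' := by
      rw [mul_smul, mul_smul, ← hz, ← hr', hrz]
    have e1 := hW1 v (g y) v' hv' _ ha1
    have e2 := hW1 v (g z) v'' hv'' _ ha2
    have e3 := hW1 v' ((g y)⁻¹ * g z) v'' hv'' _ ha2
    have e4 := hW2 v hv c v' hv' h1 b hbv
    have e5 := hW2 v hv (c * c') v'' hv'' h3 b hbv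
    have e6 := hW2 v' hv' c' v'' hv'' h2 _ ha1
    rw [mul_inv_cancel_left] at e1 e2
    rw [show (g y)⁻¹ * g z * ((g z)⁻¹ * (b * (c * c'))) = (g y)⁻¹ * (b * c) * c' by group] at e3
    apply mul_left_cancel (a := π (j v b))
    rw [← e5, ← mul_assoc, ← e4, e1, e2, mul_assoc, ← e6, e3, ← mul_assoc, h4]
  have hRr : ∀ x y, R x y → R (r x) (((g x)⁻¹ * g y) • r y) := fun x y h => by
    rw [mul_smul, hg, hr']; exact hR _ _ _ h
  obtain ⟨φ, hφ⟩ := hsc P' (fun x y => W (r x) ((g x)⁻¹ * g y) (r y)) (by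
    intro x hx y hy z hz hxy hyz hxz
    have := hT _ (hrRep x hx) _ (hrRep y hy) _ (hrRep z hz) _ _ (hRr x y hxy) (hRr y z hyz) (by
      rw [show (g x)⁻¹ * g y * ((g y)⁻¹ * g z) = (g x)⁻¹ * g z by group]; exact hRr x z hxz)
    rwa [show (g x)⁻¹ * g y * ((g y)⁻¹ * g z) = (g x)⁻¹ * g z by group] at this)
  let Φ : G → V → P' := fun c v => φ (c • v) * W v ((g (c • v))⁻¹ * c) v
  have hΦ : ∀ v ∈ Rep, ∀ v' ∈ Rep, ∀ c γ : G, R v (γ • v') →
      Φ c v * W v γ v' = Φ (c * γ) v' := by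
    intro v hv v' hv' c γ h
    have hxy : R (c • v) ((c * γ) • v') := by rw [mul_smul]; exact hR c _ _ h
    have h1 := hφ _ (hS c _ hv.1) _ (hS (c * γ) _ hv'.1) hxy
    have h2 := hRr _ _ hxy
    simp only [hr, hv.2, hv'.2] at h1 h2
    have h3 : R v (((g (c • v))⁻¹ * c * γ) • v') := by
      have := hR ((g (c • v))⁻¹ * c) _ _ h
      rwa [hnorm v hv c, ← mul_smul] at this
    simp only [Φ]
    rw [← h1, mul_assoc, mul_assoc, hT v hv v hv v' hv' _ _ (by rw [hnorm v hv c]; exact rf _) h h3,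
      hT v hv v' hv' v' hv' _ _ h2 (by rw [hnorm v' hv']; exact rf _)
        (by rw [mul_smul, hnorm v' hv']; exact h2)]
    congr 2; group
  obtain ⟨x0, hx0⟩ := hne
  have hv0 := hrRep x0 hx0
  set v0 := r x0
  have hκ : ∀ c γ : G, Φ (c * γ) v0 = Φ c v0 * (Φ 1 v0)⁻¹ * Φ γ v0 := by
    intro c γ
    have h1 := hcn P' (fun x => Φ (c * g x) (r x) * (Φ (g x) (r x))⁻¹) (fun x hx y hy hxy => by
      have e1 := hΦ _ (hrRep x hx) _ (hrRep y hy) (c * g x) _ (hRr x y hxy)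
      have e2 := hΦ _ (hrRep x hx) _ (hrRep y hy) (g x) _ (hRr x y hxy)
      rw [mul_assoc c, mul_inv_cancel_left] at e1
      rw [mul_inv_cancel_left] at e2
      simp only [← e1, ← e2]; group)
    have h2 : ∀ γ : G, Φ (c * g (γ • v0)) (r (γ • v0)) * (Φ (g (γ • v0)) (r (γ • v0)))⁻¹ =
        Φ (c * γ) v0 * (Φ γ v0)⁻¹ := by
      intro γ
      have hh : R v0 (((g (γ • v0))⁻¹ * γ) • v0) := by rw [hnorm v0 hv0]; exact rf _
      have e1 := hΦ _ hv0 _ hv0 (c * g (γ • v0)) _ hh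
      have e2 := hΦ _ hv0 _ hv0 (g (γ • v0)) _ hh
      rw [mul_assoc c, mul_inv_cancel_left] at e1
      rw [mul_inv_cancel_left] at e2
      rw [hr, hv0.2, ← e1, ← e2]; group
    have h3 := h1 _ (hS γ _ hv0.1) _ (hS 1 _ hv0.1)
    simp only [h2, mul_one] at h3
    rw [← h3]; group
  have hθΦ : ∀ c : G, θ' (Φ c v0) = θ' (φ x0) * (g x0)⁻¹ * c := by
    intro c
    have h1 := hcn G (fun x => θ' (φ x) * (g x)⁻¹) (fun x hx y hy hxy => by
      rw [← hφ x hx y hy hxy, map_mul, hθ', hW0 _ (hrRep x hx) _ _ (hrRep y hy) (hRr x y hxy)]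
      group) _ (hS c _ hv0.1) _ hx0
    simp only [Φ, map_mul, W, hθ']
    rw [hW0 _ hv0 _ _ hv0 (by rw [hnorm v0 hv0]; exact rf _), ← mul_assoc, h1]
  refine hP'.retract θ' (MonoidHom.mk' (fun c => (Φ 1 v0)⁻¹ * Φ c v0) fun c γ => ?_) fun c => ?_
  · rw [hκ]; group
  · simp only [MonoidHom.mk'_apply, map_mul, map_inv, hθΦ]; group

/-- a finitely presented group has a simply connected Rips complex -/
theorem FPr.rips (h : FPr G) : ∃ S : Set G, S.Finite ∧ 1 ∈ S ∧ (∀ s ∈ S, s⁻¹ ∈ S) ∧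
    Subgroup.closure S = ⊤ ∧ SC (fun a b : G => a⁻¹ * b ∈ S) Set.univ := by
  obtain ⟨k, φ, hφ, T, hT, hker⟩ := h
  obtain ⟨r, hr⟩ := (hT.image fun t => t.toWord.length).bddAbove
  let S : Set G := (fun L => φ (FreeGroup.mk L)) '' {L | L.length ≤ r + 1}
  have h1 : (1 : G) ∈ S := ⟨[], by simp, by simp [← FreeGroup.one_eq_mk]⟩
  have hinv : ∀ s ∈ S, s⁻¹ ∈ S := by
    rintro _ ⟨L, hL, rfl⟩
    exact ⟨FreeGroup.invRev L, by simpa using hL, by simp [← FreeGroup.inv_mk]⟩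
  have hof : ∀ x, φ (FreeGroup.of x) ∈ S := fun x => ⟨[(x, true)], by simp, rfl⟩
  refine ⟨S, (List.finite_length_le _ _).image _, h1, hinv, ?_, ?_⟩
  · rw [eq_top_iff]
    intro g _
    obtain ⟨u, rfl⟩ := hφ g
    induction u using FreeGroup.induction_on with
    | C1 => simp
    | of x => exact Subgroup.subset_closure (hof x)
    | inv_of x ih => rw [map_inv]; exact inv_mem (ih trivial)
    | mul x y hx hy => rw [map_mul]; exact mul_mem (hx trivial) (hy trivial)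
  intro Γ _ w hw
  have hw' : ∀ g s s' : G, s ∈ S → s' ∈ S → s * s' ∈ S →
      w g (g * s) * w (g * s) (g * s * s') = w g (g * s * s') := fun g s s' a b c =>
    hw _ trivial _ trivial _ trivial (by simpa using a) (by simpa [mul_assoc] using b)
      (by simpa [mul_assoc] using c)
  have hw1 : ∀ g, w g g = 1 := fun g => by simpa using hw' g 1 1 h1 h1 (by simpa using h1)
  have hw2 : ∀ g, ∀ s ∈ S, w g (g * s) * w (g * s) g = 1 := fun g s hs => by
    simpa [hw1] using hw' g s s⁻¹ hs (hinv s hs) (by simpa using h1)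
  let σ0 : Fin k → Equiv.Perm (G × Γ) := fun x =>
    { toFun := fun p => (p.1 * (φ (FreeGroup.of x))⁻¹, p.2 * w p.1 (p.1 * (φ (FreeGroup.of x))⁻¹))
      invFun := fun p => (p.1 * φ (FreeGroup.of x), p.2 * w p.1 (p.1 * φ (FreeGroup.of x)))
      left_inv := fun p => by
        simp [mul_assoc, hw2 p.1 _ (hinv _ (hof x))]
      right_inv := fun p => by
        simp [mul_assoc, hw2 p.1 _ (hof x)] }
  let σ : FreeGroup (Fin k) →* Equiv.Perm (G × Γ) := FreeGroup.lift σ0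
  have hone : ∀ (x : Fin k × Bool) (p : G × Γ), σ (FreeGroup.mk [x]) p =
      (p.1 * (φ (FreeGroup.mk [x]))⁻¹, p.2 * w p.1 (p.1 * (φ (FreeGroup.mk [x]))⁻¹)) := by
    rintro ⟨x, b⟩ p
    cases b
    · have : FreeGroup.mk [(x, false)] = (FreeGroup.of x)⁻¹ := rfl
      rw [this, map_inv, map_inv, inv_inv]
      simp only [σ, FreeGroup.lift_apply_of]
      rfl
    · have : FreeGroup.mk [(x, true)] = FreeGroup.of x := rfl
      rw [this]
      simp only [σ, FreeGroup.lift_apply_of]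
      rfl
  have hcons : ∀ (x : Fin k × Bool) L, FreeGroup.mk (x :: L) = FreeGroup.mk [x] * FreeGroup.mk L :=
    fun x L => by rw [FreeGroup.mul_mk]; rfl
  have hfst : ∀ L (p : G × Γ), (σ (FreeGroup.mk L) p).1 = p.1 * (φ (FreeGroup.mk L))⁻¹ := by
    intro L
    induction L with
    | nil => intro p; simp [← FreeGroup.one_eq_mk]
    | cons x L ih =>
      intro p
      rw [hcons, map_mul, map_mul, Equiv.Perm.mul_apply, hone, ih]; simp [mul_assoc]
  have hword : ∀ L : List (Fin k × Bool), L.length ≤ r + 1 → ∀ p : G × Γ,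
      σ (FreeGroup.mk L) p =
      (p.1 * (φ (FreeGroup.mk L))⁻¹, p.2 * w p.1 (p.1 * (φ (FreeGroup.mk L))⁻¹)) := by
    intro L
    induction L with
    | nil => intro _ p; simp [← FreeGroup.one_eq_mk, hw1]
    | cons x L ih =>
      intro hL p
      have hL' : L.length ≤ r + 1 := by simp at hL; omega
      have := hw' p.1 _ _ (hinv _ ⟨L, hL', rfl⟩) (hinv _ ⟨[x], by simp, rfl⟩) (by
        rw [← mul_inv_rev, ← map_mul, ← hcons]; exact hinv _ ⟨_, hL, rfl⟩)
      rw [hcons, map_mul, map_mul, Equiv.Perm.mul_apply, hone, ih hL']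
      simp only [mul_inv_rev, ← mul_assoc, ← this]
  have hle : φ.ker ≤ σ.ker := by
    rw [← hker]
    refine Subgroup.normalClosure_le_normal fun t ht => ?_
    have h0 : φ t = 1 := by rw [← MonoidHom.mem_ker, ← hker]; exact Subgroup.subset_normalClosure ht
    have := hword t.toWord ((hr ⟨t, ht, rfl⟩).trans (Nat.le_succ r))
    rw [FreeGroup.mk_toWord, h0] at this
    exact Equiv.ext fun p => by simp [this, hw1]
  choose u hu using hφ
  refine ⟨fun g => (σ (u g⁻¹) (1, 1)).2, fun g _ g' _ hgg => ?_⟩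
  obtain ⟨L, hL, hL'⟩ := hinv _ hgg
  have e : σ (u g'⁻¹) = σ (FreeGroup.mk L * u g⁻¹) := by
    rw [← mul_inv_eq_one, ← map_inv, ← map_mul]
    apply hle
    simp only at hL'
    rw [MonoidHom.mem_ker, map_mul, map_inv, map_mul, hu, hu, hL']; group
  have e2 : (σ (u g⁻¹) (1, 1)).1 = g := by
    rw [← FreeGroup.mk_toWord (x := u g⁻¹), hfst, FreeGroup.mk_toWord, hu]; simp
  simp only at hL' ⊢
  rw [e, map_mul, Equiv.Perm.mul_apply, hword L hL, e2, hL']
  simp

theorem FPr.of_hom {Γ Q : Type} [Group Γ] [Group Q] (φ : Γ →* Q) (Q0 : Finset Q)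
    (hQ0 : ∀ q, ∃ γ, φ γ * q ∈ Q0) (hk : FPr φ.ker) (hQ : FPr Q) : FPr Γ := by
  classical
  let _ : MulAction Γ Q := MulAction.compHom Q φ
  have hsm : ∀ (γ : Γ) (q : Q), γ • q = φ γ * q := fun _ _ => rfl
  obtain ⟨S, hS, h1, hinv, hgen, hsc⟩ := hQ.rips
  have : RS (fun a b : Q => a⁻¹ * b ∈ S) :=
    ⟨fun a => by simpa using h1, fun a b h => by simpa using hinv _ h⟩
  have hst : ∀ q : Q, MulAction.stabilizer Γ q = φ.ker := fun q => by
    ext γ
    rw [MulAction.mem_stabilizer_iff, MonoidHom.mem_ker]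
    exact mul_eq_right
  refine brown_fpr (fun a b : Q => a⁻¹ * b ∈ S) Set.univ (fun _ _ _ => trivial)
    (fun g x y h => by simpa [hsm, mul_assoc] using h) ⟨1, trivial⟩ ?_ hsc
    ((Q0 ×ˢ hS.toFinset).image fun p => p.1 * p.2) ?_ (fun x _ => by rwa [hst])
    (fun x _ y _ _ => by rw [hst, hst, inf_idem]; exact (Group.fg_iff_subgroup_fg _).1 hk.fg)
  · intro α F hF x _ y _
    have key : ∀ s ∈ Subgroup.closure S, ∀ x, F x = F (x * s) := by
      intro s hs
      induction hs using Subgroup.closure_induction with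
      | mem s hs => exact fun x => hF x trivial _ trivial (by simpa using hs)
      | one => simp
      | mul a b _ _ iha ihb => intro x; rw [← mul_assoc, ← ihb, ← iha]
      | inv a _ ih => intro x; rw [ih (x * a⁻¹)]; simp
    simpa using key (x⁻¹ * y) (by rw [hgen]; trivial) x
  · intro x _ y _ z _ hxy _ hxz
    obtain ⟨γ, hγ⟩ := hQ0 x
    refine ⟨γ, Finset.mem_image.2 ⟨(_, 1), by simpa using ⟨hγ, h1⟩, by simp [hsm]⟩,
      Finset.mem_image.2 ⟨(_, x⁻¹ * y), by simpa using ⟨hγ, hxy⟩, by simp [hsm, mul_assoc]⟩,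
      Finset.mem_image.2 ⟨(_, x⁻¹ * z), by simpa using ⟨hγ, hxz⟩, by simp [hsm, mul_assoc]⟩⟩

end Pool.Agent.Lib.Brown
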