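import Pool.Agent.Lib.Brown.Perm
import Pool.Agent.Lib.Brown.Conn

/-! Brown's criterion (homological form), change of groups, uniform filling in groups of
type FP, and the matrix form of type FP. -/

set_option autoImplicit false

namespace Pool.Agent.Lib.Brown

open Function

variable {G : Type} [Group G]

instance listAct {V : Type} [MulAction G V] : MulAction G (List V) where
  smul g l := l.map (g • ·)
  one_smul l := by show l.map _ = l; simp
  mul_smul a b l := by show l.map _ = (l.map _).map _; simp [mul_smul]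

section brown
variable {V : Type} [MulAction G V]

theorem smul_list (g : G) (l : List V) : g • l = l.map (g • ·) := rfl

theorem mem_stab_list {g : G} {l : List V} :
    g ∈ MulAction.stabilizer G l ↔ ∀ a ∈ l, g • a = a := by
  rw [MulAction.mem_stabilizer_iff, smul_list]
  induction l with
  | nil => simp
  | cons a l ih => simp [ih]

theorem og_smul_ch (g : G) (c : Ch V) : og g • toPM G c = toPM G (push (g • ·) c) := og_smul g c

/-- the boundary as a map of modules over the group ring -/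
noncomputable def bdG (G V : Type) [Group G] [MulAction G V] :
    PM G (List V) →ₗ[ZG G] PM G (List V) :=
  linOf bd.toAddMonoidHom (fun g c => by
    change bd (og g • toPM G c) = og g • toPM G (bd c)
    rw [og_smul_ch, og_smul_ch]; exact (push_bd _ _).symm)

theorem bdG_apply (c : Ch V) : bdG G V (toPM G c) = toPM G (bd c) := rfl

theorem finite_lists (V0 : Finset V) (j : ℕ) :
    {l : List V | l.length = j ∧ ∀ a ∈ l, a ∈ V0}.Finite := by
  refine ((List.finite_length_eq V0 j).image (List.map Subtype.val)).subset ?_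
  rintro l ⟨h1, h2⟩
  exact ⟨l.attachWith _ h2, by simpa using h1, by simp⟩

theorem sx_smul {R : V → V → Prop} {S : Set V} (hS : ∀ (g : G), ∀ x ∈ S, g • x ∈ S)
    (hR : ∀ (g : G) x y, R x y → R (g • x) (g • y)) (g : G) {l : List V} (hl : Sx R S l) :
    Sx R S (g • l) := by
  intro a ha
  obtain ⟨a, ha', rfl⟩ := List.mem_map.1 ha
  refine ⟨hS g a (hl a ha').1, fun b hb => ?_⟩
  obtain ⟨b, hb', rfl⟩ := List.mem_map.1 hb
  exact hR g a b ((hl a ha').2 b hb')

theorem eq_smul_nil {W : Type} {x : Ch W} (hx : x ∈ Sup fun l => l.length = 0) :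
    ∃ k : ℤ, k • sg [] = x := by
  refine ⟨x [], map_eq (LinearMap.toSpanSingleton ℤ _ (sg []) ∘ₗ Finsupp.lapply []) LinearMap.id
    (fun l hl => ?_) hx⟩
  obtain rfl : l = [] := List.length_eq_zero_iff.1 hl
  simp [sg]

/-- Brown's criterion, homological form -/
theorem brown_fp (R : V → V → Prop) (S : Set V) (hS : ∀ (g : G), ∀ x ∈ S, g • x ∈ S)
    (hR : ∀ (g : G) x y, R x y → R (g • x) (g • y)) (n : ℕ) (hac : ∀ j ≤ n + 1, Acyc R S j)
    (V0 : Finset V) (hV0 : ∀ l, Sx R S l → l.length ≤ n + 2 → ∃ g : G, ∀ a ∈ l, g • a ∈ V0)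
    (hst : ∀ l, l ≠ [] → Sx R S l → FPG (MulAction.stabilizer G l) n) : FPG G n := by
  have hT : ∀ j (g : G), ∀ l ∈ {l : List V | l.length = j ∧ Sx R S l},
      g • l ∈ {l : List V | l.length = j ∧ Sx R S l} := fun j g l hl =>
    ⟨by simpa [smul_list] using hl.1, sx_smul hS hR g hl.2⟩
  let C : ℕ → Submodule (ZG G) (PM G (List V)) := fun j => PS _ (hT j)
  have hC : ∀ j, 1 ≤ j → j ≤ n + 2 → FP (ZG G) (n+1) (C j) := by
    intro j h1 h2
    refine fp_PS (finite_lists V0 j).toFinset _ _ (fun l hl => ?_) (fun l hl => hst l ?_ hl.2)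
    · obtain ⟨g, hg⟩ := hV0 l hl.2 (hl.1 ▸ h2)
      refine ⟨g, (Set.Finite.mem_toFinset _).2 ⟨by simpa [smul_list] using hl.1, fun a ha => ?_⟩⟩
      obtain ⟨a, ha', rfl⟩ := List.mem_map.1 ha
      exact hg a ha'
    · rintro rfl
      have := hl.1
      simp at this; omega
  let B : ℕ → Submodule (ZG G) (PM G (List V)) := fun j => (C (j+1)).map (bdG G V)
  have hBC : ∀ j, B j ≤ C j := by
    rintro j _ ⟨c, hc, rfl⟩
    exact bd_Ck (R := R) (S := S) hc
  let p : ∀ j, C (j+1) →ₗ[ZG G] B j := fun j =>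
    LinearMap.codRestrict _ (bdG G V ∘ₗ (C (j+1)).subtype) (fun c => ⟨c.1, c.2, rfl⟩)
  have hp : ∀ j, Surjective (p j) := by
    rintro j ⟨_, c, hc, rfl⟩
    exact ⟨⟨c, hc⟩, rfl⟩
  have key : ∀ i j, i + j = n + 1 → FP (ZG G) i (B j) := by
    intro i
    induction i with
    | zero =>
      intro j hj
      have := (hC (j+1) (by omega) (by omega)).finite
      exact Module.Finite.of_surjective (p j) (hp j)
    | succ i ih =>
      intro j hj
      refine FP.right (Submodule.inclusion (hBC (j+1))) (p j) (Submodule.inclusion_injective _)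
        (hp j) ?_ (ih (j+1) (by omega)) ((hC (j+1) (by omega) (by omega)).mono (by omega))
      rintro ⟨c, hc⟩
      constructor
      · intro h
        obtain ⟨c', hc', h'⟩ := hac (j+1) (by omega) c hc (congrArg Subtype.val h)
        exact ⟨⟨c, c', hc', h'⟩, rfl⟩
      · rintro ⟨⟨_, c', hc', rfl⟩, h⟩
        rw [← h]
        exact Subtype.ext (bd_bd c')
  obtain ⟨c0, hc0, h0⟩ := hac 0 (by omega) (sg []) (sg_mem ⟨rfl, by simp [Sx]⟩) bd_nil
  refine (fp_triv_iff (M := B 0) ⟨toPM G (sg []), c0, hc0, h0⟩ (fun g => ?_) (fun x => ?_)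
    (fun k hk => ?_) n).1 (key _ 0 rfl)
  · exact Subtype.ext (og_smul_single g [] 1)
  · obtain ⟨x, hx⟩ := x
    have hx' : x ∈ Ck R S 0 := hBC 0 hx
    obtain ⟨k, hk⟩ := eq_smul_nil (Sup_mono (fun l hl => hl.1) hx')
    exact ⟨k, Subtype.ext hk⟩
  · have : k • (sg [] : Ch V) = 0 := congrArg Subtype.val hk
    simpa [sg] using this

end brown

/-- change of groups: finite index image and kernel of type FP -/
theorem FPG.of_hom {Γ Q : Type} [Group Γ] [Group Q] (φ : Γ →* Q) (Q0 : Finset Q)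
    (hQ0 : ∀ q, ∃ γ, φ γ * q ∈ Q0) {m : ℕ} (hk : FPG φ.ker m) (hQ : FPG Q m) : FPG Γ m := by
  let : MulAction Γ Q := MulAction.compHom Q φ
  let ι := MonoidAlgebra.mapDomainRingHom ℤ φ
  have hιo : ∀ s : Γ, ι (og s) = og (φ s) := fun s => by simp [ι, og]
  let : Module (ZG Γ) (ZG Q) := Module.compHom _ ι
  have : IsScalarTower (ZG Γ) (ZG Q) (ZG Q) := ⟨fun r s t => mul_assoc (ι r) s t⟩
  let : Module (ZG Γ) (PM Q Unit) := Module.compHom _ ι
  have : IsScalarTower (ZG Γ) (ZG Q) (PM Q Unit) := ⟨fun r s t => mul_smul (ι r) s t⟩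
  have h1 : FP (ZG Γ) (m+1) (PS (G := Γ) (Set.univ : Set Q) (fun _ _ _ => trivial)) := by
    refine fp_PS Q0 _ _ (fun q _ => hQ0 q) (fun q _ => ?_)
    have : MulAction.stabilizer Γ q = φ.ker := by
      ext γ
      rw [MulAction.mem_stabilizer_iff, MonoidHom.mem_ker]
      exact mul_eq_right
    rwa [this]
  have h2 : FP (ZG Γ) (m+1) (ZG Q) := by
    let f : ZG Q →ₗ[ZG Γ] PM Γ Q := linOf MonoidAlgebra.coeffAddEquiv.toAddMonoidHom (fun g a => by
      change (ι (og g) * a).coeff = og g • toPM Γ a.coeff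
      rw [og_smul, hιo]
      refine zg_ext (MonoidAlgebra.coeffAddEquiv.toAddMonoidHom.comp
        (AddMonoidHom.mulLeft (og (φ g)))) ((Finsupp.mapDomain.addMonoidHom (g • ·)).comp
        MonoidAlgebra.coeffAddEquiv.toAddMonoidHom) (fun q => ?_) a
      simp [og, MonoidAlgebra.single_mul_single]
      rfl)
    refine h1.equiv (LinearEquiv.ofBijective (LinearMap.codRestrict _ f (fun c => ?_)) ⟨?_, ?_⟩).symm
    · intro y _; trivial
    · intro a b hab
      exact MonoidAlgebra.coeff_injective (congrArg Subtype.val hab)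
    · rintro ⟨c, hc⟩
      exact ⟨MonoidAlgebra.ofCoeff c, rfl⟩
  let e : PM Q Unit := toPM Q (Finsupp.single () 1)
  have hs0 : ∀ x : Unit →₀ ℤ, (x ()) • (Finsupp.single () (1 : ℤ) : Unit →₀ ℤ) = x := fun x => by
    ext; simp
  have hs : ∀ x : PM Q Unit, ∃ n : ℤ, n • e = x := fun x => ⟨_, hs0 x⟩
  have hi : ∀ n : ℤ, n • e = 0 → n = 0 := fun n hn => by
    change n • (Finsupp.single () (1 : ℤ) : Unit →₀ ℤ) = 0 at hn
    simpa using hn
  have h3 : FP (ZG Q) (m+1) (PM Q Unit) :=
    (fp_triv_iff e (fun g => og_smul_single g () 1) hs hi m).2 hQ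
  refine (fp_triv_iff e (fun g => ?_) hs hi m).1 (FP.restrict h2 h3)
  change ι (og g) • e = e
  rw [hιo]; exact og_smul_single _ () 1

theorem fpg_of_subsingleton [Subsingleton G] (m : ℕ) : FPG G m := by
  have : aug G = ⊥ := by
    rw [aug, Submodule.span_eq_bot]
    rintro _ ⟨g, rfl⟩
    simp [Subsingleton.elim g 1, MonoidAlgebra.one_def]
  have : Subsingleton (aug G) := by rw [this]; infer_instance
  exact FP.of_subsingleton _ _

theorem FPG.equiv {H : Type} [Group H] (e : G ≃* H) {m : ℕ} (h : FPG G m) : FPG H m := by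
  have : Subsingleton e.symm.toMonoidHom.ker := by
    rw [(MonoidHom.ker_eq_bot_iff _).2 e.symm.injective]; infer_instance
  exact FPG.of_hom e.symm.toMonoidHom {1} (fun q => ⟨e q⁻¹, by simp⟩) (fpg_of_subsingleton m) h

theorem FPG.mono {m n : ℕ} (hmn : m ≤ n) (h : FPG G n) : FPG G m := FP.mono hmn h

section fill

theorem lift_free {A B : Type} [AddCommGroup A] [Module (ZG G) A] [AddCommGroup B]
    [Module (ZG G) B] (p : A →ₗ[ZG G] B) (f : PM G (List G) →ₗ[ZG G] B) (j : ℕ)
    (h : ∀ l : List G, l.length = j + 1 → ∃ a, p a = f (toPM G (sg l))) :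
    ∃ g : PM G (List G) →ₗ[ZG G] A, ∀ c ∈ Sup (fun l : List G => l.length = j + 1),
      p (g (toPM G c)) = f (toPM G c) := by
  choose! u hu using h
  let hd : List G → G := fun l => l.headD 1
  let v : List G → A := fun l => if l = [] then 0 else og (hd l) • u ((hd l)⁻¹ • l)
  have hv : ∀ (g : G) l, v (g • l) = og g • v l := by
    intro g l
    cases l with
    | nil => simp [v, smul_list]
    | cons a l =>
      have h1 : g • (a :: l) ≠ [] := by simp [smul_list]
      have h2 : hd (g • (a :: l)) = g * a := rfl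
      have h3 : hd (a :: l) = a := rfl
      simp only [v, h1, h2, h3, if_false, reduceCtorEq, map_mul, mul_smul, mul_inv_rev,
        inv_smul_smul]
  refine ⟨linOf (lift v).toAddMonoidHom (fun g c => ?_), fun c hc => ?_⟩
  · change lift v (og g • toPM G c) = og g • lift v c
    rw [og_smul_ch]
    refine ch_ext' (lift v ∘ₗ push (g • ·))
      ((DistribSMul.toAddMonoidHom A (og g)).toIntLinearMap ∘ₗ lift v) (fun l => ?_) c
    simpa [smul_list] using hv g l
  · refine map_eq (p.toAddMonoidHom.toIntLinearMap ∘ₗ lift v)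
      f.toAddMonoidHom.toIntLinearMap (fun l hl => ?_) hc
    have h1 : l ≠ [] := by rintro rfl; simp at hl
    change p (lift v (sg l)) = f (toPM G (sg l))
    rw [lift_sg]
    simp only [v, h1, if_false, map_smul]
    rw [hu _ (by simpa [smul_list] using hl), ← map_smul]
    congr 1
    rw [sg, og_smul_single, smul_inv_smul]; rfl

/-- lists of length `j` whose entries differ by elements of `S` -/
def Sc (S : Finset G) (j : ℕ) (l : List G) : Prop :=
  l.length = j ∧ ∀ a ∈ l, ∀ b ∈ l, a⁻¹ * b ∈ S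

theorem exists_scale (j : ℕ) (s : Finset (Ch G)) (hs : ∀ c ∈ s, c ∈ Sup fun l => l.length = j) :
    ∃ S' : Finset G, ∀ c ∈ s, c ∈ Sup (Sc S' j) := by
  classical
  refine ⟨s.biUnion fun c => c.support.biUnion fun l =>
    (l.toFinset ×ˢ l.toFinset).image fun x => x.1⁻¹ * x.2, fun c hc => mem_Sup.2 fun l hl =>
      ⟨mem_Sup.1 (hs c hc) l hl, fun a ha b hb => ?_⟩⟩
  exact Finset.mem_biUnion.2 ⟨c, hc, Finset.mem_biUnion.2 ⟨l, hl,
    Finset.mem_image.2 ⟨(a, b), by simp [ha, hb], rfl⟩⟩⟩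

/-- uniform filling of cycles in a group of type FP -/
theorem FPG.fill {m : ℕ} (h : FPG G m) (S : Finset G) :
    ∃ S' : Finset G, ∀ z ∈ Sup (Sc S (m+1)), bd z = 0 → ∃ c ∈ Sup (Sc S' (m+2)), bd c = z := by
  classical
  have hT : ∀ j (g : G), ∀ l ∈ {l : List G | l.length = j},
      g • l ∈ {l : List G | l.length = j} := fun j g l hl => by simpa [smul_list] using hl
  let C : ℕ → Submodule (ZG G) (PM G (List G)) := fun j => PS _ (hT j)
  have hcone : ∀ j, ∀ z ∈ C j, bdG G G z = 0 → ∃ c : C (j+1), bdG G G c = z := by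
    intro j z hz hz0
    refine ⟨⟨toPM G (cons 1 z), cons_mem (P := fun l => l.length = j) 1 (fun l hl => by
      simp [hl]) hz⟩, ?_⟩
    change bd (cons 1 z) = z
    rw [bd_cons, show bd z = 0 from hz0]; simp
  have hbC : ∀ j, ∀ c ∈ C (j+1), bdG G G c ∈ C j := fun j c hc =>
    bd_mem (P := fun l => l.length = j + 1) (Q := fun l => l.length = j)
      (fun l l' h1 h2 _ => by omega) hc
  have hbb : ∀ c, bdG G G (bdG G G c) = 0 := fun c => bd_bd c
  have key : ∀ j i, i + j = m + 1 → ∃ (F : Type) (_ : AddCommGroup F) (_ : Module (ZG G) F)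
      (K : Submodule (ZG G) F) (g : PM G (List G) →ₗ[ZG G] F) (f : F →ₗ[ZG G] PM G (List G))
      (h : PM G (List G) →ₗ[ZG G] PM G (List G)), FP (ZG G) i K ∧
      (∀ x ∈ K, f x ∈ C j ∧ bdG G G (f x) = 0) ∧ (∀ c ∈ C j, h c ∈ C (j+1)) ∧
      ∀ z ∈ C j, bdG G G z = 0 → g z ∈ K ∧ z = f (g z) + bdG G G (h z) := by
    intro j
    induction j with
    | zero =>
      intro i hi
      obtain rfl : i = m + 1 := hi
      refine ⟨_, _, _, C 0, LinearMap.id, LinearMap.id, 0, ?_, fun x hx => ⟨hx, ?_⟩,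
        fun c _ => zero_mem _, fun z hz _ => ⟨hz, by simp⟩⟩
      · refine (fp_triv_iff (M := C 0) ⟨toPM G (sg []), sg_mem (P := fun l => l.length = 0) rfl⟩
          (fun g => Subtype.ext (og_smul_single g [] 1)) (fun x => (eq_smul_nil x.2).imp
            fun k hk => Subtype.ext hk)
          (fun k hk => ?_) m).2 h
        have : k • (sg [] : Ch G) = 0 := congrArg Subtype.val hk
        simpa [sg] using this
      · obtain ⟨k, rfl⟩ := eq_smul_nil hx
        change bd (k • sg []) = 0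
        simp
    | succ j ih =>
      intro i hi
      obtain ⟨F, _, _, K, g, f, h, ⟨r, p, hp, hK⟩, hf, hh, hz⟩ := ih (i+1) (by omega)
      obtain ⟨g', hg'⟩ := lift_free (K.subtype ∘ₗ p) (g ∘ₗ bdG G G) j (fun l hl => by
        obtain ⟨a, ha⟩ := hp ⟨_, (hz _ (hbC j (toPM G (sg l))
          (sg_mem (P := fun l => l.length = j + 1) hl)) (hbb _)).1⟩
        exact ⟨a, congrArg Subtype.val ha⟩)
      let q : C (j+1) →ₗ[ZG G] LinearMap.range (bdG G G ∘ₗ (C (j+1)).subtype) :=
        LinearMap.rangeRestrict _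
      obtain ⟨f', hf'⟩ := Module.projective_lifting_property q
        (LinearMap.codRestrict _ (f ∘ₗ K.subtype ∘ₗ p)
          (fun x => hcone j _ (hf _ (p x).2).1 (hf _ (p x).2).2))
        (LinearMap.surjective_rangeRestrict _)
      have hf'' : ∀ x, bdG G G (f' x) = f (p x) := fun x =>
        congrArg Subtype.val (LinearMap.congr_fun hf' x)
      have hg'' : ∀ c ∈ C (j+1), (p (g' c) : F) = g (bdG G G c) := fun c hc => hg' c hc
      obtain ⟨h', hh'⟩ := lift_free (bdG G G ∘ₗ (C (j+2)).subtype)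
        (LinearMap.id - (C (j+1)).subtype ∘ₗ f' ∘ₗ g' - h ∘ₗ bdG G G) j (fun l hl => by
          have hl' : toPM G (sg l) ∈ C (j+1) := sg_mem (P := fun l => l.length = j + 1) hl
          refine hcone (j+1) _ (sub_mem (sub_mem hl' (f' _).2) (hh _ (hbC j _ hl'))) ?_
          simp only [LinearMap.comp_apply, Submodule.subtype_apply, LinearMap.id_apply,
            map_sub, hf'', hg'' _ hl', LinearMap.sub_apply]
          have := (hz _ (hbC j _ hl') (hbb _)).2
          rw [sub_sub, ← this, sub_self])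
      refine ⟨_, _, _, LinearMap.ker p, g', (C (j+1)).subtype ∘ₗ f', (C (j+2)).subtype ∘ₗ h', hK,
        fun x hx => ⟨(f' x).2, ?_⟩, fun c _ => (h' c).2, fun z hz hz0 => ⟨?_, ?_⟩⟩
      · change bdG G G (f' x) = 0
        rw [hf'', LinearMap.mem_ker.1 hx]; simp
      · apply Subtype.ext
        change (p (g' z) : F) = 0
        rw [hg'' z hz, hz0, map_zero]
      · have := hh' z hz
        simp only [LinearMap.comp_apply, Submodule.subtype_apply, LinearMap.id_apply,
          LinearMap.sub_apply] at this ⊢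
        change bdG G G (h' z) = z - (f' (g' z) : PM G (List G)) - h (bdG G G z) at this
        rw [this, hz0]; simp
  obtain ⟨F, _, _, K, g, f, h, hK, hf, hh, hz⟩ := key (m+1) 0 (by omega)
  obtain ⟨T, hT'⟩ : K.FG := Module.Finite.iff_fg.1 hK
  have hc : ∀ x ∈ T, ∃ c : C (m+2), bdG G G c = f x := fun x hx =>
    hcone _ _ (hf x (hT' ▸ Submodule.subset_span hx)).1 (hf x (hT' ▸ Submodule.subset_span hx)).2
  choose! c hc using hc
  obtain ⟨S', hS'⟩ := exists_scale (m+2) (T.image (fun x => ((c x).1 : Ch G)) ∪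
    (finite_lists S (m+1)).toFinset.image fun l => (h (toPM G (sg l)) : Ch G)) (by
      intro x hx
      rcases Finset.mem_union.1 hx with hx | hx
      · obtain ⟨y, _, rfl⟩ := Finset.mem_image.1 hx
        exact (c y).2
      · obtain ⟨l, hl, rfl⟩ := Finset.mem_image.1 hx
        exact hh _ (sg_mem (P := fun l => l.length = m + 1) ((Set.Finite.mem_toFinset _).1 hl).1))
  let Wm : Submodule (ZG G) (PM G (List G)) := PS {l | Sc S' (m+2) l} (fun g l hl =>
    ⟨by simpa [smul_list] using hl.1, fun a ha b hb => by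
      obtain ⟨a, ha', rfl⟩ := List.mem_map.1 ha
      obtain ⟨b, hb', rfl⟩ := List.mem_map.1 hb
      simpa [mul_assoc] using hl.2 a ha' b hb'⟩)
  refine ⟨S', fun z hz1 hz0 => ?_⟩
  obtain ⟨h1, h2⟩ := hz (toPM G z) (Sup_mono (fun l hl => hl.1) hz1) hz0
  have h3 : h (toPM G z) ∈ Wm := by
    refine map_mem h.toAddMonoidHom.toIntLinearMap (Sup (Sc S' (m+2))) (fun l hl => ?_) hz1
    change h (toPM G (sg l)) ∈ Wm
    obtain ⟨a, l', rfl⟩ : ∃ a l', l = a :: l' := by
      cases l with
      | nil => have := hl.1; simp at this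
      | cons a l' => exact ⟨a, l', rfl⟩
    have : toPM G (sg (a :: l')) = og a • toPM G (sg (a⁻¹ • (a :: l'))) := by
      rw [sg, sg, og_smul_single, smul_inv_smul]
    rw [this, map_smul]
    refine Submodule.smul_mem _ _ (hS' _ (Finset.mem_union_right _ (Finset.mem_image.2
      ⟨_, (Set.Finite.mem_toFinset _).2 ⟨by simpa [smul_list] using hl.1, fun b hb => ?_⟩, rfl⟩)))
    obtain ⟨b, hb', rfl⟩ := List.mem_map.1 hb
    exact hl.2 a (by simp) b hb'
  have h4 : ∀ x ∈ K, f x ∈ Wm.map (bdG G G) := by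
    intro x hx
    rw [← hT'] at hx
    induction hx using Submodule.span_induction with
    | mem x hx => exact ⟨c x, hS' _ (Finset.mem_union_left _ (Finset.mem_image.2 ⟨x, hx, rfl⟩)),
        hc x hx⟩
    | zero => simp
    | add x y _ _ hx hy => rw [map_add]; exact add_mem hx hy
    | smul a x _ hx => rw [map_smul]; exact Submodule.smul_mem _ _ hx
  obtain ⟨c', hc', h5⟩ := h4 _ h1
  refine ⟨c' + h (toPM G z), add_mem hc' h3, ?_⟩
  change bdG G G (c' + h (toPM G z)) = toPM G z
  rw [map_add, h5, ← h2]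

end fill

/-- the matrix form of type FP -/
theorem fpg_iff_matrices (m : ℕ) : FPG G m ↔
    ∃ (r : ℕ → ℕ) (d : ∀ i : ℕ, Matrix (Fin (r (i + 1))) (Fin (r i)) (MonoidAlgebra ℤ G)),
        r 0 = 1 ∧
        (∀ v : Fin (r 0) → MonoidAlgebra ℤ G,
          ((∀ j, v j ∈ Submodule.span (MonoidAlgebra ℤ G)
              (Set.range (fun g : G => MonoidAlgebra.of ℤ G g - 1))) ↔
            ∃ w : Fin (r 1) → MonoidAlgebra ℤ G, Matrix.vecMul w (d 0) = v)) ∧
        (∀ i : ℕ, i + 1 < m + 1 → ∀ v : Fin (r (i + 1)) → MonoidAlgebra ℤ G,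
          (Matrix.vecMul v (d i) = 0 ↔
            ∃ w : Fin (r (i + 1 + 1)) → MonoidAlgebra ℤ G, Matrix.vecMul w (d (i + 1)) = v)) := by
  constructor
  · intro h
    let K : Submodule (ZG G) (Fin 1 → ZG G) := (aug G).comap (LinearMap.proj 0)
    have hK : FP (ZG G) m K := FP.equiv
      (LinearEquiv.ofSubmodule' (LinearEquiv.funUnique (Fin 1) (ZG G) (ZG G)) (aug G)).symm h
    obtain ⟨r, d0, d, h1, h2, h3⟩ := FP.exists_matrices m 1 K hK
    refine ⟨fun i => match i with | 0 => 1 | i+1 => r i,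
      fun i => match i with | 0 => d0 | i+1 => d i, rfl, fun v => ?_, fun i hi v => ?_⟩
    · refine Iff.trans ?_ (h1 v)
      exact ⟨fun h => h 0, fun h j => by rw [Subsingleton.elim j 0]; exact h⟩
    · cases i with
      | zero => exact h2 (by omega) v
      | succ i => exact h3 i (by omega) v
  · rintro ⟨r, d, h0, h1, h2⟩
    have h3 := FP.of_matrices r d (m+1) h2 m 0 rfl
    have : Unique (Fin (r 0)) := h0 ▸ inferInstance
    refine h3.equiv (LinearEquiv.ofSubmodules
      (LinearEquiv.funUnique (Fin (r 0)) (ZG G) (ZG G)) _ _ ?_)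
    ext a
    simp only [Submodule.mem_map, LinearMap.mem_range, Matrix.vecMulLinear_apply]
    constructor
    · rintro ⟨v, hv, rfl⟩
      exact (h1 v).2 hv default
    · intro ha
      exact ⟨fun _ => a, (h1 _).1 fun _ => ha, rfl⟩

end Pool.Agent.Lib.Brown
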