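import Pool.Agent.Lib.Brown.FP

/-! Integral group rings, permutation modules, groups of type FP. -/

set_option autoImplicit false

namespace Pool.Agent.Lib.Brown

open Function

abbrev ZG (G : Type) [Group G] := MonoidAlgebra ℤ G

variable {G : Type} [Group G]

noncomputable abbrev og (g : G) : ZG G := MonoidAlgebra.of ℤ G g

/-- the augmentation ideal -/
noncomputable def aug (G : Type) [Group G] : Submodule (ZG G) (ZG G) :=
  Submodule.span (ZG G) (Set.range fun g : G => MonoidAlgebra.of ℤ G g - 1)

/-- `FPG G m` says that `G` is of type `FP_(m+1)` -/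
def FPG (G : Type) [Group G] (m : ℕ) : Prop := FP (ZG G) m (aug G)

/-- additive extension of a function on the group -/
noncomputable def zl {A : Type} [AddCommGroup A] (f : G → A) : ZG G →+ A :=
  (Finsupp.linearCombination ℤ f).toAddMonoidHom.comp MonoidAlgebra.coeffAddEquiv.toAddMonoidHom

@[simp] theorem zl_og {A : Type} [AddCommGroup A] (f : G → A) (g : G) : zl f (og g) = f g := by
  simp [zl, og]

theorem zg_induction {P : ZG G → Prop} (a : ZG G) (h1 : ∀ g, P (og g)) (h0 : P 0)
    (hadd : ∀ a b, P a → P b → P (a + b)) (hneg : ∀ a, P a → P (-a)) : P a := by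
  refine MonoidAlgebra.induction_on a h1 hadd ?_
  intro r f hf
  induction r using Int.induction_on with
  | zero => simpa using h0
  | succ i ih => rw [add_smul, one_smul]; exact hadd _ _ ih hf
  | pred i ih => rw [sub_smul, one_smul, sub_eq_add_neg]; exact hadd _ _ ih (hneg _ hf)

theorem zg_ext {A : Type} [AddCommGroup A] (f f' : ZG G →+ A) (h : ∀ g, f (og g) = f' (og g))
    (a : ZG G) : f a = f' a :=
  zg_induction (P := fun a => f a = f' a) a h (by simp) (fun a b ha hb => by simp [ha, hb])
    (fun a ha => by simp [ha])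

section mods
variable {M N : Type} [AddCommGroup M] [Module (ZG G) M] [AddCommGroup N] [Module (ZG G) N]

/-- an equivariant additive map is linear over the group ring -/
noncomputable def linOf (f : M →+ N) (h : ∀ (g : G) m, f (og g • m) = og g • f m) :
    M →ₗ[ZG G] N where
  toFun := f
  map_add' := f.map_add
  map_smul' a m := zg_induction (P := fun a => f (a • m) = a • f m) a (fun g => h g m) (by simp)
    (fun a b ha hb => by simp [add_smul, ha, hb]) (fun a ha => by simp [ha])

@[simp] theorem linOf_apply (f : M →+ N) (h : ∀ (g : G) m, f (og g • m) = og g • f m) (m : M) :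
    linOf f h m = f m := rfl

/-- an invariant additive subgroup is a submodule over the group ring -/
noncomputable def subOf (K : AddSubgroup M) (h : ∀ (g : G), ∀ m ∈ K, og g • m ∈ K) :
    Submodule (ZG G) M where
  carrier := K
  add_mem' := K.add_mem
  zero_mem' := K.zero_mem
  smul_mem' a m hm := zg_induction (P := fun a => a • m ∈ K) a (fun g => h g m hm)
    (by simp) (fun a b ha hb => by rw [add_smul]; exact K.add_mem ha hb)
    (fun a ha => by rw [neg_smul]; exact K.neg_mem ha)

theorem smul_of_fixed {e : M} (he : ∀ g : G, og g • e = e) (a : ZG G) :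
    a • e = zl (fun _ => (1 : ℤ)) a • e :=
  zg_induction (P := fun a => a • e = zl (fun _ => (1 : ℤ)) a • e) a (fun g => by simp only [zl_og, he, one_smul])
    (by simp) (fun a b ha hb => by simp only [add_smul, map_add, ha, hb])
    (fun a ha => by simp only [neg_smul, map_neg, ha])

theorem sub_mem_aug (a : ZG G) : a - (zl (fun _ => (1 : ℤ)) a) • (1 : ZG G) ∈ aug G := by
  refine zg_induction (P := fun a => a - (zl (fun _ => (1 : ℤ)) a) • (1 : ZG G) ∈ aug G) a
    (fun g => ?_) (by simp) (fun a b ha hb => ?_) (fun a ha => ?_)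
  · rw [zl_og, one_smul]; exact Submodule.subset_span ⟨g, rfl⟩
  · convert add_mem ha hb using 1
    rw [map_add, add_smul]; abel
  · convert neg_mem ha using 1
    rw [map_neg, neg_smul]; abel

/-- an infinite cyclic module with trivial action detects type FP -/
theorem fp_triv_iff (e : M) (he : ∀ g : G, og g • e = e) (hs : ∀ x : M, ∃ n : ℤ, n • e = x)
    (hi : ∀ n : ℤ, n • e = 0 → n = 0) (m : ℕ) : FP (ZG G) (m+1) M ↔ FPG G m := by
  have hsurj : Surjective (LinearMap.toSpanSingleton (ZG G) M e) := fun x => by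
    obtain ⟨n, rfl⟩ := hs x
    exact ⟨n • 1, by rw [LinearMap.toSpanSingleton_apply, smul_assoc, one_smul]⟩
  have hker : LinearMap.ker (LinearMap.toSpanSingleton (ZG G) M e) = aug G := by
    apply le_antisymm
    · intro a ha
      rw [LinearMap.mem_ker, LinearMap.toSpanSingleton_apply, smul_of_fixed he] at ha
      simpa [hi _ ha] using sub_mem_aug a
    · rw [aug, Submodule.span_le]
      rintro _ ⟨g, rfl⟩
      have := he g
      simp only [og] at this
      simp only [SetLike.mem_coe, LinearMap.mem_ker, LinearMap.toSpanSingleton_apply, sub_smul,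
        this, one_smul, sub_self]
  constructor
  · intro h
    exact FP.left (aug G).subtype _ Subtype.val_injective hsurj
      (fun x => by rw [← LinearMap.mem_ker, hker]; simp) h (FP.free m _)
  · intro h
    exact FP.succ_of (ZG G) _ hsurj (hker ▸ h)

end mods

/-- the permutation module -/
def PM (_G : Type) (X : Type) : Type := X →₀ ℤ

section pm
variable {X : Type} [MulAction G X]

noncomputable instance : AddCommGroup (PM G X) := inferInstanceAs (AddCommGroup (X →₀ ℤ))

/-- the permutation representation -/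
noncomputable def permRep (G X : Type) [Group G] [MulAction G X] : G →* Module.End ℤ (X →₀ ℤ) where
  toFun g := Finsupp.lmapDomain ℤ ℤ (g • ·)
  map_one' := by ext; simp
  map_mul' a b := by ext; simp [mul_smul]

noncomputable instance : Module (ZG G) (PM G X) :=
  Module.compHom (X →₀ ℤ) (MonoidAlgebra.lift ℤ _ G (permRep G X)).toRingHom

/-- identity map to the permutation module -/
def toPM (G : Type) (c : X →₀ ℤ) : PM G X := c

theorem og_smul (g : G) (c : X →₀ ℤ) :
    og g • toPM G c = toPM G (Finsupp.mapDomain (g • ·) c) := by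
  show (MonoidAlgebra.lift ℤ _ G (permRep G X)) (og g) c = _
  rw [MonoidAlgebra.lift_of]; rfl

theorem og_smul_single (g : G) (x : X) (n : ℤ) :
    og g • toPM G (Finsupp.single x n) = toPM G (Finsupp.single (g • x) n) := by
  rw [og_smul, Finsupp.mapDomain_single]

/-- the submodule supported on an invariant set -/
noncomputable def PS (T : Set X) (hT : ∀ (g : G), ∀ x ∈ T, g • x ∈ T) : Submodule (ZG G) (PM G X) :=
  subOf (Finsupp.supported ℤ ℤ T).toAddSubgroup (fun g m hm => by
    classical
    have := og_smul g (m : X →₀ ℤ)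
    change og g • toPM G m ∈ _
    rw [this]
    intro y hy
    obtain ⟨x, hx, rfl⟩ := Finset.mem_image.1 (Finsupp.mapDomain_support hy)
    exact hT g x (hm hx))

theorem mem_PS {T : Set X} {hT : ∀ (g : G), ∀ x ∈ T, g • x ∈ T} {c : X →₀ ℤ} :
    toPM G c ∈ PS T hT ↔ c ∈ Finsupp.supported ℤ ℤ T := Iff.rfl

theorem pm_ext {A : Type} [AddCommGroup A] {T : Set X} (f f' : (X →₀ ℤ) →+ A)
    (h : ∀ x ∈ T, f (Finsupp.single x 1) = f' (Finsupp.single x 1)) {c : X →₀ ℤ}
    (hc : c ∈ Finsupp.supported ℤ ℤ T) : f c = f' c := by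
  rw [Finsupp.supported_eq_span_single] at hc
  induction hc using Submodule.span_induction with
  | mem x hx => obtain ⟨y, hy, rfl⟩ := hx; exact h y hy
  | zero => simp
  | add x y _ _ hx hy => simp [hx, hy]
  | smul a x _ hx => simp [hx]

theorem flat_subgroup (S : Subgroup G) :
    IsFlat (MonoidAlgebra.mapDomainRingHom ℤ S.subtype) := by
  classical
  set ι := MonoidAlgebra.mapDomainRingHom ℤ S.subtype with hι
  have hιo : ∀ s : S, ι (og s) = og (s : G) := fun s => by simp [hι, og]
  intro s r d w hw
  let Θ : ZG G →+ (G ⧸ S →₀ ZG S) := zl fun g => Finsupp.single (g : G ⧸ S)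
    (og ⟨(g : G ⧸ S).out⁻¹ * g, QuotientGroup.eq.1 (QuotientGroup.out_eq' _)⟩)
  let Ξ : (G ⧸ S →₀ ZG S) →+ ZG G := Finsupp.liftAddHom fun q =>
    (AddMonoidHom.mulLeft (og q.out)).comp ι.toAddMonoidHom
  have h1 : ∀ a, Ξ (Θ a) = a := by
    refine zg_ext (Ξ.comp Θ) (AddMonoidHom.id _) fun g => ?_
    simp only [AddMonoidHom.comp_apply, Θ, zl_og, Ξ, Finsupp.liftAddHom_apply_single,
      AddMonoidHom.id_apply, AddMonoidHom.coe_mulLeft, RingHom.toAddMonoidHom_eq_coe,
      AddMonoidHom.coe_coe, hιo]
    rw [← map_mul]; simp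
  have h2 : ∀ a b q, Θ (a * ι b) q = Θ a q * b := by
    intro a b q
    refine zg_ext ((Finsupp.applyAddHom q).comp (Θ.comp (AddMonoidHom.mulRight (ι b))))
      ((AddMonoidHom.mulRight b).comp ((Finsupp.applyAddHom q).comp Θ)) (fun g => ?_) a
    refine zg_ext ((Finsupp.applyAddHom q).comp (Θ.comp ((AddMonoidHom.mulLeft (og g)).comp
      ι.toAddMonoidHom))) (AddMonoidHom.mulLeft (Θ (og g) q)) (fun t => ?_) b
    have e : ((g * t : G) : G ⧸ S) = (g : G ⧸ S) := QuotientGroup.mk_mul_of_mem g t.2
    simp only [AddMonoidHom.comp_apply, AddMonoidHom.coe_mulLeft, RingHom.toAddMonoidHom_eq_coe,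
      AddMonoidHom.coe_coe, hιo, Finsupp.applyAddHom_apply, ← map_mul, Θ, zl_og,
      Finsupp.single_apply, e]
    split_ifs
    · rw [← map_mul]; congr 1; ext; simp [mul_assoc]
    · simp
  let Q : Finset (G ⧸ S) := Finset.univ.biUnion fun i => (Θ (w i)).support
  have h3 : w = ∑ q ∈ Q, og q.out • (fun i => ι (Θ (w i) q)) := by
    ext1 i
    rw [Finset.sum_apply]
    conv_lhs => rw [← h1 (w i)]
    simp only [Ξ, Finsupp.liftAddHom_apply]
    rw [Finsupp.sum_of_support_subset _ (s := Q) (Finset.subset_biUnion_of_mem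
      (fun i => (Θ (w i)).support) (Finset.mem_univ i)) _ (by simp)]
    rfl
  rw [h3]
  refine Submodule.sum_mem _ fun q _ => Submodule.smul_mem _ _ (Submodule.subset_span
    ⟨fun i => Θ (w i) q, fun j => ?_, rfl⟩)
  have := congrArg (fun a => Θ a q) (hw j)
  simpa [map_sum, Finsupp.finsetSum_apply, h2] using this

theorem smul_mem_orbit (x : X) (g : G) (y : X) (hy : y ∈ MulAction.orbit G x) :
    g • y ∈ MulAction.orbit G x := by
  obtain ⟨h, rfl⟩ := hy
  exact ⟨g * h, mul_smul g h x⟩

theorem fp_orbit (x : X) {m : ℕ} (h : FPG (MulAction.stabilizer G x) m) :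
    FP (ZG G) (m+1) (PS (MulAction.orbit G x) (smul_mem_orbit x)) := by
  classical
  set S := MulAction.stabilizer G x
  set ι := MonoidAlgebra.mapDomainRingHom ℤ S.subtype with hι
  have hιo : ∀ s : S, ι (og s) = og (s : G) := fun s => by simp [hι, og]
  let e : PM G X := toPM G (Finsupp.single x 1)
  let f0 : (Fin 1 → ZG G) →ₗ[ZG G] PM G X :=
    LinearMap.toSpanSingleton (ZG G) _ e ∘ₗ LinearMap.proj 0
  have hf0 : ∀ v, f0 v = v 0 • e := fun v => rfl
  let K : Submodule (ZG S) (Fin 1 → ZG S) := (aug S).comap (LinearMap.proj 0)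
  have hK : FP (ZG S) m K := by
    refine FP.equiv ?_ h
    exact (LinearEquiv.ofSubmodule' (LinearEquiv.funUnique (Fin 1) (ZG S) (ZG S)) (aug S)).symm
  refine ⟨1, LinearMap.codRestrict _ f0 (fun v => Submodule.smul_mem _ _
    (mem_PS.2 (Finsupp.single_mem_supported _ _ (MulAction.mem_orbit_self x)))), ?_, ?_⟩
  · rintro ⟨c, hc⟩
    have : c ∈ LinearMap.range f0 := by
      change c ∈ Finsupp.supported ℤ ℤ _ at hc
      rw [Finsupp.supported_eq_span_single] at hc
      induction hc using Submodule.span_induction with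
      | mem y hy =>
        obtain ⟨_, ⟨g, rfl⟩, rfl⟩ := hy
        exact ⟨fun _ => og g, og_smul_single g x 1⟩
      | zero => exact zero_mem _
      | add x y _ _ hx hy => exact add_mem hx hy
      | smul a x _ hx => exact zsmul_mem hx a
    obtain ⟨v, hv⟩ := this
    exact ⟨v, Subtype.ext hv⟩
  · refine (FP.ext ι (flat_subgroup S) K hK).equiv (LinearEquiv.ofEq _ _ ?_)
    rw [LinearMap.ker_codRestrict]
    apply le_antisymm
    · rw [extSub, Submodule.span_le]
      rintro _ ⟨v, hv, rfl⟩
      change ι (v 0) • e = 0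
      have hv' : v 0 ∈ aug S := hv
      generalize v 0 = a at hv'
      induction hv' using Submodule.span_induction with
      | mem y hy =>
        obtain ⟨s, rfl⟩ := hy
        rw [map_sub, hιo, map_one, sub_smul, og_smul_single, one_smul, s.2, sub_self]
      | zero => simp
      | add x y _ _ hx hy => rw [map_add, add_smul, hx, hy, add_zero]
      | smul a x _ hx => rw [smul_eq_mul, map_mul, mul_smul, hx, smul_zero]
    · intro v hv
      have hσ : ∀ y : X, ∃ g : G, y ∈ MulAction.orbit G x → g • x = y := fun y => by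
        by_cases hy : y ∈ MulAction.orbit G x
        · obtain ⟨g, hg⟩ := hy
          exact ⟨g, fun _ => hg⟩
        · exact ⟨1, fun h => absurd h hy⟩
      choose σ hσ using hσ
      let ψ : PM G X →+ ZG G := (Finsupp.linearCombination ℤ fun y => og (σ y)).toAddMonoidHom
      have key : ∀ a : ZG G, (fun _ : Fin 1 => a - ψ (a • e)) ∈ extSub ι K := by
        intro a
        refine zg_induction (P := fun a => (fun _ : Fin 1 => a - ψ (a • e)) ∈ extSub ι K) a
          (fun g => ?_) ?_ (fun a b ha hb => ?_) (fun a ha => ?_)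
        · have h1 := hσ (g • x) (MulAction.mem_orbit x g)
          have h2 : (σ (g • x))⁻¹ * g ∈ S := by
            rw [MulAction.mem_stabilizer_iff, mul_smul, inv_smul_eq_iff, h1]
          have h3 : (fun _ : Fin 1 => og g - ψ (og g • e)) = og (σ (g • x)) •
              (fun _ : Fin 1 => ι (og ⟨_, h2⟩ - 1)) := by
            ext1 j
            rw [og_smul_single]
            have : ψ (toPM G (Finsupp.single (g • x) 1)) = og (σ (g • x)) := by
              show Finsupp.linearCombination ℤ (fun y => og (σ y)) (Finsupp.single (g • x) 1) = _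
              rw [Finsupp.linearCombination_single, one_smul]
            rw [this, Pi.smul_apply, map_sub, hιo, map_one, smul_eq_mul, mul_sub, ← map_mul]
            simp
          rw [h3]
          exact Submodule.smul_mem _ _ (Submodule.subset_span ⟨fun _ => og ⟨_, h2⟩ - 1,
            Submodule.subset_span ⟨_, rfl⟩, rfl⟩)
        · convert Submodule.zero_mem _ using 1
          ext1; simp
        · convert add_mem ha hb using 1
          ext1; simp only [add_smul, map_add, Pi.add_apply]; abel
        · convert neg_mem ha using 1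
          ext1; simp only [neg_smul, map_neg, Pi.neg_apply]; abel
      have := key (v 0)
      rw [← hf0, LinearMap.mem_ker.1 hv, map_zero, sub_zero] at this
      convert this using 1
      ext1 j; rw [Subsingleton.elim j 0]

theorem fp_PS {m : ℕ} (X0 : Finset X) : ∀ (T : Set X) (hT : ∀ (g : G), ∀ x ∈ T, g • x ∈ T),
    (∀ x ∈ T, ∃ g : G, g • x ∈ X0) → (∀ x ∈ T, FPG (MulAction.stabilizer G x) m) →
    FP (ZG G) (m+1) (PS T hT) := by
  classical
  induction X0 using Finset.induction_on with
  | empty =>
    intro T hT h0 _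
    have : Subsingleton (PS T hT) := ⟨fun a b => Subtype.ext (by
      have h : ∀ c : PS T hT, c.1 = 0 := fun c => Finsupp.support_eq_empty.1 (by
        rw [Finset.eq_empty_iff_forall_notMem]
        intro y hy
        simpa using h0 y (c.2 hy))
      rw [h a, h b])⟩
    exact FP.of_subsingleton _ _
  | insert x X1 _ ih =>
    intro T hT h0 hst
    by_cases hx : x ∈ T
    swap
    · refine ih T hT (fun y hy => ?_) hst
      obtain ⟨g, hg⟩ := h0 y hy
      refine ⟨g, (Finset.mem_insert.1 hg).resolve_left fun h => hx (h ▸ hT g y hy)⟩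
    have horb : ∀ (g : G) y, g • y ∈ MulAction.orbit G x ↔ y ∈ MulAction.orbit G x := fun g y =>
      ⟨fun h => by simpa using smul_mem_orbit x g⁻¹ _ h, smul_mem_orbit x g y⟩
    have hT' : ∀ (g : G), ∀ y ∈ T \ MulAction.orbit G x, g • y ∈ T \ MulAction.orbit G x :=
      fun g y hy => ⟨hT g y hy.1, fun h => hy.2 ((horb g y).1 h)⟩
    have h1 := ih _ hT' (fun y hy => by
      obtain ⟨g, hg⟩ := h0 y hy.1
      refine ⟨g, (Finset.mem_insert.1 hg).resolve_left fun h => hy.2 ?_⟩
      rw [← horb g y, h]; exact MulAction.mem_orbit_self x) (fun y hy => hst y hy.1)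
    let φ : (X →₀ ℤ) →+ (X →₀ ℤ) := Finsupp.filterAddHom (· ∈ MulAction.orbit G x)
    have hφ : ∀ c, φ c = Finsupp.filter (Membership.mem (MulAction.orbit G x)) c := fun c => rfl
    let p0 : PM G X →ₗ[ZG G] PM G X := linOf φ (fun g c => by
      change φ (og g • toPM G c) = og g • toPM G (φ c)
      rw [og_smul, og_smul]
      refine pm_ext (T := Set.univ) (φ.comp (Finsupp.mapDomain.addMonoidHom (g • ·)))
        ((Finsupp.mapDomain.addMonoidHom (g • ·)).comp φ) (fun y _ => ?_) (by simp)
      simp only [AddMonoidHom.comp_apply, Finsupp.mapDomain.addMonoidHom_apply,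
        Finsupp.mapDomain_single, hφ]
      by_cases hy : y ∈ MulAction.orbit G x
      · rw [Finsupp.filter_single_of_pos _ hy, Finsupp.filter_single_of_pos _ ((horb g y).2 hy),
          Finsupp.mapDomain_single]
      · rw [Finsupp.filter_single_of_neg _ hy,
          Finsupp.filter_single_of_neg _ (fun h => hy ((horb g y).1 h)), Finsupp.mapDomain_zero])
    have hp0 : ∀ c : X →₀ ℤ, p0 c = Finsupp.filter (· ∈ MulAction.orbit G x) c := fun c => rfl
    have hle : PS _ hT' ≤ PS T hT := fun c hc =>
      Finsupp.supported_mono (M := ℤ) (R := ℤ) Set.sdiff_subset hc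
    refine FP.mid (Submodule.inclusion hle)
      (LinearMap.codRestrict (PS (MulAction.orbit G x) (smul_mem_orbit x))
        (p0 ∘ₗ (PS T hT).subtype) (fun c => ?_))
      (Submodule.inclusion_injective _) ?_ ?_ h1 (fp_orbit x (hst x hx))
    · intro y hy
      have : y ∈ (Finsupp.filter (· ∈ MulAction.orbit G x) (c.1 : X →₀ ℤ)).support := hy
      rw [Finsupp.support_filter] at this
      exact (Finset.mem_filter.1 this).2
    · rintro ⟨c, hc⟩
      refine ⟨⟨c, Finsupp.supported_mono (M := ℤ) (R := ℤ) ?_ hc⟩, Subtype.ext ?_⟩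
      · rintro _ ⟨g, rfl⟩; exact hT g x hx
      · exact (Finsupp.filter_eq_self_iff _ _).2 fun y hy => hc (Finsupp.mem_support_iff.2 hy)
    · rintro ⟨c, hc⟩
      constructor
      · intro h
        have h2 : Finsupp.filter (· ∈ MulAction.orbit G x) (c : X →₀ ℤ) = 0 :=
          congrArg Subtype.val h
        rw [Finsupp.filter_eq_zero_iff] at h2
        exact ⟨⟨c, fun y hy => ⟨hc hy, fun h => Finsupp.mem_support_iff.1 hy (h2 y h)⟩⟩, rfl⟩
      · rintro ⟨⟨c', hc'⟩, h⟩
        obtain rfl : c' = c := congrArg Subtype.val h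
        apply Subtype.ext
        refine (Finsupp.filter_eq_zero_iff _ _).2 fun y hy => ?_
        by_contra hne
        exact (hc' (Finsupp.mem_support_iff.2 hne)).2 hy

end pm

end Pool.Agent.Lib.Brown
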